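import Mathlib

/-!
Transcendence degree and Krull dimension of finitely generated `ℂ`-algebras.
-/

open MvPolynomial Cardinal

namespace H41.EigAlg

/-- going up: an injective integral extension does not lower the Krull dimension -/
theorem ringKrullDim_le_of_integral_injective {R S : Type*} [CommRing R] [CommRing S] [Algebra R S]
    [Algebra.IsIntegral R S] (hinj : Function.Injective (algebraMap R S)) :
    ringKrullDim R ≤ ringKrullDim S := by
  have : FaithfulSMul R S := (faithfulSMul_iff_algebraMap_injective R S).mpr hinj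
  refine iSup_le fun l => ?_
  obtain ⟨P, hP⟩ := Ideal.nonempty_primesOver (S := S) (l.head).asIdeal
  have hP1 : P.IsPrime := hP.1
  have hP2 : P.LiesOver (RelSeries.head l).asIdeal := hP.2
  obtain ⟨L, hL, -, -⟩ := Ideal.exists_ltSeries_of_hasGoingUp (S := S) l P
  rw [← hL]
  exact le_iSup (fun p : LTSeries (PrimeSpectrum S) => (p.length : WithBot ℕ∞)) L

/-- incomparability: an integral extension does not raise the Krull dimension -/
theorem ringKrullDim_le_of_integral {R S : Type*} [CommRing R] [CommRing S] [Algebra R S]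
    [Algebra.IsIntegral R S] : ringKrullDim S ≤ ringKrullDim R := by
  refine Order.krullDim_le_of_strictMono (PrimeSpectrum.comap (algebraMap R S)) ?_
  intro p q hpq
  have hpq' : p.asIdeal < q.asIdeal := hpq
  obtain ⟨x, hxq, hxp⟩ := Set.exists_of_ssubset hpq'
  exact Ideal.comap_lt_comap_of_integral_mem_sdiff hpq'.le ⟨hxq, hxp⟩
    (Algebra.IsIntegral.isIntegral x)

theorem trdeg_mvPoly_fin (s : ℕ) : Algebra.trdeg ℂ (MvPolynomial (Fin s) ℂ) = s := by
  simp

/-- more elements than variables are algebraically dependent -/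
theorem exists_dep {σ ι : Type} [Fintype σ] [Fintype ι] (h : Fintype.card σ < Fintype.card ι)
    (x : ι → MvPolynomial σ ℂ) : ∃ P : MvPolynomial ι ℂ, P ≠ 0 ∧ aeval x P = 0 := by
  by_contra hcon
  push Not at hcon
  have hx : AlgebraicIndependent ℂ x := by
    rw [algebraicIndependent_iff]
    intro P hP
    by_contra hP0
    exact hcon P hP0 hP
  have h1 := hx.cardinalMk_le_trdeg
  rw [MvPolynomial.trdeg_of_isDomain] at h1
  simp only [mk_fintype, lift_natCast, Nat.cast_le] at h1
  omega

/-- `r` algebraically independent elements force Krull dimension at least `r` -/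
theorem le_ringKrullDim {B : Type} [CommRing B] [Algebra ℂ B] [Algebra.FiniteType ℂ B] {r : ℕ}
    (x : Fin r → B) (hx : AlgebraicIndependent ℂ x) : (r : WithBot ℕ∞) ≤ ringKrullDim B := by
  classical
  set S : Submonoid B := (nonZeroDivisors (MvPolynomial (Fin r) ℂ)).map
    (aeval x : MvPolynomial (Fin r) ℂ →ₐ[ℂ] B) with hS
  have hS0 : ∀ P : MvPolynomial (Fin r) ℂ, P ≠ 0 → aeval x P ∈ S := fun P hP =>
    Submonoid.mem_map.mpr ⟨P, mem_nonZeroDivisors_of_ne_zero hP, rfl⟩
  have hdis : Disjoint ((⊥ : Ideal B) : Set B) S := by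
    rw [Set.disjoint_left]
    intro y hy hyS
    obtain ⟨P, hP, rfl⟩ := Submonoid.mem_map.mp hyS
    have h0 : aeval x P = 0 := by simpa using hy
    exact nonZeroDivisors.ne_zero hP ((algebraicIndependent_iff.mp hx) P h0)
  obtain ⟨p, hp, -, hpS⟩ := Ideal.exists_le_prime_disjoint _ _ hdis
  set x' : Fin r → B ⧸ p := fun i => Ideal.Quotient.mk p (x i) with hx'
  have hx'ind : AlgebraicIndependent ℂ x' := by
    rw [algebraicIndependent_iff]
    intro P hP
    by_contra hP0
    have h1 : aeval x' P = Ideal.Quotient.mkₐ ℂ p (aeval x P) := by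
      rw [← AlgHom.comp_apply, comp_aeval]
      rfl
    rw [h1] at hP
    have h2 : aeval x P ∈ p := Ideal.Quotient.eq_zero_iff_mem.mp hP
    exact Set.disjoint_left.mp hpS h2 (hS0 P hP0)
  obtain ⟨s, g, hg, hgi⟩ := exists_integral_inj_algHom_of_fg ℂ (B ⧸ p)
  algebraize [g.toRingHom]
  have hsc : IsScalarTower ℂ (MvPolynomial (Fin s) ℂ) (B ⧸ p) := IsScalarTower.of_algHom g
  have hint : Algebra.IsIntegral (MvPolynomial (Fin s) ℂ) (B ⧸ p) := ⟨hgi⟩
  have hf1 : FaithfulSMul (MvPolynomial (Fin s) ℂ) (B ⧸ p) :=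
    (faithfulSMul_iff_algebraMap_injective _ _).mpr hg
  have htr := _root_.trdeg_add_eq ℂ (MvPolynomial (Fin s) ℂ) (A := B ⧸ p)
  have hz : Algebra.trdeg (MvPolynomial (Fin s) ℂ) (B ⧸ p) = 0 := trdeg_eq_zero
  rw [hz, add_zero, trdeg_mvPoly_fin] at htr
  have h3 := hx'ind.cardinalMk_le_trdeg
  rw [← htr] at h3
  simp only [mk_fintype, Fintype.card_fin, Nat.cast_le] at h3
  have h4 : ringKrullDim (MvPolynomial (Fin s) ℂ) = s := by
    rw [MvPolynomial.ringKrullDim_of_isNoetherianRing]
    simp
  calc (r : WithBot ℕ∞) ≤ (s : WithBot ℕ∞) := by exact_mod_cast h3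
    _ = ringKrullDim (MvPolynomial (Fin s) ℂ) := h4.symm
    _ ≤ ringKrullDim (B ⧸ p) := ringKrullDim_le_of_integral_injective hg
    _ ≤ ringKrullDim B := ringKrullDim_quotient_le p

/-- if any `r+1` elements are algebraically dependent, the Krull dimension is at most `r` -/
theorem ringKrullDim_le_of_dep {B : Type} [CommRing B] [Algebra ℂ B] [Algebra.FiniteType ℂ B]
    {r : ℕ} (h : ∀ x : Fin (r + 1) → B, ∃ P : MvPolynomial (Fin (r + 1)) ℂ, P ≠ 0 ∧ aeval x P = 0) :
    ringKrullDim B ≤ r := by
  rcases subsingleton_or_nontrivial B with hB | hB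
  · rw [ringKrullDim_eq_bot_of_subsingleton]; exact bot_le
  obtain ⟨s, g, hg, hgi⟩ := exists_integral_inj_algHom_of_fg ℂ B
  algebraize [g.toRingHom]
  have hint : Algebra.IsIntegral (MvPolynomial (Fin s) ℂ) B := ⟨hgi⟩
  have hs : s ≤ r := by
    by_contra hlt
    push Not at hlt
    obtain ⟨P, hP0, hP⟩ := h (fun i => g (X (Fin.castLE hlt i)))
    apply hP0
    have h1 : aeval (fun i => g (X (Fin.castLE hlt i))) P
        = g (rename (Fin.castLE hlt) P) := by
      rw [MvPolynomial.rename_eq_aeval]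
      rw [← AlgHom.comp_apply, comp_aeval]
      rfl
    rw [h1] at hP
    have h2 := hg (hP.trans (map_zero g).symm)
    exact (rename_injective _ (Fin.castLE_injective hlt)) (by simpa using h2)
  have h4 : ringKrullDim (MvPolynomial (Fin s) ℂ) = s := by
    rw [MvPolynomial.ringKrullDim_of_isNoetherianRing]
    simp
  calc ringKrullDim B ≤ ringKrullDim (MvPolynomial (Fin s) ℂ) := ringKrullDim_le_of_integral
    _ = s := h4
    _ ≤ r := by exact_mod_cast hs


theorem aeval_eq_eval' {σ : Type} (u : σ → ℂ) (p : MvPolynomial σ ℂ) : aeval u p = eval u p :=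
  DFunLike.congr_fun (coe_aeval_eq_eval u) p

/-- a polynomial vanishing near a point is zero -/
theorem eq_zero_of_eventually {σ : Type} [Finite σ] (P : MvPolynomial σ ℂ) (z₀ : σ → ℂ)
    (h : ∀ᶠ z in nhds z₀, eval z P = 0) : P = 0 := by
  classical
  have := Fintype.ofFinite σ
  obtain ⟨ε, hε, hb⟩ := Metric.eventually_nhds_iff_ball.mp h
  refine MvPolynomial.funext_set (fun i => Metric.ball (z₀ i) ε) (fun i => ?_) (fun x hx => ?_)
  · exact infinite_of_mem_nhds (z₀ i) (Metric.ball_mem_nhds _ hε)
  · rw [map_zero]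
    refine hb x ?_
    rw [ball_pi _ hε]
    exact hx

/-- the coordinate ring of (the Zariski closure of) a set in affine space -/
abbrev CoordRing {β : Type} (S : Set (β → ℂ)) : Type :=
  MvPolynomial β ℂ ⧸ (vanishingIdeal ℂ S : Ideal (MvPolynomial β ℂ))

theorem ringKrullDim_away_le {B : Type} [CommRing B] (b : B) :
    ringKrullDim (Localization.Away b) ≤ ringKrullDim B := by
  refine Order.krullDim_le_of_strictMono
    (PrimeSpectrum.comap (algebraMap B (Localization.Away b))) ?_
  refine Monotone.strictMono_of_injective ?_ ?_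
  · intro p q hpq
    exact Ideal.comap_mono hpq
  · exact PrimeSpectrum.localization_comap_injective _ (Submonoid.powers b)

/-- evaluation at a point of the set, on the coordinate ring -/
noncomputable def evAt {β : Type} {S : Set (β → ℂ)} {u : β → ℂ} (hu : u ∈ S) :
    CoordRing S →ₐ[ℂ] ℂ :=
  Ideal.Quotient.liftₐ _ (aeval u : MvPolynomial β ℂ →ₐ[ℂ] ℂ) (by
      intro a ha
      have := (mem_vanishingIdeal_iff.mp ha) u hu
      simpa using this)

theorem evAt_mk {β : Type} {S : Set (β → ℂ)} {u : β → ℂ} (hu : u ∈ S) (p : MvPolynomial β ℂ) :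
    evAt hu (Ideal.Quotient.mk _ p) = eval u p := by
  rw [← aeval_eq_eval']
  rfl

/-- lower bound for the dimension of a set whose image under `(h₁/h₀, …, h_r/h₀)` contains
a Euclidean neighbourhood -/
theorem le_dim_of_image {β : Type} [Finite β] {r : ℕ} (S : Set (β → ℂ))
    (h : Fin (r + 1) → MvPolynomial β ℂ) (z₀ : Fin r → ℂ)
    (hz : ∀ᶠ z in nhds z₀, ∃ u ∈ S, eval u (h 0) ≠ 0 ∧ ∀ i : Fin r,
      eval u (h i.succ) = z i * eval u (h 0)) :
    (r : WithBot ℕ∞) ≤ ringKrullDim (CoordRing S) := by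
  classical
  set b0 : CoordRing S := Ideal.Quotient.mk _ (h 0) with hb0
  let B' := Localization.Away b0
  let x : Fin r → B' := fun i =>
    algebraMap (CoordRing S) B' (Ideal.Quotient.mk _ (h i.succ)) *
      IsLocalization.Away.invSelf b0
  have hx : AlgebraicIndependent ℂ x := by
    rw [algebraicIndependent_iff]
    intro P hP
    refine eq_zero_of_eventually P z₀ ?_
    filter_upwards [hz] with z ⟨u, huS, hu0, hu⟩
    have hunit : IsUnit ((evAt huS : CoordRing S →+* ℂ) b0) := by
      rw [isUnit_iff_ne_zero]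
      have : (evAt huS : CoordRing S →+* ℂ) b0 = eval u (h 0) := evAt_mk huS _
      rw [this]; exact hu0
    let ev' : B' →+* ℂ := IsLocalization.Away.lift b0 hunit
    have hev' : ∀ b, ev' (algebraMap (CoordRing S) B' b) = evAt huS b := fun b =>
      IsLocalization.Away.lift_eq b0 hunit b
    have hxi : ∀ i, ev' (x i) = z i := by
      intro i
      have h1 : ev' (x i) * evAt huS b0 = evAt huS (Ideal.Quotient.mk _ (h i.succ)) := by
        rw [← hev', ← hev', ← map_mul]
        congr 1
        simp only [x]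
        rw [mul_assoc, mul_comm (IsLocalization.Away.invSelf b0),
          IsLocalization.Away.mul_invSelf, mul_one]
      have e1 : evAt huS b0 = eval u (h 0) := evAt_mk huS _
      rw [e1, evAt_mk, hu i] at h1
      exact mul_right_cancel₀ hu0 h1
    have hev'c : ev'.comp (algebraMap ℂ B') = RingHom.id ℂ := by
      ext c
      have h5 : algebraMap ℂ B' c = algebraMap (CoordRing S) B' (algebraMap ℂ _ c) := rfl
      rw [RingHom.comp_apply, h5, hev', AlgHom.commutes]
      rfl
    have h4 : ev' (aeval x P) = eval z P := by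
      rw [aeval_def, hom_eval₂, hev'c]
      have : (fun i => ev' (x i)) = z := funext hxi
      rw [this]
      rfl
    rw [hP, map_zero] at h4
    exact h4.symm
  exact (le_ringKrullDim x hx).trans (ringKrullDim_away_le b0)

/-- algebraic core of the upper bound -/
theorem exists_rel {m : ℕ} {β : Type} [Finite β]
    (Q : β → MvPolynomial (Option (Fin m)) ℂ) (hQ : ∀ b, Q b ≠ 0)
    (g : Fin (m + 1) → MvPolynomial β ℂ) :
    ∃ s : MvPolynomial (Fin m) ℂ, s ≠ 0 ∧ ∃ P : MvPolynomial (Fin (m + 1)) ℂ, P ≠ 0 ∧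
      rename Sum.inl s * rename Sum.inr (aeval g P) ∈
        Ideal.span (Set.range fun b : β =>
          (rename (fun o : Option (Fin m) => o.elim (Sum.inr b) Sum.inl) (Q b) :
            MvPolynomial (Fin m ⊕ β) ℂ)) := by
  classical
  set I := Ideal.span (Set.range fun b : β =>
          (rename (fun o : Option (Fin m) => o.elim (Sum.inr b) Sum.inl) (Q b) :
            MvPolynomial (Fin m ⊕ β) ℂ)) with hI
  set S1 : Submonoid (MvPolynomial (Fin m ⊕ β) ℂ) :=
    (nonZeroDivisors (MvPolynomial (Fin m) ℂ)).map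
      (rename Sum.inl : MvPolynomial (Fin m) ℂ →ₐ[ℂ] MvPolynomial (Fin m ⊕ β) ℂ) with hS1
  set S2 : Submonoid (MvPolynomial (Fin m ⊕ β) ℂ) :=
    (nonZeroDivisors (MvPolynomial (Fin (m + 1)) ℂ)).map
      ((rename Sum.inr : MvPolynomial β ℂ →ₐ[ℂ] MvPolynomial (Fin m ⊕ β) ℂ).comp (aeval g)) with hS2
  by_cases hdis : Disjoint (I : Set (MvPolynomial (Fin m ⊕ β) ℂ)) ((S1 ⊔ S2 : Submonoid _) : Set _)
  swap
  · rw [Set.not_disjoint_iff] at hdis
    obtain ⟨x, hxI, hxS⟩ := hdis
    obtain ⟨y, hy, z, hz, rfl⟩ := Submonoid.mem_sup.mp hxS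
    obtain ⟨s, hs, rfl⟩ := Submonoid.mem_map.mp hy
    obtain ⟨P, hP, rfl⟩ := Submonoid.mem_map.mp hz
    exact ⟨s, nonZeroDivisors.ne_zero hs, P, nonZeroDivisors.ne_zero hP, hxI⟩
  exfalso
  obtain ⟨p, hp, hIp, hpS⟩ := Ideal.exists_le_prime_disjoint _ _ hdis
  let D := MvPolynomial (Fin m ⊕ β) ℂ ⧸ p
  let φ : MvPolynomial (Fin m) ℂ →ₐ[ℂ] D := (Ideal.Quotient.mkₐ ℂ p).comp (rename Sum.inl)
  have hφ : Function.Injective φ := by
    rw [injective_iff_map_eq_zero]
    intro a ha
    by_contra ha0
    have h1 : rename Sum.inl a ∈ p := Ideal.Quotient.eq_zero_iff_mem.mp ha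
    refine Set.disjoint_left.mp hpS h1 ?_
    have : rename Sum.inl a ∈ S1 :=
      Submonoid.mem_map.mpr ⟨a, mem_nonZeroDivisors_of_ne_zero ha0, rfl⟩
    exact (le_sup_left : S1 ≤ S1 ⊔ S2) this
  let y : Fin (m + 1) → D := fun i => Ideal.Quotient.mk p (rename Sum.inr (g i))
  have hy : AlgebraicIndependent ℂ y := by
    rw [algebraicIndependent_iff]
    intro P hP
    by_contra hP0
    have h1 : aeval y P = Ideal.Quotient.mkₐ ℂ p (rename Sum.inr (aeval g P)) := by
      rw [← AlgHom.comp_apply, ← AlgHom.comp_apply]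
      congr 1
      apply MvPolynomial.algHom_ext
      intro i
      simp [y]
    rw [h1] at hP
    have h2 : rename Sum.inr (aeval g P) ∈ p := Ideal.Quotient.eq_zero_iff_mem.mp hP
    refine Set.disjoint_left.mp hpS h2 ?_
    have : rename Sum.inr (aeval g P) ∈ S2 :=
      Submonoid.mem_map.mpr ⟨P, mem_nonZeroDivisors_of_ne_zero hP0, rfl⟩
    exact (le_sup_right : S2 ≤ S1 ⊔ S2) this
  let algD : Algebra (MvPolynomial (Fin m) ℂ) D := φ.toRingHom.toAlgebra
  have hsc : IsScalarTower ℂ (MvPolynomial (Fin m) ℂ) D := IsScalarTower.of_algHom φ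
  have hf1 : FaithfulSMul (MvPolynomial (Fin m) ℂ) D :=
    (faithfulSMul_iff_algebraMap_injective _ _).mpr hφ
  have hmap : ∀ a, algebraMap (MvPolynomial (Fin m) ℂ) D a =
    Ideal.Quotient.mk p (rename Sum.inl a) := fun a => rfl
  have halgX : ∀ b : β, IsAlgebraic (MvPolynomial (Fin m) ℂ)
      (Ideal.Quotient.mk p (X (Sum.inr b)) : D) := by
    intro b
    refine ⟨optionEquivLeft ℂ (Fin m) (Q b), ?_, ?_⟩
    · rw [Ne, map_eq_zero_iff _ (AlgEquiv.injective _)]
      exact hQ b
    · have h1 : ∀ q : MvPolynomial (Option (Fin m)) ℂ,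
          Polynomial.aeval (Ideal.Quotient.mk p (X (Sum.inr b)) : D)
            (optionEquivLeft ℂ (Fin m) q) = Ideal.Quotient.mkₐ ℂ p
              (rename (fun o : Option (Fin m) => o.elim (Sum.inr b) Sum.inl) q) := by
        intro q
        induction q using MvPolynomial.induction_on with
        | C a =>
          rw [optionEquivLeft_C, Polynomial.aeval_C, hmap, rename_C, rename_C]
          rfl
        | add p q hp hq => simp only [map_add, hp, hq]
        | mul_X p i hp =>
          rw [map_mul, map_mul, map_mul, map_mul, hp]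
          congr 1
          cases i with
          | none => simp
          | some i =>
            rw [optionEquivLeft_X_some, Polynomial.aeval_C, hmap, rename_X, rename_X]
            rfl
      rw [h1]
      apply Ideal.Quotient.eq_zero_iff_mem.mpr
      exact hIp (Ideal.subset_span ⟨b, rfl⟩)
  have halg : Algebra.IsAlgebraic (MvPolynomial (Fin m) ℂ) D := by
    refine ⟨fun x => ?_⟩
    obtain ⟨q, rfl⟩ := Ideal.Quotient.mk_surjective x
    induction q using MvPolynomial.induction_on with
    | C a =>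
      have : (Ideal.Quotient.mk p (C a) : D) = algebraMap (MvPolynomial (Fin m) ℂ) D (C a) := by
        show _ = Ideal.Quotient.mk p (rename Sum.inl (C a))
        rw [rename_C]
      rw [this]
      exact isAlgebraic_algebraMap _
    | add p q hp hq =>
      rw [map_add]; exact hp.add hq
    | mul_X p i hp =>
      rw [map_mul]
      refine hp.mul ?_
      cases i with
      | inl i =>
        have : (Ideal.Quotient.mk _ (X (Sum.inl i)) : D) =
            algebraMap (MvPolynomial (Fin m) ℂ) D (X i) := by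
          show _ = Ideal.Quotient.mk _ (rename Sum.inl (X i))
          rw [rename_X]
        rw [this]
        exact isAlgebraic_algebraMap _
      | inr b => exact halgX b
  have htr := _root_.trdeg_add_eq ℂ (MvPolynomial (Fin m) ℂ) (A := D)
  have hz : Algebra.trdeg (MvPolynomial (Fin m) ℂ) D = 0 := trdeg_eq_zero
  rw [hz, add_zero, trdeg_mvPoly_fin] at htr
  have h3 := hy.cardinalMk_le_trdeg
  rw [← htr] at h3
  simp only [mk_fintype, Fintype.card_fin, Nat.cast_le] at h3
  omega

end H41.EigAlg
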