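import Pool.Agent.H41.EigDefs

/-!
Basic properties of contractions and of the minors cutting out eigenschemes.
-/

open MvPolynomial

namespace MP72974f

variable {n d : ℕ}

/-- contraction, value at a vector -/
noncomputable def ctr (T : Tensor n d) (k : Fin d) (v : Fin (n + 1) → ℂ) (j : Fin (n + 1)) : ℂ :=
  eval v (contraction T k j)

theorem ctr_eq (T : Tensor n d) (k : Fin d) (v : Fin (n + 1) → ℂ) (j : Fin (n + 1)) :
    ctr T k v j = ∑ i : Fin d → Fin (n + 1),
      if i k = j then T i * ∏ m ∈ Finset.univ.erase k, v (i m) else 0 := by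
  rw [ctr, contraction, map_sum]
  refine Finset.sum_congr rfl fun i _ => ?_
  split_ifs
  · rw [map_mul, eval_C, map_prod]
    simp
  · exact map_zero _

theorem eval_eigMinor (T : Tensor n d) (k : Fin d) (v : Fin (n + 1) → ℂ) (a b : Fin (n + 1)) :
    eval v (eigMinor T k a b) = v a * ctr T k v b - v b * ctr T k v a := by
  rw [eigMinor, map_sub, map_mul, map_mul, eval_X, eval_X]
  rfl

/-- contraction is linear in the tensor -/
theorem contraction_add (T T' : Tensor n d) (k : Fin d) (j : Fin (n + 1)) :
    contraction (T + T') k j = contraction T k j + contraction T' k j := by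
  rw [contraction, contraction, contraction, ← Finset.sum_add_distrib]
  refine Finset.sum_congr rfl fun i _ => ?_
  split_ifs
  · rw [Pi.add_apply, C_add, add_mul]
  · rw [add_zero]

theorem contraction_smul (c : ℂ) (T : Tensor n d) (k : Fin d) (j : Fin (n + 1)) :
    contraction (c • T) k j = C c * contraction T k j := by
  rw [contraction, contraction, Finset.mul_sum]
  refine Finset.sum_congr rfl fun i _ => ?_
  split_ifs
  · rw [Pi.smul_apply, smul_eq_mul, C_mul, mul_assoc]
  · rw [mul_zero]

theorem eigMinor_add (T T' : Tensor n d) (k : Fin d) (a b : Fin (n + 1)) :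
    eigMinor (T + T') k a b = eigMinor T k a b + eigMinor T' k a b := by
  rw [eigMinor, eigMinor, eigMinor, contraction_add, contraction_add]
  ring

theorem eigMinor_smul (c : ℂ) (T : Tensor n d) (k : Fin d) (a b : Fin (n + 1)) :
    eigMinor (c • T) k a b = C c * eigMinor T k a b := by
  rw [eigMinor, eigMinor, contraction_smul, contraction_smul]
  ring

/-- the linear map sending a tensor to its minors -/
noncomputable def minorMap (n d : ℕ) : Tensor n d →ₗ[ℂ]
    (Fin d → Fin (n + 1) → Fin (n + 1) → MvPolynomial (Fin (n + 1)) ℂ) where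
  toFun T := fun k a b => eigMinor T k a b
  map_add' T T' := by
    funext k a b
    exact eigMinor_add T T' k a b
  map_smul' c T := by
    funext k a b
    rw [RingHom.id_apply, Pi.smul_apply, Pi.smul_apply, Pi.smul_apply, smul_eq_C_mul]
    exact eigMinor_smul c T k a b

/-- the tensors all of whose minors vanish identically -/
noncomputable def minorKer (n d : ℕ) : Submodule ℂ (Tensor n d) := LinearMap.ker (minorMap n d)

theorem mem_minorKer {T : Tensor n d} : T ∈ minorKer n d ↔ ∀ k a b, eigMinor T k a b = 0 := by
  rw [minorKer, LinearMap.mem_ker]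
  constructor
  · intro h k a b
    exact congrFun (congrFun (congrFun h k) a) b
  · intro h
    funext k a b
    exact h k a b

theorem contraction_homogeneous (T : Tensor n d) (k : Fin d) (j : Fin (n + 1)) :
    (contraction T k j).IsHomogeneous (d - 1) := by
  rw [contraction]
  refine IsHomogeneous.sum _ _ _ fun i _ => ?_
  split_ifs
  · have h1 : (∏ m ∈ Finset.univ.erase k, (X (i m) : MvPolynomial (Fin (n + 1)) ℂ)).IsHomogeneous
        (∑ m ∈ Finset.univ.erase k, 1) :=
      IsHomogeneous.prod _ _ _ fun m _ => isHomogeneous_X _ _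
    have h2 : (∑ m ∈ (Finset.univ.erase k : Finset (Fin d)), 1) = d - 1 := by
      rw [Finset.sum_const, smul_eq_mul, mul_one, Finset.card_erase_of_mem (Finset.mem_univ k),
        Finset.card_univ, Fintype.card_fin]
    rw [h2] at h1
    have h3 := (isHomogeneous_C (Fin (n + 1)) (T i)).mul h1
    rwa [zero_add] at h3
  · exact isHomogeneous_zero _ _ _

theorem eigMinor_homogeneous (hd : 1 ≤ d) (T : Tensor n d) (k : Fin d) (a b : Fin (n + 1)) :
    (eigMinor T k a b).IsHomogeneous d := by
  rw [eigMinor]
  have h1 := (isHomogeneous_X ℂ a).mul (contraction_homogeneous T k b)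
  have h2 := (isHomogeneous_X ℂ b).mul (contraction_homogeneous T k a)
  rw [show 1 + (d - 1) = d by omega] at h1 h2
  exact h1.sub h2

/-- Plücker relation between minors -/
theorem minor_rel (T : Tensor n d) (k : Fin d) (i a b : Fin (n + 1)) :
    X i * eigMinor T k a b = X a * eigMinor T k i b - X b * eigMinor T k i a := by
  rw [eigMinor, eigMinor, eigMinor]
  ring

/-- directional derivative of the minors -/
noncomputable def dMin (T : Tensor n d) (k : Fin d) (v w : Fin (n + 1) → ℂ) (a b : Fin (n + 1)) :
    ℂ := ∑ j, eval v (pderiv j (eigMinor T k a b)) * w j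

theorem dMin_add (T : Tensor n d) (k : Fin d) (v w w' : Fin (n + 1) → ℂ) (a b : Fin (n + 1)) :
    dMin T k v (w + w') a b = dMin T k v w a b + dMin T k v w' a b := by
  rw [dMin, dMin, dMin, ← Finset.sum_add_distrib]
  refine Finset.sum_congr rfl fun j _ => ?_
  rw [Pi.add_apply]; ring

theorem dMin_smul (T : Tensor n d) (k : Fin d) (v w : Fin (n + 1) → ℂ) (c : ℂ)
    (a b : Fin (n + 1)) : dMin T k v (c • w) a b = c * dMin T k v w a b := by
  rw [dMin, dMin, Finset.mul_sum]
  refine Finset.sum_congr rfl fun j _ => ?_
  rw [Pi.smul_apply, smul_eq_mul]; ring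

/-- Euler -/
theorem dMin_self (hd : 1 ≤ d) (T : Tensor n d) (k : Fin d) (v : Fin (n + 1) → ℂ)
    (a b : Fin (n + 1)) : dMin T k v v a b = d * eval v (eigMinor T k a b) := by
  have h := (eigMinor_homogeneous hd T k a b).sum_X_mul_pderiv
  have h2 := congrArg (eval v) h
  rw [map_sum, nsmul_eq_mul, map_mul] at h2
  simp only [map_mul, eval_X, map_natCast] at h2
  rw [dMin, ← h2]
  refine Finset.sum_congr rfl fun j _ => ?_
  ring

/-- at an eigenpoint with `v i ≠ 0` the derivatives of all minors are determined by those with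
index `i` -/
theorem dMin_rel (T : Tensor n d) (k : Fin d) (v w : Fin (n + 1) → ℂ) (i a b : Fin (n + 1))
    (hv : ∀ a b, eval v (eigMinor T k a b) = 0) :
    v i * dMin T k v w a b = v a * dMin T k v w i b - v b * dMin T k v w i a := by
  have h : ∀ j, v i * eval v (pderiv j (eigMinor T k a b)) =
      v a * eval v (pderiv j (eigMinor T k i b)) - v b * eval v (pderiv j (eigMinor T k i a)) := by
    intro j
    have h1 := congrArg (fun p => eval v (pderiv j p)) (minor_rel T k i a b)
    simp only [map_sub, Derivation.leibniz, smul_eq_mul, map_add, map_mul, eval_X, hv,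
      zero_mul, add_zero] at h1
    linear_combination h1
  rw [dMin, dMin, dMin, Finset.mul_sum, Finset.mul_sum, Finset.mul_sum, ← Finset.sum_sub_distrib]
  refine Finset.sum_congr rfl fun j _ => ?_
  linear_combination w j * h j

/-- Jacobian matrix in the chart `v_i = 1` -/
noncomputable def jac (T : Tensor n d) (k : Fin d) (i : Fin (n + 1)) (v : Fin (n + 1) → ℂ) :
    Matrix (Fin n) (Fin n) ℂ :=
  Matrix.of fun j j' => eval v (pderiv (i.succAbove j') (eigMinor T k i (i.succAbove j)))

theorem jac_mulVec (T : Tensor n d) (k : Fin d) (i : Fin (n + 1)) (v : Fin (n + 1) → ℂ)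
    (η : Fin n → ℂ) (j : Fin n) :
    (jac T k i v).mulVec η j = dMin T k v (i.insertNth 0 η) i (i.succAbove j) := by
  rw [dMin, Fin.sum_univ_succAbove _ i, Fin.insertNth_apply_same, mul_zero, zero_add]
  simp only [Fin.insertNth_apply_succAbove]
  rfl

/-- reducedness in terms of the Jacobian determinant -/
theorem reduced_iff_det (hd : 1 ≤ d) (T : Tensor n d) (k : Fin d) (i : Fin (n + 1))
    (v : Fin (n + 1) → ℂ) (hvi : v i = 1) (hv : ∀ a b, eval v (eigMinor T k a b) = 0) :
    (∀ w : Fin (n + 1) → ℂ, (∀ a b, ∑ j, eval v (pderiv j (eigMinor T k a b)) * w j = 0) →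
      ∃ t : ℂ, w = t • v) ↔ (jac T k i v).det ≠ 0 := by
  constructor
  · intro hred hdet
    obtain ⟨η, hη0, hη⟩ := Matrix.exists_mulVec_eq_zero_iff.mpr hdet
    obtain ⟨t, ht⟩ := hred (i.insertNth 0 η) (by
      intro a b
      have h1 := dMin_rel T k v (i.insertNth 0 η) i a b hv
      have h2 : ∀ b, dMin T k v (i.insertNth 0 η) i b = 0 := by
        intro b
        rcases Fin.eq_self_or_eq_succAbove i b with h | ⟨j, h⟩
        · have : ∀ p : MvPolynomial (Fin (n + 1)) ℂ, X i * p - X i * p = 0 := fun p => sub_self _
          rw [h, dMin]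
          refine Finset.sum_eq_zero fun j _ => ?_
          rw [eigMinor, this, map_zero, map_zero, zero_mul]
        · rw [h, ← jac_mulVec, hη, Pi.zero_apply]
      rw [h2, h2, hvi, one_mul, mul_zero, mul_zero, sub_zero] at h1
      exact h1)
    have h3 := congrFun ht i
    rw [Fin.insertNth_apply_same, Pi.smul_apply, smul_eq_mul, hvi, mul_one] at h3
    apply hη0
    funext j
    have h4 := congrFun ht (i.succAbove j)
    rw [Fin.insertNth_apply_succAbove, ← h3, zero_smul] at h4
    exact h4
  · intro hdet w hw
    refine ⟨w i, ?_⟩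
    set w' := w + (-(w i)) • v with hw'
    have h1 : ∀ a b, dMin T k v w' a b = 0 := by
      intro a b
      rw [hw', dMin_add, dMin_smul, dMin_self hd, hv, mul_zero, mul_zero, add_zero]
      exact hw a b
    have h2 : w' i = 0 := by
      rw [hw', Pi.add_apply, Pi.smul_apply, hvi, smul_eq_mul, mul_one, add_neg_cancel]
    have h3 : w' = i.insertNth 0 (fun j => w' (i.succAbove j)) := by
      funext b
      rcases Fin.eq_self_or_eq_succAbove i b with h | ⟨j, h⟩
      · rw [h, Fin.insertNth_apply_same, h2]
      · rw [h, Fin.insertNth_apply_succAbove]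
    have h4 : (jac T k i v).mulVec (fun j => w' (i.succAbove j)) = 0 := by
      funext j
      rw [jac_mulVec, ← h3]
      exact h1 _ _
    have h5 : (fun j => w' (i.succAbove j)) = (0 : Fin n → ℂ) :=
      Matrix.eq_zero_of_mulVec_eq_zero hdet h4
    have h6 : w' = 0 := by
      rw [h3, h5]
      funext b
      rcases Fin.eq_self_or_eq_succAbove i b with h | ⟨j, h⟩
      · rw [h, Fin.insertNth_apply_same]; rfl
      · rw [h, Fin.insertNth_apply_succAbove]; rfl
    rw [hw'] at h6
    funext b
    have h7 := congrFun h6 b
    rw [Pi.add_apply, Pi.smul_apply, smul_eq_mul, Pi.zero_apply] at h7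
    rw [Pi.smul_apply, smul_eq_mul]
    linear_combination h7

/-- continuity of the entries of the Jacobian -/
theorem continuous_pderiv_minor (k : Fin d) (l a b : Fin (n + 1)) :
    Continuous fun p : Tensor n d × (Fin (n + 1) → ℂ) =>
      eval p.2 (pderiv l (eigMinor p.1 k a b)) := by
  have hc : ∀ j, Continuous fun p : Tensor n d × (Fin (n + 1) → ℂ) =>
      eval p.2 (contraction p.1 k j) := by
    intro j
    have h : ∀ p : Tensor n d × (Fin (n + 1) → ℂ), eval p.2 (contraction p.1 k j) =
        ∑ i : Fin d → Fin (n + 1), p.1 i * (if i k = j then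
          eval p.2 (∏ m ∈ Finset.univ.erase k, X (i m)) else 0) := by
      intro p
      rw [contraction, map_sum]
      refine Finset.sum_congr rfl fun i _ => ?_
      split_ifs
      · rw [map_mul, eval_C]
      · rw [map_zero, mul_zero]
    simp_rw [h]
    refine continuous_finsetSum _ fun i _ => ?_
    refine Continuous.mul (by fun_prop) ?_
    split_ifs
    · exact (MvPolynomial.continuous_eval _).comp continuous_snd
    · exact continuous_const
  have hp : ∀ j, Continuous fun p : Tensor n d × (Fin (n + 1) → ℂ) =>
      eval p.2 (pderiv l (contraction p.1 k j)) := by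
    intro j
    have h : ∀ p : Tensor n d × (Fin (n + 1) → ℂ), eval p.2 (pderiv l (contraction p.1 k j)) =
        ∑ i : Fin d → Fin (n + 1), p.1 i * (if i k = j then
          eval p.2 (pderiv l (∏ m ∈ Finset.univ.erase k, X (i m))) else 0) := by
      intro p
      rw [contraction, map_sum, map_sum]
      refine Finset.sum_congr rfl fun i _ => ?_
      split_ifs
      · rw [pderiv_C_mul, map_mul, eval_C]
      · rw [map_zero, map_zero, mul_zero]
    simp_rw [h]
    refine continuous_finsetSum _ fun i _ => ?_
    refine Continuous.mul (by fun_prop) ?_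
    split_ifs
    · exact (MvPolynomial.continuous_eval _).comp continuous_snd
    · exact continuous_const
  have h : ∀ p : Tensor n d × (Fin (n + 1) → ℂ), eval p.2 (pderiv l (eigMinor p.1 k a b)) =
      (p.2 a * eval p.2 (pderiv l (contraction p.1 k b)) +
        eval p.2 (contraction p.1 k b) * eval p.2 (pderiv l (X a))) -
      (p.2 b * eval p.2 (pderiv l (contraction p.1 k a)) +
        eval p.2 (contraction p.1 k a) * eval p.2 (pderiv l (X b))) := by
    intro p
    rw [eigMinor, map_sub, Derivation.leibniz, Derivation.leibniz]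
    simp only [smul_eq_mul, map_sub, map_add, map_mul, eval_X]
  simp_rw [h]
  have hX : ∀ a, Continuous fun p : Tensor n d × (Fin (n + 1) → ℂ) =>
      eval p.2 (pderiv l (X a : MvPolynomial (Fin (n + 1)) ℂ)) := fun a =>
    (MvPolynomial.continuous_eval _).comp continuous_snd
  have hv : ∀ a, Continuous fun p : Tensor n d × (Fin (n + 1) → ℂ) => p.2 a := fun a => by
    fun_prop
  exact (((hv a).mul (hp b)).add ((hc b).mul (hX a))).sub
    (((hv b).mul (hp a)).add ((hc a).mul (hX b)))

theorem continuous_minor (k : Fin d) (a b : Fin (n + 1)) :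
    Continuous fun p : Tensor n d × (Fin (n + 1) → ℂ) => eval p.2 (eigMinor p.1 k a b) := by
  have hc : ∀ j, Continuous fun p : Tensor n d × (Fin (n + 1) → ℂ) => ctr p.1 k p.2 j := by
    intro j
    simp_rw [ctr_eq]
    refine continuous_finsetSum _ fun i _ => ?_
    split_ifs
    · refine Continuous.mul (by fun_prop) ?_
      refine continuous_finsetProd _ fun m _ => by fun_prop
    · exact continuous_const
  simp_rw [eval_eigMinor]
  have hv : ∀ a, Continuous fun p : Tensor n d × (Fin (n + 1) → ℂ) => p.2 a := fun a => by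
    fun_prop
  exact ((hv a).mul (hc b)).sub ((hv b).mul (hc a))

end MP72974f
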