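import Mathlib

/-!
# The eigencompatibility variety: definitions

Everything is over `ℂ`, `V = ℂ^{n+1}` with the standard quadratic form, a tensor `T ∈ V^{⊗d}` is
given by its coordinates.
-/

open MvPolynomial
open scoped LinearAlgebra.Projectivization

namespace MP72974f

/-- a tensor `T ∈ V^{⊗ d}`, `V = ℂ^{n+1}`, given by its coordinates `T_{i_1 … i_d}` -/
abbrev Tensor (n d : ℕ) : Type := (Fin d → Fin (n + 1)) → ℂ

/-- The `j`-th coordinate of the vector obtained by contracting `T` with `v` in every tensor
factor except the `k`-th, as a polynomial in the coordinates of `v`: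
`∑ T_{i_1 … i_d} ∏_{m ≠ k} v_{i_m}`, the sum over all `(i_1, …, i_d)` with `i_k = j`. -/
noncomputable def contraction {n d : ℕ} (T : Tensor n d) (k : Fin d) (j : Fin (n + 1)) :
    MvPolynomial (Fin (n + 1)) ℂ :=
  ∑ i : Fin d → Fin (n + 1),
    if i k = j then C (T i) * ∏ m ∈ Finset.univ.erase k, X (i m) else 0

/-- The `2 × 2` minors of the matrix with rows `v` and the contraction of `T`; they cut out the
`k`-th eigenscheme. -/
noncomputable def eigMinor {n d : ℕ} (T : Tensor n d) (k : Fin d) (a b : Fin (n + 1)) :
    MvPolynomial (Fin (n + 1)) ℂ :=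
  X a * contraction T k b - X b * contraction T k a

/-- `D_{n,d} = ((d-1)^{n+1} - 1) / (d-2)` -/
def numPoints (n d : ℕ) : ℕ := ((d - 1) ^ (n + 1) - 1) / (d - 2)

/-- The `k`-th eigenscheme of `T` is reduced of dimension zero and it is the set of the
`D_{n,d}` distinct points of `Z`. Reducedness at a point is the Jacobian criterion: the Zariski
tangent space of the affine cone over the eigenscheme (cut out by the minors) at `v` is the
line `ℂ v`. -/
structure IsReducedEigenscheme {n d : ℕ} (T : Tensor n d) (k : Fin d)
    (Z : Sym (ℙ ℂ (Fin (n + 1) → ℂ)) (numPoints n d)) : Prop where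
  nodup : (Z : Multiset (ℙ ℂ (Fin (n + 1) → ℂ))).Nodup
  mem_iff : ∀ (v : Fin (n + 1) → ℂ) (hv : v ≠ 0),
    Projectivization.mk ℂ v hv ∈ Z ↔ ∀ a b, eval v (eigMinor T k a b) = 0
  reduced : ∀ (v : Fin (n + 1) → ℂ) (hv : v ≠ 0), Projectivization.mk ℂ v hv ∈ Z →
    ∀ w : Fin (n + 1) → ℂ, (∀ a b, ∑ j, eval v (pderiv j (eigMinor T k a b)) * w j = 0) →
      ∃ t : ℂ, w = t • v

/-- affine space `ℂ^β` … -/
def Affine (β : Type) : Type := β → ℂ

/-- … with its Zariski topology, a basis of which is given by the sets `{f ≠ 0}` -/
instance (β : Type) : TopologicalSpace (Affine β) :=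
  TopologicalSpace.generateFrom
    {U | ∃ f : MvPolynomial β ℂ, U = {x : Affine β | eval (x : β → ℂ) f ≠ 0}}

/-- the point of `ℙV` whose `c`-th homogeneous coordinate is `1` and whose other coordinates are
given by `y` -/
noncomputable def affinePoint {n : ℕ} (c : Fin (n + 1)) (y : Fin n → ℂ) :
    ℙ ℂ (Fin (n + 1) → ℂ) :=
  Projectivization.mk ℂ (c.insertNth 1 y : Fin (n + 1) → ℂ) (fun h => by
    have h1 := congrFun h c
    simp at h1)

/-- the product of symmetric powers `((ℙV)^{(· D)})^d`, `D = D_{n,d}` -/
def SymProd (n d : ℕ) : Type := Fin d → Sym (ℙ ℂ (Fin (n + 1) → ℂ)) (numPoints n d)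

/-- The composite `A^{d D n} ⊂ ((ℙV)^D)^d → ((ℙV)^{(· D)})^d` of the standard affine chart with
index `c` and of the quotient map: the point with index `(k, q)` is required to have its
`c (k, q)`-th homogeneous coordinate equal to `1`. -/
noncomputable def chart {n d : ℕ} (c : Fin d × Fin (numPoints n d) → Fin (n + 1))
    (u : Affine ((Fin d × Fin (numPoints n d)) × Fin n)) : SymProd n d :=
  fun k => ⟨(Finset.univ : Finset (Fin (numPoints n d))).val.map
    (fun q => affinePoint (c (k, q)) (fun j => u ((k, q), j))), by simp⟩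

/-- The Zariski topology of `((ℙV)^{(· D)})^d`: a set is open if and only if its preimage under
each of the maps `chart c` is Zariski open in affine space. (The standard charts are an affine
open cover of `((ℙV)^D)^d`, and the quotient by the symmetric groups has the quotient
topology.) -/
noncomputable instance (n d : ℕ) : TopologicalSpace (SymProd n d) :=
  ⨆ c : Fin d × Fin (numPoints n d) → Fin (n + 1),
    TopologicalSpace.coinduced (chart c) inferInstance

/-- The eigencompatibility variety `EC_{n,d}`: the Zariski closure of the set of tuples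
`(X_1, …, X_d)` for which there is a tensor `T` with `X_k = X_T^k` for all `k`. -/
def EC (n d : ℕ) : Set (SymProd n d) :=
  closure {Z | ∃ T : Tensor n d, ∀ k, IsReducedEigenscheme T k (Z k)}

end MP72974f
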