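import Pool.Agent.H41.EigGood

/-!
The coordinates of an eigenpoint are algebraic over the coordinates of the tensor.
-/

open MvPolynomial

namespace MP72974f

open H41.EigAlg

variable {n d : ℕ}

/-- contraction over an arbitrary commutative ring -/
def ctrR {R : Type} [CommRing R] (T : (Fin d → Fin (n + 1)) → R) (k : Fin d)
    (v : Fin (n + 1) → R) (j : Fin (n + 1)) : R :=
  ∑ i : Fin d → Fin (n + 1), if i k = j then T i * ∏ m ∈ Finset.univ.erase k, v (i m) else 0

theorem map_ctrR {R S : Type} [CommRing R] [CommRing S] (f : R →+* S)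
    (T : (Fin d → Fin (n + 1)) → R) (k : Fin d) (v : Fin (n + 1) → R) (j : Fin (n + 1)) :
    f (ctrR T k v j) = ctrR (fun i => f (T i)) k (fun l => f (v l)) j := by
  rw [ctrR, ctrR, map_sum]
  refine Finset.sum_congr rfl fun i _ => ?_
  split_ifs
  · rw [map_mul, map_prod]
  · exact map_zero f

theorem ctrR_eq_ctr (T : Tensor n d) (k : Fin d) (v : Fin (n + 1) → ℂ) (j : Fin (n + 1)) :
    ctrR T k v j = ctr T k v j := (ctr_eq T k v j).symm

/-- the word with `k`-th letter `i.succAbove l` and all other letters `i` -/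
def tau (k : Fin d) (i : Fin (n + 1)) (l : Fin n) : Fin d → Fin (n + 1) :=
  Function.update (fun _ => i) k (i.succAbove l)

theorem tau_self (k : Fin d) (i : Fin (n + 1)) (l : Fin n) : tau k i l k = i.succAbove l := by
  rw [tau, Function.update_self]

theorem tau_of_ne {k m : Fin d} (h : m ≠ k) (i : Fin (n + 1)) (l : Fin n) : tau k i l m = i := by
  rw [tau, Function.update_of_ne h]

theorem tau_injective (k : Fin d) (i : Fin (n + 1)) : Function.Injective (tau (n := n) k i) := by
  intro l l' h
  have := congrFun h k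
  rw [tau_self, tau_self] at this
  exact Fin.succAbove_right_injective this

theorem ctr_tau (k : Fin d) (i : Fin (n + 1)) (l : Fin n) (v : Fin (n + 1) → ℂ) (hv : v i = 1)
    (j : Fin (n + 1)) : ctr (Pi.single (tau k i l) 1 : Tensor n d) k v j =
      if i.succAbove l = j then 1 else 0 := by
  rw [ctr, contraction_single, tau_self]
  split_ifs
  · rw [wordProd, map_prod]
    refine Finset.prod_eq_one fun m hm => ?_
    rw [tau_of_ne (Finset.ne_of_mem_erase hm), eval_X, hv]
  · exact map_zero _

/-- the part of a tensor away from the words `tau` -/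
noncomputable def restT {R : Type} [CommRing R] (k : Fin d) (i : Fin (n + 1))
    (T : (Fin d → Fin (n + 1)) → R) : (Fin d → Fin (n + 1)) → R := by
  classical exact fun σ => if ∃ l, σ = tau k i l then 0 else T σ

theorem restT_tau {R : Type} [CommRing R] (k : Fin d) (i : Fin (n + 1))
    (T : (Fin d → Fin (n + 1)) → R) (l : Fin n) : restT k i T (tau k i l) = 0 := by
  rw [restT, if_pos ⟨l, rfl⟩]

theorem restT_of_not {R : Type} [CommRing R] (k : Fin d) (i : Fin (n + 1))
    (T : (Fin d → Fin (n + 1)) → R) (σ : Fin d → Fin (n + 1)) (h : ¬ ∃ l, σ = tau k i l) :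
    restT k i T σ = T σ := by
  rw [restT, if_neg h]

theorem map_restT {R S : Type} [CommRing R] [CommRing S] (f : R →+* S) (k : Fin d)
    (i : Fin (n + 1)) (T : (Fin d → Fin (n + 1)) → R) (σ : Fin d → Fin (n + 1)) :
    f (restT k i T σ) = restT k i (fun σ => f (T σ)) σ := by
  classical
  by_cases h : ∃ l, σ = tau k i l
  · obtain ⟨l, rfl⟩ := h
    rw [restT_tau, restT_tau, map_zero]
  · rw [restT_of_not _ _ _ _ h, restT_of_not _ _ _ _ h]

theorem rest_decomp (k : Fin d) (i : Fin (n + 1)) (T : Tensor n d) :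
    T = restT k i T + ∑ l, T (tau k i l) • Pi.single (tau k i l) 1 := by
  classical
  funext σ
  rw [Pi.add_apply, Finset.sum_apply]
  by_cases h : ∃ l, σ = tau k i l
  · obtain ⟨l, rfl⟩ := h
    rw [restT_tau, zero_add, Finset.sum_eq_single l]
    · rw [Pi.smul_apply, Pi.single_eq_same, smul_eq_mul, mul_one]
    · intro l' _ hl'
      rw [Pi.smul_apply, Pi.single_eq_of_ne, smul_zero]
      intro h
      exact hl' (tau_injective k i h).symm
    · intro h; exact absurd (Finset.mem_univ _) h
  · rw [restT_of_not _ _ _ _ h, Finset.sum_eq_zero, add_zero]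
    intro l _
    rw [Pi.smul_apply, Pi.single_eq_of_ne, smul_zero]
    intro hσ
    exact h ⟨l, hσ⟩

theorem ctr_rest (k : Fin d) (i : Fin (n + 1)) (T : Tensor n d) (v : Fin (n + 1) → ℂ)
    (hv : v i = 1) (j : Fin (n + 1)) : ctr T k v j = ctr (restT k i T) k v j +
      ∑ l, T (tau k i l) * (if i.succAbove l = j then 1 else 0) := by
  have hlin : ∀ T : Tensor n d, ctr T k v j = eval v (ctrLin k j T) := fun T => rfl
  have h1 : ctrLin k j T = ctrLin k j (restT k i T) +
      ∑ l, T (tau k i l) • ctrLin k j (Pi.single (tau k i l) 1) := by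
    conv_lhs => rw [rest_decomp k i T]
    rw [map_add, map_sum]
    congr 1
    exact Finset.sum_congr rfl fun l _ => map_smul _ _ _
  rw [hlin, h1, map_add, map_sum]
  congr 1
  refine Finset.sum_congr rfl fun l _ => ?_
  rw [smul_eq_C_mul, map_mul, eval_C, ← hlin, ctr_tau k i l v hv]

/-- solving the eigenvector equations for the entries with index `tau` -/
theorem tau_entry (k : Fin d) (i : Fin (n + 1)) (T : Tensor n d) (v : Fin (n + 1) → ℂ)
    (hv : v i = 1) (hm : ∀ a b, eval v (eigMinor T k a b) = 0) (l : Fin n) :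
    T (tau k i l) = v (i.succAbove l) * ctr (restT k i T) k v i -
      ctr (restT k i T) k v (i.succAbove l) := by
  have h1 := hm i (i.succAbove l)
  rw [eval_eigMinor, hv, one_mul, ctr_rest k i T v hv, ctr_rest k i T v hv] at h1
  have h2 : ∑ l', T (tau k i l') * (if i.succAbove l' = i.succAbove l then (1 : ℂ) else 0) =
      T (tau k i l) := by
    rw [Finset.sum_eq_single l]
    · rw [if_pos rfl, mul_one]
    · intro l' _ hl'
      rw [if_neg (fun h => hl' (Fin.succAbove_right_injective h)), mul_zero]
    · intro h; exact absurd (Finset.mem_univ _) h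
  have h3 : ∑ l', T (tau k i l') * (if i.succAbove l' = i then (1 : ℂ) else 0) = 0 := by
    refine Finset.sum_eq_zero fun l' _ => ?_
    rw [if_neg (Fin.succAbove_ne i l'), mul_zero]
  rw [h2, h3] at h1
  linear_combination h1

/-- the coordinates of an eigenpoint satisfy a nonzero polynomial relation with the entries of
the tensor -/
theorem exists_relation (k : Fin d) (i : Fin (n + 1)) (j : Fin n) :
    ∃ P : MvPolynomial (Option (Fin d → Fin (n + 1))) ℂ, P ≠ 0 ∧
      ∀ (T : Tensor n d) (y : Fin n → ℂ),
        (∀ a b, eval (i.insertNth 1 y : Fin (n + 1) → ℂ) (eigMinor T k a b) = 0) →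
        eval (fun o => o.elim (y j) T) P = 0 := by
  classical
  -- the parametrisation
  let V : Fin (n + 1) → MvPolynomial (Fin d → Fin (n + 1)) ℂ :=
    i.insertNth 1 (fun l => X (tau k i l))
  let T0 : (Fin d → Fin (n + 1)) → MvPolynomial (Fin d → Fin (n + 1)) ℂ := restT k i X
  let Tp : (Fin d → Fin (n + 1)) → MvPolynomial (Fin d → Fin (n + 1)) ℂ := fun σ =>
    T0 σ + ∑ l, if σ = tau k i l then
      V (i.succAbove l) * ctrR T0 k V i - ctrR T0 k V (i.succAbove l) else 0
  obtain ⟨P, hP0, hP⟩ := exists_dep (σ := Fin d → Fin (n + 1))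
    (ι := Option (Fin d → Fin (n + 1))) (by rw [Fintype.card_option]; omega)
    (fun o => o.elim (X (tau k i j)) Tp)
  refine ⟨P, hP0, fun T y hm => ?_⟩
  set v : Fin (n + 1) → ℂ := i.insertNth 1 y with hv
  have hvi : v i = 1 := by rw [hv, Fin.insertNth_apply_same]
  have hvl : ∀ l, v (i.succAbove l) = y l := fun l => by rw [hv, Fin.insertNth_apply_succAbove]
  -- the parameter point
  let s : (Fin d → Fin (n + 1)) → ℂ := fun σ =>
    restT k i T σ + ∑ l, if σ = tau k i l then y l else 0
  have hs1 : ∀ l, s (tau k i l) = y l := by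
    intro l
    show restT k i T (tau k i l) + ∑ l', (if tau k i l = tau k i l' then y l' else 0) = y l
    rw [restT_tau, zero_add, Finset.sum_eq_single l]
    · rw [if_pos rfl]
    · intro l' _ hl'
      rw [if_neg (fun h => hl' (tau_injective k i h).symm)]
    · intro h; exact absurd (Finset.mem_univ _) h
  have hs2 : ∀ σ, (¬ ∃ l, σ = tau k i l) → s σ = T σ := by
    intro σ hσ
    show restT k i T σ + ∑ l', (if σ = tau k i l' then y l' else 0) = T σ
    rw [restT_of_not _ _ _ _ hσ, Finset.sum_eq_zero, add_zero]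
    intro l _
    rw [if_neg (fun h => hσ ⟨l, h⟩)]
  have hV : ∀ l, eval s (V l) = v l := by
    intro l
    rcases Fin.eq_self_or_eq_succAbove i l with h | ⟨l', h⟩
    · rw [h, hvi]
      show eval s ((i.insertNth 1 (fun l => X (tau k i l)) : Fin (n + 1) → _) i) = 1
      rw [Fin.insertNth_apply_same, map_one]
    · rw [h, hvl]
      show eval s ((i.insertNth 1 (fun l => X (tau k i l)) : Fin (n + 1) → _)
        (i.succAbove l')) = y l'
      rw [Fin.insertNth_apply_succAbove, eval_X, hs1]
  have hT0 : ∀ σ, eval s (T0 σ) = restT k i T σ := by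
    intro σ
    show eval s (restT k i X σ) = _
    rw [map_restT]
    by_cases h : ∃ l, σ = tau k i l
    · obtain ⟨l, rfl⟩ := h
      rw [restT_tau, restT_tau]
    · rw [restT_of_not _ _ _ _ h, restT_of_not _ _ _ _ h, eval_X, hs2 σ h]
  have hctr : ∀ l, eval s (ctrR T0 k V l) = ctr (restT k i T) k v l := by
    intro l
    rw [map_ctrR, ← ctrR_eq_ctr]
    congr 1
    · funext σ; exact hT0 σ
    · funext l; exact hV l
  have hTp : ∀ σ, eval s (Tp σ) = T σ := by
    intro σ
    show eval s (T0 σ + ∑ l, if σ = tau k i l then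
      V (i.succAbove l) * ctrR T0 k V i - ctrR T0 k V (i.succAbove l) else 0) = T σ
    rw [map_add, hT0, map_sum]
    by_cases h : ∃ l, σ = tau k i l
    · obtain ⟨l, rfl⟩ := h
      rw [restT_tau, zero_add, Finset.sum_eq_single l]
      · rw [if_pos rfl, map_sub, map_mul, hV, hctr, hctr]
        exact (tau_entry k i T v hvi hm l).symm
      · intro l' _ hl'
        rw [if_neg (fun h => hl' (tau_injective k i h).symm), map_zero]
      · intro h; exact absurd (Finset.mem_univ _) h
    · rw [restT_of_not _ _ _ _ h, Finset.sum_eq_zero, add_zero]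
      intro l _
      rw [if_neg (fun hσ => h ⟨l, hσ⟩), map_zero]
  have h1 := congrArg (eval s) hP
  rw [map_zero, ← aeval_eq_eval', ← AlgHom.comp_apply, comp_aeval, aeval_eq_eval'] at h1
  have h2 : (fun o : Option (Fin d → Fin (n + 1)) => o.elim (y j) T) =
      fun o => aeval s (o.elim (X (tau k i j)) Tp) := by
    funext o
    cases o with
    | none =>
      show y j = aeval s (X (tau k i j))
      rw [aeval_X, hs1]
    | some σ =>
      show T σ = aeval s (Tp σ)
      rw [aeval_eq_eval', hTp]
  rw [h2]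
  exact h1

end MP72974f
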