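import Pool.Agent.H41.EigRankC

/-!
The dimension of the space of minors of tensors.
-/

open MvPolynomial

namespace MP72974f

variable {n e : ℕ}

theorem iot_snd_mem (y : Fin e → Syz n e) :
    iot n e (0, y) ∈ LinearMap.range (gMap n e) := by
  have h : ((0, y) : Hm n (e + 1) × (Fin e → Syz n e)) = ∑ k, (0, Pi.single k (y k)) := by
    refine Prod.ext ?_ ?_
    · rw [Prod.fst_sum]; simp
    · rw [Prod.snd_sum]
      exact (Finset.univ_sum_single y).symm
  rw [h, map_sum]
  exact Submodule.sum_mem _ fun k _ => iot_syz_mem k (y k)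

/-- every form of degree `e + 1` is the form of a tensor -/
theorem exists_formOf (p : MvPolynomial (Fin (n + 1)) ℂ) (hp : p.IsHomogeneous (e + 1)) :
    ∃ T : Tensor n (e + 1), formOf T = p := by
  have hmem := mem_span_words (Finset.univ : Finset (Fin (e + 1))) p (by
    rw [Finset.card_univ, Fintype.card_fin]; exact hp)
  refine Submodule.span_induction ?_ ?_ ?_ ?_ hmem
  · rintro _ ⟨w, rfl⟩
    refine ⟨Pi.single w 1, ?_⟩
    rw [formOf, Finset.sum_eq_single w]
    · rw [Pi.single_eq_same, C_1, one_mul]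
    · intro i _ hi
      rw [Pi.single_eq_of_ne hi, C_0, zero_mul]
    · intro h
      exact absurd (Finset.mem_univ w) h
  · refine ⟨0, ?_⟩
    rw [formOf]
    refine Finset.sum_eq_zero fun i _ => ?_
    rw [Pi.zero_apply, C_0, zero_mul]
  · rintro x y _ _ ⟨T, rfl⟩ ⟨T', rfl⟩
    refine ⟨T + T', ?_⟩
    rw [formOf, formOf, formOf, ← Finset.sum_add_distrib]
    refine Finset.sum_congr rfl fun i _ => ?_
    rw [Pi.add_apply, C_add, add_mul]
  · rintro c x _ ⟨T, rfl⟩
    refine ⟨c • T, ?_⟩
    rw [formOf, formOf, Finset.smul_sum]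
    refine Finset.sum_congr rfl fun i _ => ?_
    rw [Pi.smul_apply, smul_eq_mul, C_mul, smul_eq_C_mul, mul_assoc]

theorem range_gMap : LinearMap.range (gMap n e) = LinearMap.range (iot n e) := by
  apply le_antisymm range_gMap_le
  rintro _ ⟨⟨f, y⟩, rfl⟩
  obtain ⟨T, hT⟩ := exists_formOf (f : MvPolynomial (Fin (n + 1)) ℂ) f.2
  obtain ⟨⟨f', y'⟩, hp⟩ := range_gMap_le ⟨T, rfl⟩
  have hf : f' = f := by
    have h1 := sig_iot (f', y') 0
    rw [hp] at h1
    refine Subtype.ext ?_
    rw [← hT, ← sum_X_contraction T 0]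
    have h2 := congrArg Subtype.val h1
    rw [sig_coe] at h2
    exact h2.symm
  have h3 : iot n e (f, y) = gMap n e T + iot n e (0, y - y') := by
    rw [← hp, hf, ← map_add]
    congr 1
    refine Prod.ext ?_ ?_
    · exact (add_zero f).symm
    · exact (add_sub_cancel y' y).symm
  rw [h3]
  exact Submodule.add_mem _ ⟨T, rfl⟩ (iot_snd_mem _)

theorem finrank_range_gMap : Module.finrank ℂ (LinearMap.range (gMap n e)) =
    (n + (e + 1)).choose (e + 1) + e * (e * (n + e).choose (e + 1)) := by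
  have : Module.Free ℂ (Syz n e) := Module.Free.of_divisionRing ℂ (Syz n e)
  have : Module.Free ℂ (Hm n (e + 1)) := Module.Free.of_divisionRing ℂ (Hm n (e + 1))
  rw [range_gMap, LinearMap.finrank_range_of_inj (iot_injective n e), Module.finrank_prod,
    finrank_Hm, Module.finrank_pi_fintype]
  simp only [Finset.sum_const, Finset.card_univ, Fintype.card_fin, smul_eq_mul]
  have hS : Module.finrank ℂ (Syz n e) = e * (n + e).choose (e + 1) := finrank_Syz' n e
  rw [hS]

/-- the quadratic form -/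
noncomputable def quad (n : ℕ) : MvPolynomial (Fin (n + 1)) ℂ := ∑ j, X j ^ 2

theorem quad_ne_zero : quad n ≠ 0 := by
  intro h
  have h1 := congrArg (eval (Pi.single 0 1 : Fin (n + 1) → ℂ)) h
  rw [quad, map_sum, map_zero, Finset.sum_eq_single 0] at h1
  · rw [map_pow, eval_X, Pi.single_eq_same, one_pow] at h1
    exact one_ne_zero h1
  · intro j _ hj
    rw [map_pow, eval_X, Pi.single_eq_of_ne hj]
    ring
  · intro h; exact absurd (Finset.mem_univ _) h

theorem pderiv_quad (j : Fin (n + 1)) : pderiv j (quad n) = 2 * X j := by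
  rw [quad, map_sum, Finset.sum_eq_single j]
  · rw [Derivation.leibniz_pow, pderiv_X, Pi.single_eq_same]
    simp
  · intro i _ hi
    rw [Derivation.leibniz_pow, pderiv_X, Pi.single_eq_of_ne hi]
    simp
  · intro h; exact absurd (Finset.mem_univ _) h

theorem not_X_dvd_quad (hn : 1 ≤ n) (j : Fin (n + 1)) : ¬ X j ∣ quad n := by
  rintro ⟨r, hr⟩
  obtain ⟨j', hj'⟩ : ∃ j' : Fin (n + 1), j' ≠ j := by
    have : Nontrivial (Fin (n + 1)) := by
      rw [Fin.nontrivial_iff_two_le]; omega
    exact exists_ne j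
  have h1 := congrArg (eval (Pi.single j' 1 : Fin (n + 1) → ℂ)) hr
  rw [map_mul, eval_X, Pi.single_eq_of_ne (Ne.symm hj'), zero_mul, quad, map_sum,
    Finset.sum_eq_single j'] at h1
  · rw [map_pow, eval_X, Pi.single_eq_same, one_pow] at h1
    exact one_ne_zero h1
  · intro i _ hi
    rw [map_pow, eval_X, Pi.single_eq_of_ne hi]
    ring
  · intro h; exact absurd (Finset.mem_univ _) h

theorem totalDegree_quad : (quad n).totalDegree = 2 := by
  have h : (quad n).IsHomogeneous 2 := by
    rw [quad]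
    refine IsHomogeneous.sum _ _ _ fun j _ => ?_
    have := (isHomogeneous_X ℂ j).pow 2
    rwa [one_mul] at this
  exact h.totalDegree quad_ne_zero

/-- solutions of the radial equation -/
theorem radial_classification (hn : 1 ≤ n) (m : ℕ) : ∀ q : MvPolynomial (Fin (n + 1)) ℂ,
    q.totalDegree ≤ m → (∀ j, C (m : ℂ) * q * X j = quad n * pderiv j q) →
    (Even m → ∃ c : ℂ, q = C c * quad n ^ (m / 2)) ∧ (¬ Even m → q = 0) := by
  induction m using Nat.strong_induction_on with
  | _ m ih =>
    intro q hdeg hq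
    rcases Nat.eq_zero_or_pos m with h0 | hpos
    · subst h0
      refine ⟨fun _ => ⟨coeff 0 q, ?_⟩, fun h => absurd (Nat.even_iff.mpr rfl) h⟩
      rw [Nat.zero_div, pow_zero, mul_one]
      exact totalDegree_eq_zero_iff_eq_C.mp (Nat.le_zero.mp hdeg)
    · have hmC : (m : ℂ) ≠ 0 := Nat.cast_ne_zero.mpr (by omega)
      -- `q` is divisible by the quadratic form
      obtain ⟨r, hr⟩ : ∃ r, q = quad n * r := by
        have hX : Prime (X 0 : MvPolynomial (Fin (n + 1)) ℂ) := X_prime
        have h1 : X 0 ∣ quad n * pderiv 0 q := ⟨C (m : ℂ) * q, by rw [← hq 0]; ring⟩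
        obtain ⟨r, hr⟩ := (hX.dvd_or_dvd h1).resolve_left (not_X_dvd_quad hn 0)
        refine ⟨C ((m : ℂ)⁻¹) * r, ?_⟩
        have h2 := hq 0
        rw [hr] at h2
        have h3 : C (m : ℂ) * q = quad n * r :=
          mul_right_cancel₀ hX.ne_zero (by rw [h2]; ring)
        have h4 : C ((m : ℂ)⁻¹) * (C (m : ℂ) * q) = q := by
          rw [← mul_assoc, ← C_mul, inv_mul_cancel₀ hmC, C_1, one_mul]
        rw [← h4, h3]
        ring
      by_cases hr0 : r = 0
      · rw [hr0, mul_zero] at hr
        exact ⟨fun _ => ⟨0, by rw [hr, C_0, zero_mul]⟩, fun _ => hr⟩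
      have hdr : 2 + r.totalDegree ≤ m := by
        rw [hr, totalDegree_mul_of_isDomain quad_ne_zero hr0, totalDegree_quad] at hdeg
        exact hdeg
      obtain ⟨m', rfl⟩ : ∃ m', m = m' + 2 := ⟨m - 2, by omega⟩
      have hr' : ∀ j, C (m' : ℂ) * r * X j = quad n * pderiv j r := by
        intro j
        have h1 := hq j
        rw [hr, Derivation.leibniz, pderiv_quad, smul_eq_mul, smul_eq_mul] at h1
        have h2 : quad n * (C (m' : ℂ) * r * X j) = quad n * (quad n * pderiv j r) := by
          have h3 : (C ((m' + 2 : ℕ) : ℂ) : MvPolynomial (Fin (n + 1)) ℂ) = C (m' : ℂ) + 2 := by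
            rw [Nat.cast_add, C_add]
            congr 1
          rw [h3] at h1
          linear_combination h1
        exact mul_left_cancel₀ quad_ne_zero h2
      obtain ⟨ihe, iho⟩ := ih m' (by omega) r (by omega) hr'
      constructor
      · intro hev
        have hev' : Even m' := by
          rw [Nat.even_add] at hev
          exact hev.mpr even_two
        obtain ⟨c, hc⟩ := ihe hev'
        refine ⟨c, ?_⟩
        rw [hr, hc, show (m' + 2) / 2 = m' / 2 + 1 by omega, pow_succ]
        ring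
      · intro hodd
        have hodd' : ¬ Even m' := by
          intro h
          apply hodd
          rw [Nat.even_add]
          exact ⟨fun _ => even_two, fun _ => h⟩
        rw [hr, iho hodd', mul_zero]

/-- minors of a system of vectors of forms -/
noncomputable def muMap (n e : ℕ) : (Fin (e + 1) → Fin (n + 1) → Hm n e) →ₗ[ℂ]
    (Fin (e + 1) → Fin (n + 1) → Fin (n + 1) → MvPolynomial (Fin (n + 1)) ℂ) where
  toFun z := fun k a b => X a * (z k b : MvPolynomial (Fin (n + 1)) ℂ) -
    X b * (z k a : MvPolynomial (Fin (n + 1)) ℂ)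
  map_add' z z' := by
    funext k a b
    show X a * ((z k b : MvPolynomial (Fin (n + 1)) ℂ) + (z' k b : MvPolynomial (Fin (n + 1)) ℂ)) -
      X b * ((z k a : MvPolynomial (Fin (n + 1)) ℂ) + (z' k a : MvPolynomial (Fin (n + 1)) ℂ)) =
      (X a * (z k b : MvPolynomial (Fin (n + 1)) ℂ) -
        X b * (z k a : MvPolynomial (Fin (n + 1)) ℂ)) +
      (X a * (z' k b : MvPolynomial (Fin (n + 1)) ℂ) -
        X b * (z' k a : MvPolynomial (Fin (n + 1)) ℂ))
    ring
  map_smul' c z := by
    funext k a b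
    show X a * (c • (z k b : MvPolynomial (Fin (n + 1)) ℂ)) -
      X b * (c • (z k a : MvPolynomial (Fin (n + 1)) ℂ)) =
      c • (X a * (z k b : MvPolynomial (Fin (n + 1)) ℂ) -
        X b * (z k a : MvPolynomial (Fin (n + 1)) ℂ))
    rw [smul_eq_C_mul, smul_eq_C_mul, smul_eq_C_mul]
    ring

theorem muMap_apply (z : Fin (e + 1) → Fin (n + 1) → Hm n e) (k : Fin (e + 1))
    (a b : Fin (n + 1)) : muMap n e z k a b =
      X a * (z k b : MvPolynomial (Fin (n + 1)) ℂ) -
        X b * (z k a : MvPolynomial (Fin (n + 1)) ℂ) := rfl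

theorem minorMap_eq : minorMap n (e + 1) = (muMap n e).comp (gMap n e) := by
  refine LinearMap.ext fun T => ?_
  rfl

theorem finrank_comp_trivial {U V W : Type} [AddCommGroup U] [Module ℂ U] [AddCommGroup V]
    [Module ℂ V] [AddCommGroup W] [Module ℂ W] [FiniteDimensional ℂ U] (g : U →ₗ[ℂ] V)
    (μ : V →ₗ[ℂ] W) (h : ∀ z ∈ LinearMap.range g, μ z = 0 → z = 0) :
    Module.finrank ℂ (LinearMap.range (μ.comp g)) = Module.finrank ℂ (LinearMap.range g) := by
  have h1 := LinearMap.finrank_range_add_finrank_ker (μ.domRestrict (LinearMap.range g))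
  have h2 : LinearMap.range (μ.domRestrict (LinearMap.range g)) = LinearMap.range (μ.comp g) := by
    rw [LinearMap.range_comp, LinearMap.range_domRestrict]
  have h3 : LinearMap.ker (μ.domRestrict (LinearMap.range g)) = ⊥ := by
    rw [eq_bot_iff]
    rintro ⟨z, hz⟩ hk
    rw [LinearMap.mem_ker] at hk
    exact Subtype.ext (h z hz hk)
  rw [h2, h3, finrank_bot, add_zero] at h1
  exact h1

theorem finrank_comp_line {U V W : Type} [AddCommGroup U] [Module ℂ U] [AddCommGroup V]
    [Module ℂ V] [AddCommGroup W] [Module ℂ W] [FiniteDimensional ℂ U] (g : U →ₗ[ℂ] V)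
    (μ : V →ₗ[ℂ] W) (z₀ : V) (hz₀ : z₀ ∈ LinearMap.range g) (hμ : μ z₀ = 0) (hne : z₀ ≠ 0)
    (h : ∀ z ∈ LinearMap.range g, μ z = 0 → ∃ c : ℂ, z = c • z₀) :
    Module.finrank ℂ (LinearMap.range (μ.comp g)) + 1 = Module.finrank ℂ (LinearMap.range g) := by
  have h1 := LinearMap.finrank_range_add_finrank_ker (μ.domRestrict (LinearMap.range g))
  have h2 : LinearMap.range (μ.domRestrict (LinearMap.range g)) = LinearMap.range (μ.comp g) := by
    rw [LinearMap.range_comp, LinearMap.range_domRestrict]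
  have h3 : Module.finrank ℂ (LinearMap.ker (μ.domRestrict (LinearMap.range g))) = 1 := by
    rw [finrank_eq_one_iff']
    refine ⟨⟨⟨z₀, hz₀⟩, by rw [LinearMap.mem_ker]; exact hμ⟩, ?_, ?_⟩
    · intro h0
      apply hne
      exact congrArg (fun x => ((x : LinearMap.ker (μ.domRestrict
        (LinearMap.range g))).1 : LinearMap.range g).1) h0
    · rintro ⟨⟨y, hyr⟩, hymu⟩
      rw [LinearMap.mem_ker] at hymu
      obtain ⟨c, hc⟩ := h y hyr hymu
      exact ⟨c, Subtype.ext (Subtype.ext hc.symm)⟩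
  rw [h2, h3] at h1
  exact h1

/-- radial systems of contractions -/
theorem radial_of_mem (hn : 1 ≤ n) (he : 1 ≤ e) (z : Fin (e + 1) → Fin (n + 1) → Hm n e)
    (hz : z ∈ LinearMap.range (gMap n e)) (hmu : muMap n e z = 0) :
    ∃ q : MvPolynomial (Fin (n + 1)) ℂ, (∀ k j, (z k j : MvPolynomial (Fin (n + 1)) ℂ) = q * X j) ∧
      q.totalDegree ≤ e - 1 ∧ ∀ j, C ((e - 1 : ℕ) : ℂ) * q * X j = quad n * pderiv j q := by
  have hnt : Nontrivial (Fin (n + 1)) := by
    rw [Fin.nontrivial_iff_two_le]; omega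
  have hmul : ∀ k a b, X a * (z k b : MvPolynomial (Fin (n + 1)) ℂ) =
      X b * (z k a : MvPolynomial (Fin (n + 1)) ℂ) := by
    intro k a b
    have := congrFun (congrFun (congrFun hmu k) a) b
    rw [muMap_apply] at this
    exact sub_eq_zero.mp this
  -- divisibility
  have hdiv : ∀ k, ∃ q : MvPolynomial (Fin (n + 1)) ℂ,
      ∀ j, (z k j : MvPolynomial (Fin (n + 1)) ℂ) = q * X j := by
    intro k
    obtain ⟨b, hb⟩ := exists_ne (0 : Fin (n + 1))
    have hX : Prime (X 0 : MvPolynomial (Fin (n + 1)) ℂ) := X_prime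
    have h1 : X 0 ∣ X b * (z k 0 : MvPolynomial (Fin (n + 1)) ℂ) := ⟨_, (hmul k 0 b).symm⟩
    have h2 : ¬ (X 0 : MvPolynomial (Fin (n + 1)) ℂ) ∣ X b := by
      rintro ⟨r, hr⟩
      have h3 := congrArg (eval (Pi.single b 1 : Fin (n + 1) → ℂ)) hr
      rw [map_mul, eval_X, eval_X, Pi.single_eq_same, Pi.single_eq_of_ne (Ne.symm hb),
        zero_mul] at h3
      exact one_ne_zero h3
    obtain ⟨q, hq⟩ := (hX.dvd_or_dvd h1).resolve_left h2
    refine ⟨q, fun j => ?_⟩
    have h3 := hmul k 0 j
    rw [hq] at h3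
    exact mul_left_cancel₀ hX.ne_zero (by rw [h3]; ring)
  choose q hq using hdiv
  rw [range_gMap] at hz
  obtain ⟨p, rfl⟩ := hz
  -- all `q k` agree
  have hform : ∀ k, q k * quad n = (p.1 : MvPolynomial (Fin (n + 1)) ℂ) := by
    intro k
    have h1 := congrArg Subtype.val (sig_iot p k)
    rw [sig_coe] at h1
    rw [← h1, quad, Finset.mul_sum]
    refine Finset.sum_congr rfl fun j _ => ?_
    rw [hq]; ring
  have hqk : ∀ k, q k = q 0 := fun k =>
    mul_right_cancel₀ quad_ne_zero ((hform k).trans (hform 0).symm)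
  refine ⟨q 0, fun k j => by rw [hq, hqk], ?_, ?_⟩
  · by_cases h0 : q 0 = 0
    · rw [h0, totalDegree_zero]; exact Nat.zero_le _
    · have h1 : ((iot n e p 0 0 : Hm n e) : MvPolynomial (Fin (n + 1)) ℂ).totalDegree ≤ e :=
        ((mem_homogeneousSubmodule _ _).mp (iot n e p 0 0).2).totalDegree_le
      rw [hq, totalDegree_mul_of_isDomain h0 (X_ne_zero _), totalDegree_X] at h1
      omega
  · intro j
    have h1 := congrArg Subtype.val (congrFun (sum_iot p) j)
    rw [grad_coe, ← hform 0, Finset.sum_apply, Submodule.coe_sum, Derivation.leibniz,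
      pderiv_quad, smul_eq_mul, smul_eq_mul] at h1
    have h2 : ∑ k, ((iot n e p k j : Hm n e) : MvPolynomial (Fin (n + 1)) ℂ) =
        C ((e + 1 : ℕ) : ℂ) * (q 0 * X j) := by
      rw [Finset.sum_congr rfl (fun k _ => by rw [hq, hqk]), Finset.sum_const, Finset.card_univ,
        Fintype.card_fin, nsmul_eq_mul]
      congr 1
    rw [h2] at h1
    have h3 : (C ((e + 1 : ℕ) : ℂ) : MvPolynomial (Fin (n + 1)) ℂ) = C ((e - 1 : ℕ) : ℂ) + 2 := by
      have : ((e + 1 : ℕ) : ℂ) = ((e - 1 : ℕ) : ℂ) + 2 := by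
        have h4 : e + 1 = (e - 1) + 2 := by omega
        rw [h4]; push_cast
        simp
      rw [this, C_add]
      congr 1
    rw [h3] at h1
    linear_combination h1

/-- the dimension of the space of minors -/
theorem finrank_range_minorMap (hn : 1 ≤ n) (he : 1 ≤ e) :
    Module.finrank ℂ (LinearMap.range (minorMap n (e + 1))) + (if Even (e + 1) then 1 else 0) =
      (n + (e + 1)).choose (e + 1) + e * (e * (n + e).choose (e + 1)) := by
  rw [← finrank_range_gMap, minorMap_eq]
  have hodd : Even (e + 1) ↔ Even (e - 1) := by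
    have h4 : e + 1 = (e - 1) + 2 := by omega
    rw [h4, Nat.even_add]
    exact ⟨fun h => h.mpr even_two, fun h => ⟨fun _ => even_two, fun _ => h⟩⟩
  by_cases hev : Even (e + 1)
  · rw [if_pos hev]
    -- the generator
    have hfh : (quad n ^ ((e + 1) / 2)).IsHomogeneous (e + 1) := by
      have hq2 : (quad n).IsHomogeneous 2 := by
        rw [quad]
        refine IsHomogeneous.sum _ _ _ fun j _ => ?_
        have := (isHomogeneous_X ℂ j).pow 2
        rwa [one_mul] at this
      have := hq2.pow ((e + 1) / 2)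
      rwa [Nat.mul_div_cancel' (even_iff_two_dvd.mp hev)] at this
    set z : Fin (e + 1) → Fin (n + 1) → Hm n e := iot n e (⟨quad n ^ ((e + 1) / 2), hfh⟩, 0) with hz
    have hzk : ∀ k j, (z k j : MvPolynomial (Fin (n + 1)) ℂ) = quad n ^ ((e - 1) / 2) * X j := by
      intro k j
      have hk : z k = ((e + 1 : ℕ) : ℂ)⁻¹ • grad n e ⟨quad n ^ ((e + 1) / 2), hfh⟩ := by
        refine Fin.cases ?_ (fun k' => ?_) k
        · rw [hz, iot_zero]
          simp
        · rw [hz, iot_succ]
          simp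
      rw [hk]
      show ((e + 1 : ℕ) : ℂ)⁻¹ • pderiv j (quad n ^ ((e + 1) / 2)) = _
      obtain ⟨m, hm⟩ := hev
      have e1 : (e + 1) / 2 = m := by omega
      have e2 : (e - 1) / 2 = m - 1 := by omega
      rw [e1, e2, Derivation.leibniz_pow, pderiv_quad, smul_eq_mul, smul_eq_C_mul,
        nsmul_eq_mul]
      have e3 : (C ((e + 1 : ℕ) : ℂ)⁻¹ : MvPolynomial (Fin (n + 1)) ℂ) *
          ((m : MvPolynomial (Fin (n + 1)) ℂ) * 2) = 1 := by
        have h5 : ((m : MvPolynomial (Fin (n + 1)) ℂ) * 2) = C ((e + 1 : ℕ) : ℂ) := by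
          rw [hm, ← two_mul]
          push_cast
          rw [C_mul, mul_comm]
          congr 1
        rw [h5, ← C_mul, inv_mul_cancel₀ ne_e, C_1]
      linear_combination (quad n ^ (m - 1) * X j) * e3
    have hzr : z ∈ LinearMap.range (gMap n e) := by
      rw [range_gMap]; exact ⟨_, rfl⟩
    have hzmu : muMap n e z = 0 := by
      funext k a b
      rw [muMap_apply, hzk, hzk]
      show _ = (0 : MvPolynomial (Fin (n + 1)) ℂ)
      ring
    have hzne : z ≠ 0 := by
      intro h
      have := hzk 0 0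
      rw [h] at this
      have h6 : quad n ^ ((e - 1) / 2) * X (0 : Fin (n + 1)) ≠ 0 :=
        mul_ne_zero (pow_ne_zero _ quad_ne_zero) (X_ne_zero _)
      exact h6 this.symm
    refine finrank_comp_line _ _ z hzr hzmu hzne fun y hyr hymu => ?_
    obtain ⟨q, hqy, hqd, hqe⟩ := radial_of_mem hn he y hyr hymu
    obtain ⟨c, hc⟩ := (radial_classification hn (e - 1) q hqd hqe).1 (hodd.mp hev)
    refine ⟨c, ?_⟩
    funext k j
    refine Subtype.ext ?_
    show (y k j : MvPolynomial (Fin (n + 1)) ℂ) = c • (z k j : MvPolynomial (Fin (n + 1)) ℂ)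
    rw [hzk, hqy, hc, smul_eq_C_mul, mul_assoc]
  · rw [if_neg hev, add_zero]
    refine finrank_comp_trivial _ _ fun y hyr hymu => ?_
    obtain ⟨q, hqy, hqd, hqe⟩ := radial_of_mem hn he y hyr hymu
    have hq0 := (radial_classification hn (e - 1) q hqd hqe).2 (fun h => hev (hodd.mpr h))
    funext k j
    refine Subtype.ext ?_
    show (y k j : MvPolynomial (Fin (n + 1)) ℂ) = 0
    rw [hqy, hq0, zero_mul]

/-- the tensors modulo those with identically vanishing minors -/
theorem finrank_minorKer (hn : 1 ≤ n) (he : 1 ≤ e) :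
    Module.finrank ℂ (Tensor n (e + 1)) + (if Even (e + 1) then 1 else 0) =
      Module.finrank ℂ (minorKer n (e + 1)) +
        ((n + (e + 1)).choose (e + 1) + e * (e * (n + e).choose (e + 1))) := by
  have h1 := LinearMap.finrank_range_add_finrank_ker (minorMap n (e + 1))
  have h2 := finrank_range_minorMap hn he
  have h3 : Module.finrank ℂ (minorKer n (e + 1)) =
    Module.finrank ℂ (LinearMap.ker (minorMap n (e + 1))) := rfl
  rw [h3]
  omega

end MP72974f
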