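import Pool.Agent.H41.EigDep
import Pool.Agent.H41.EigRankD

/-!
The dimension of the sets of good configurations in charts.
-/

open MvPolynomial Filter
open scoped Topology

namespace MP72974f

open H41.EigAlg

variable {n d : ℕ}

/-- a linear parametrisation of tensors modulo those with vanishing minors -/
structure Param (n d m : ℕ) where
  toLin : (Fin (m + 1) → ℂ) →ₗ[ℂ] Tensor n d
  decomp : ∀ T : Tensor n d, ∃ w, T - toLin w ∈ minorKer n d
  inj : ∀ w, toLin w ∈ minorKer n d → w = 0

theorem exists_param (m : ℕ) (h : Module.finrank ℂ (LinearMap.range (minorMap n d)) = m + 1) :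
    Nonempty (Param n d m) := by
  obtain ⟨b⟩ : Nonempty (Module.Basis (Fin (m + 1)) ℂ (LinearMap.range (minorMap n d))) := by
    exact ⟨Module.finBasisOfFinrankEq ℂ _ h⟩
  have hT : ∀ i, ∃ T : Tensor n d, minorMap n d T = b i := fun i => (b i).2
  choose T hT using hT
  have hmap : ∀ w : Fin (m + 1) → ℂ, minorMap n d (Fintype.linearCombination ℂ T w) =
      ((∑ i, w i • b i : LinearMap.range (minorMap n d)) : _) := by
    intro w
    rw [Fintype.linearCombination_apply, map_sum, Submodule.coe_sum]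
    refine Finset.sum_congr rfl fun i _ => ?_
    rw [map_smul, hT, Submodule.coe_smul]
  refine ⟨⟨Fintype.linearCombination ℂ T, ?_, ?_⟩⟩
  · intro S
    refine ⟨b.repr ⟨minorMap n d S, ⟨S, rfl⟩⟩, ?_⟩
    rw [minorKer, LinearMap.mem_ker, map_sub, hmap, b.sum_repr, sub_self]
  · intro w hw
    rw [minorKer, LinearMap.mem_ker, hmap] at hw
    have h1 : ∑ i, w i • b i = 0 := Subtype.ext hw
    have h2 := Fintype.linearIndependent_iff.mp b.linearIndependent w h1
    exact funext h2

/-- upper bound in every chart -/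
theorem upper_bound {m D : ℕ} (p : Param n d m) (c : Fin d × Fin D → Fin (n + 1)) :
    ringKrullDim (CoordRing {u : (Fin d × Fin D) × Fin n → ℂ | ∃ T : Tensor n d, Good T c u}) ≤
      m := by
  classical
  -- relation for every coordinate
  have hrel : ∀ x : (Fin d × Fin D) × Fin n, ∃ Q : MvPolynomial (Option (Fin (m + 1))) ℂ,
      Q ≠ 0 ∧ ∀ (w : Fin (m + 1) → ℂ) (u : (Fin d × Fin D) × Fin n → ℂ),
        Good (p.toLin w) c u → eval (fun o => o.elim (u x) w) Q = 0 := by
    rintro ⟨kq, j⟩
    obtain ⟨P, hP0, hP⟩ := exists_relation (n := n) kq.1 (c kq) j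
    obtain ⟨x, hx⟩ := exists_eval_ne_zero P hP0
    obtain ⟨w₀, hw₀⟩ := p.decomp (fun σ => x (some σ))
    set κ : Tensor n d := (fun σ => x (some σ)) - p.toLin w₀ with hκ
    let sub : Option (Fin d → Fin (n + 1)) → MvPolynomial (Option (Fin (m + 1))) ℂ := fun o =>
      o.elim (X none) (fun σ => ∑ s, C (p.toLin (Pi.single s 1) σ) * X (some s) + C (κ σ))
    have hlin : ∀ w : Fin (m + 1) → ℂ, ∀ σ, p.toLin w σ =
        ∑ s, p.toLin (Pi.single s 1) σ * w s := by
      intro w σ
      have h1 : w = ∑ s, w s • (Pi.single s 1 : Fin (m + 1) → ℂ) := by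
        funext s
        simp [Finset.sum_apply, Pi.single_apply]
      conv_lhs => rw [h1, map_sum, Finset.sum_apply]
      refine Finset.sum_congr rfl fun s _ => ?_
      rw [map_smul, Pi.smul_apply, smul_eq_mul, mul_comm]
    have hev : ∀ (y : ℂ) (w : Fin (m + 1) → ℂ), eval (fun o => o.elim y w) (aeval sub P) =
        eval (fun o => o.elim y (p.toLin w + κ)) P := by
      intro y w
      rw [← aeval_eq_eval', ← aeval_eq_eval', ← AlgHom.comp_apply, comp_aeval]
      congr 2
      funext o
      cases o with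
      | none =>
        show aeval _ (X none) = y
        rw [aeval_X]; rfl
      | some σ =>
        show aeval (fun o : Option (Fin (m + 1)) => o.elim y w)
          (∑ s, C (p.toLin (Pi.single s 1) σ) * X (some s) + C (κ σ)) = p.toLin w σ + κ σ
        rw [aeval_eq_eval', map_add, map_sum, hlin w σ, eval_C]
        congr 1
        refine Finset.sum_congr rfl fun s _ => ?_
        rw [map_mul, eval_C, eval_X]; rfl
    refine ⟨aeval sub P, ?_, ?_⟩
    · intro h0
      have h1 := hev (x none) w₀
      rw [h0, map_zero] at h1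
      apply hx
      rw [h1]
      congr 1
      congr 1
      funext o
      cases o with
      | none => rfl
      | some σ =>
        show x (some σ) = (p.toLin w₀ + κ) σ
        rw [hκ]
        simp
    · intro w u hg
      rw [hev]
      refine hP (p.toLin w + κ) (fun j => u (kq, j)) ?_
      have h1 := (good_add_ker hg hw₀).eig kq
      exact h1
  choose Q hQ hQ0 using hrel
  have hdens : ∀ cc : MvPolynomial (Fin (m + 1)) ℂ, cc ≠ 0 →
      ∀ h : MvPolynomial ((Fin d × Fin D) × Fin n) ℂ,
      (∀ q ∈ {q : (Fin (m + 1) → ℂ) × ((Fin d × Fin D) × Fin n → ℂ) | Good (p.toLin q.1) c q.2},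
        eval q.1 cc ≠ 0 → eval q.2 h = 0) →
      ∀ q ∈ {q : (Fin (m + 1) → ℂ) × ((Fin d × Fin D) × Fin n → ℂ) | Good (p.toLin q.1) c q.2},
        eval q.2 h = 0 := by
    rintro cc hcc h hh ⟨w₁, u₁⟩ hg
    change Good (p.toLin w₁) c u₁ at hg
    show eval u₁ h = 0
    by_contra hne
    have hU : {u : (Fin d × Fin D) × Fin n → ℂ | eval u h ≠ 0} ∈ 𝓝 u₁ :=
      (MvPolynomial.continuous_eval h).continuousAt.eventually_ne hne
    have h1 := perturb (p.toLin w₁) c u₁ hg _ hU
    have hcont : Continuous p.toLin := p.toLin.continuous_of_finiteDimensional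
    have h2 : ∀ᶠ w in 𝓝 w₁, ∃ u ∈ {u : (Fin d × Fin D) × Fin n → ℂ | eval u h ≠ 0},
        Good (p.toLin w) c u := hcont.continuousAt.eventually h1
    apply hcc
    refine eq_zero_of_eventually cc w₁ ?_
    filter_upwards [h2] with w ⟨u, hu, hgu⟩
    by_contra hcw
    exact hu (hh (w, u) hgu hcw)
  refine dim_le_of_correspondence
    {q : (Fin (m + 1) → ℂ) × ((Fin d × Fin D) × Fin n → ℂ) | Good (p.toLin q.1) c q.2}
    Q hQ ?_ ?_ hdens _ ?_
  · rintro x ⟨w, u⟩ hg
    exact hQ0 x w u hg
  · rintro ⟨w, u⟩ hg t ht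
    show Good (p.toLin (t • w)) c u
    rw [map_smul]
    exact good_smul hg t ht
  · rintro u ⟨T, hT⟩
    obtain ⟨w, hw⟩ := p.decomp T
    refine ⟨w, ?_⟩
    show Good (p.toLin w) c u
    have h1 : p.toLin w = T + -(T - p.toLin w) := by abel
    rw [h1]
    exact good_add_ker hT (Submodule.neg_mem _ hw)

end MP72974f
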