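import Pool.Agent.H41.EigTopA

/-!
Ordered products of projective spaces: the standard charts are open embeddings.
-/

open MvPolynomial TopologicalSpace Topology
open scoped LinearAlgebra.Projectivization

namespace MP72974f

open H41.EigAlg

variable {J : Type} [Fintype J] [DecidableEq J] {n : ℕ}

/-- ordered tuples of points of `ℙ^n` -/
def Ord (J : Type) (n : ℕ) : Type := J → ℙ ℂ (Fin (n + 1) → ℂ)

/-- charts of the ordered product -/
noncomputable def kap (c : J → Fin (n + 1)) (u : Affine (J × Fin n)) : Ord J n :=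
  fun q => affinePoint (c q) (fun j => u (q, j))

noncomputable instance : TopologicalSpace (Ord J n) :=
  ⨆ c : J → Fin (n + 1), TopologicalSpace.coinduced (kap c) inferInstance

omit [Fintype J] [DecidableEq J] in
theorem isOpen_ord {U : Set (Ord J n)} :
    IsOpen U ↔ ∀ c : J → Fin (n + 1), IsOpen (kap c ⁻¹' U) := by
  have : IsOpen U ↔ ∀ c : J → Fin (n + 1),
      IsOpen[TopologicalSpace.coinduced (kap c) inferInstance] U := isOpen_iSup_iff
  rw [this]
  exact forall_congr' fun c => isOpen_coinduced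

omit [Fintype J] [DecidableEq J] in
theorem continuous_kap (c : J → Fin (n + 1)) : Continuous (kap c) :=
  continuous_def.mpr fun _ hU => isOpen_ord.mp hU c

/-- homogeneous coordinates of the `q`-th point -/
noncomputable def pt (c : J → Fin (n + 1)) (u : Affine (J × Fin n)) (q : J) : Fin (n + 1) → ℂ :=
  (c q).insertNth 1 (fun j => u (q, j))

/-- homogeneous coordinates of the `q`-th point as polynomials -/
noncomputable def ptPoly (c : J → Fin (n + 1)) (q : J) :
    Fin (n + 1) → MvPolynomial (J × Fin n) ℂ :=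
  (c q).insertNth 1 (fun j => X (q, j))

omit [Fintype J] [DecidableEq J] in
theorem eval_ptPoly (c : J → Fin (n + 1)) (q : J) (l : Fin (n + 1)) (u : Affine (J × Fin n)) :
    eval (u : J × Fin n → ℂ) (ptPoly c q l) = pt c u q l := by
  rcases Fin.eq_self_or_eq_succAbove (c q) l with h | ⟨j, h⟩
  · rw [ptPoly, pt, h, Fin.insertNth_apply_same, Fin.insertNth_apply_same, map_one]
  · rw [ptPoly, pt, h, Fin.insertNth_apply_succAbove, Fin.insertNth_apply_succAbove, eval_X]

omit [Fintype J] [DecidableEq J] in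
theorem pt_self (c : J → Fin (n + 1)) (u : Affine (J × Fin n)) (q : J) : pt c u q (c q) = 1 := by
  rw [pt, Fin.insertNth_apply_same]

omit [Fintype J] [DecidableEq J] in
theorem pt_succAbove (c : J → Fin (n + 1)) (u : Affine (J × Fin n)) (q : J) (j : Fin n) :
    pt c u q ((c q).succAbove j) = u (q, j) := by
  rw [pt, Fin.insertNth_apply_succAbove]

omit [Fintype J] [DecidableEq J] in
theorem pt_ne_zero (c : J → Fin (n + 1)) (u : Affine (J × Fin n)) (q : J) : pt c u q ≠ 0 := by
  intro h
  have := congrFun h (c q)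
  rw [pt_self] at this
  exact one_ne_zero this

omit [Fintype J] [DecidableEq J] in
theorem kap_apply (c : J → Fin (n + 1)) (u : Affine (J × Fin n)) (q : J) :
    kap c u q = Projectivization.mk ℂ (pt c u q) (pt_ne_zero c u q) := rfl

/-- transition map -/
noncomputable def tr (c c' : J → Fin (n + 1)) (u' : Affine (J × Fin n)) : Affine (J × Fin n) :=
  fun qj => pt c' u' qj.1 ((c qj.1).succAbove qj.2) / pt c' u' qj.1 (c qj.1)

omit [Fintype J] [DecidableEq J] in
theorem kap_eq_iff (c c' : J → Fin (n + 1)) (u u' : Affine (J × Fin n)) :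
    kap c u = kap c' u' ↔ (∀ q, pt c' u' q (c q) ≠ 0) ∧ u = tr c c' u' := by
  constructor
  · intro h
    have h1 : ∀ q, ∃ a : ℂ, a • pt c' u' q = pt c u q := by
      intro q
      have := congrFun h q
      rw [kap_apply, kap_apply, Projectivization.mk_eq_mk_iff'] at this
      exact this
    have h2 : ∀ q, ∃ a : ℂ, a • pt c' u' q = pt c u q ∧ a * pt c' u' q (c q) = 1 := by
      intro q
      obtain ⟨a, ha⟩ := h1 q
      refine ⟨a, ha, ?_⟩
      have := congrFun ha (c q)
      rw [pt_self, Pi.smul_apply, smul_eq_mul] at this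
      exact this
    constructor
    · intro q hq
      obtain ⟨a, _, ha⟩ := h2 q
      rw [hq, mul_zero] at ha
      exact zero_ne_one ha
    · funext qj
      obtain ⟨q, j⟩ := qj
      obtain ⟨a, ha, ha1⟩ := h2 q
      have hne : pt c' u' q (c q) ≠ 0 := right_ne_zero_of_mul (ha1.symm ▸ one_ne_zero)
      show u (q, j) = pt c' u' q ((c q).succAbove j) / pt c' u' q (c q)
      rw [eq_div_iff hne, ← pt_succAbove c u q j, ← ha, Pi.smul_apply, smul_eq_mul]
      linear_combination (pt c' u' q ((c q).succAbove j)) * ha1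
  · rintro ⟨hne, rfl⟩
    funext q
    rw [kap_apply, kap_apply, Projectivization.mk_eq_mk_iff']
    refine ⟨(pt c' u' q (c q))⁻¹, ?_⟩
    funext l
    rw [Pi.smul_apply, smul_eq_mul]
    rcases Fin.eq_self_or_eq_succAbove (c q) l with h | ⟨j, h⟩
    · rw [h, pt_self, inv_mul_cancel₀ (hne q)]
    · rw [h, pt_succAbove]
      show _ = pt c' u' q ((c q).succAbove j) / pt c' u' q (c q)
      rw [div_eq_inv_mul]

omit [Fintype J] [DecidableEq J] in
theorem pt_injective (c : J → Fin (n + 1)) : Function.Injective (kap (n := n) c) := by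
  intro u u' h
  rw [kap_eq_iff] at h
  rw [h.2]
  funext qj
  obtain ⟨q, j⟩ := qj
  show pt c u' q ((c q).succAbove j) / pt c u' q (c q) = _
  rw [pt_self, div_one, pt_succAbove]

omit [Fintype J] [DecidableEq J] in
/-- the charts cover -/
theorem exists_kap_eq (y : Ord J n) : ∃ (c : J → Fin (n + 1)) (u : Affine (J × Fin n)),
    kap c u = y := by
  have h : ∀ q, ∃ l, (y q).rep l ≠ 0 := fun q => by
    by_contra hcon
    push Not at hcon
    exact (y q).rep_nonzero (funext hcon)
  choose c hc using h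
  refine ⟨c, fun qj => (y qj.1).rep ((c qj.1).succAbove qj.2) / (y qj.1).rep (c qj.1), ?_⟩
  funext q
  rw [kap_apply, ← (y q).mk_rep, Projectivization.mk_eq_mk_iff']
  refine ⟨((y q).rep (c q))⁻¹, ?_⟩
  funext l
  rw [Pi.smul_apply, smul_eq_mul]
  rcases Fin.eq_self_or_eq_succAbove (c q) l with h | ⟨j, h⟩
  · rw [h, pt_self, inv_mul_cancel₀ (hc q)]
  · rw [h, pt_succAbove, div_eq_inv_mul]

/-- clearing denominators in the transition map -/
theorem exists_clear (c c' : J → Fin (n + 1)) (f : MvPolynomial (J × Fin n) ℂ) :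
    ∃ (N : ℕ) (F : MvPolynomial (J × Fin n) ℂ), ∀ u' : Affine (J × Fin n),
      (∀ q, pt c' u' q (c q) ≠ 0) →
      eval (u' : J × Fin n → ℂ) F =
        (∏ q, pt c' u' q (c q)) ^ N * eval (tr c c' u' : J × Fin n → ℂ) f := by
  induction f using MvPolynomial.induction_on with
  | C a => exact ⟨0, C a, fun u' _ => by simp⟩
  | add p q hp hq =>
    obtain ⟨N, F, hF⟩ := hp
    obtain ⟨N', F', hF'⟩ := hq
    refine ⟨N + N', (∏ q, ptPoly c' q (c q)) ^ N' * F + (∏ q, ptPoly c' q (c q)) ^ N * F',
      fun u' hu => ?_⟩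
    have he : eval (u' : J × Fin n → ℂ) (∏ q, ptPoly c' q (c q)) = ∏ q, pt c' u' q (c q) := by
      rw [map_prod]
      exact Finset.prod_congr rfl fun q _ => eval_ptPoly c' q _ u'
    rw [map_add, map_mul, map_mul, map_pow, map_pow, he, hF u' hu, hF' u' hu, map_add]
    ring
  | mul_X p qj hp =>
    obtain ⟨N, F, hF⟩ := hp
    obtain ⟨q, j⟩ := qj
    refine ⟨N + 1, F * (ptPoly c' q ((c q).succAbove j) *
      ∏ q' ∈ Finset.univ.erase q, ptPoly c' q' (c q')), fun u' hu => ?_⟩
    have he : eval (u' : J × Fin n → ℂ) (∏ q' ∈ Finset.univ.erase q, ptPoly c' q' (c q')) =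
        ∏ q' ∈ Finset.univ.erase q, pt c' u' q' (c q') := by
      rw [map_prod]
      exact Finset.prod_congr rfl fun q _ => eval_ptPoly c' q _ u'
    have hprod : (∏ q, pt c' u' q (c q)) =
        pt c' u' q (c q) * ∏ q' ∈ Finset.univ.erase q, pt c' u' q' (c q') :=
      (Finset.mul_prod_erase _ _ (Finset.mem_univ q)).symm
    have htr : tr c c' u' (q, j) = pt c' u' q ((c q).succAbove j) / pt c' u' q (c q) := rfl
    rw [map_mul, map_mul, he, hF u' hu, map_mul, eval_X, eval_ptPoly]
    show _ = _ * (_ * tr c c' u' (q, j))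
    rw [htr, pow_succ]
    nth_rewrite 3 [hprod]
    have := hu q
    field_simp

theorem isOpenMap_kap (c : J → Fin (n + 1)) : IsOpenMap (kap (n := n) c) := by
  rw [isTopologicalBasis_affine.isOpenMap_iff]
  rintro _ ⟨f, rfl⟩
  rw [isOpen_ord]
  intro c'
  obtain ⟨N, F, hF⟩ := exists_clear c c' f
  have hset : kap c' ⁻¹' (kap c '' {x : Affine (J × Fin n) | eval (x : J × Fin n → ℂ) f ≠ 0}) =
      {x : Affine (J × Fin n) | eval (x : J × Fin n → ℂ) (F * ∏ q, ptPoly c' q (c q)) ≠ 0} := by
    apply Set.ext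
    intro u'
    have he : eval (u' : J × Fin n → ℂ) (∏ q, ptPoly c' q (c q)) = ∏ q, pt c' u' q (c q) := by
      rw [map_prod]
      exact Finset.prod_congr rfl fun q _ => eval_ptPoly c' q _ u'
    constructor
    · rintro ⟨u, hu, hk⟩
      obtain ⟨h1, rfl⟩ := (kap_eq_iff c c' u u').mp hk
      show eval (u' : J × Fin n → ℂ) (F * ∏ q, ptPoly c' q (c q)) ≠ 0
      have hp : (∏ q, pt c' u' q (c q)) ≠ 0 := Finset.prod_ne_zero_iff.mpr fun q _ => h1 q
      rw [map_mul, he, hF u' h1]
      exact mul_ne_zero (mul_ne_zero (pow_ne_zero _ hp) hu) hp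
    · intro hu'
      change eval (u' : J × Fin n → ℂ) (F * ∏ q, ptPoly c' q (c q)) ≠ 0 at hu'
      rw [map_mul, he] at hu'
      have hp := right_ne_zero_of_mul hu'
      have h1 : ∀ q, pt c' u' q (c q) ≠ 0 := fun q =>
        Finset.prod_ne_zero_iff.mp hp q (Finset.mem_univ q)
      refine ⟨tr c c' u', ?_, (kap_eq_iff c c' _ u').mpr ⟨h1, rfl⟩⟩
      have h2 := left_ne_zero_of_mul hu'
      rw [hF u' h1] at h2
      exact right_ne_zero_of_mul h2
  rw [hset]
  exact isOpen_ne_zero _

theorem isOpenEmbedding_kap (c : J → Fin (n + 1)) : IsOpenEmbedding (kap (n := n) c) :=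
  .of_continuous_injective_isOpenMap (continuous_kap c) (pt_injective c) (isOpenMap_kap c)

instance noetherian_affine {β : Type} [Finite β] : NoetherianSpace (Affine β) := by
  refine ((noetherianSpace_TFAE (Affine β)).out 0 1 :
    NoetherianSpace (Affine β) ↔ WellFoundedLT (Closeds (Affine β))).mpr ?_
  have hanti : StrictAnti (fun Z : Closeds (Affine β) => vI (Z : Set (Affine β))) := by
    intro Z₁ Z₂ hlt
    refine lt_of_le_not_ge (vI_anti hlt.le) fun hle => ?_
    exact absurd hlt (not_lt_of_ge (subset_of_vI_le Z₁.isClosed hle))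
  exact hanti.wellFoundedLT

instance noetherian_ord : NoetherianSpace (Ord J n) := by
  have h1 : ∀ c : J → Fin (n + 1), NoetherianSpace (Set.range (kap (n := n) c)) := fun c =>
    NoetherianSpace.range _ (continuous_kap c)
  have h2 : NoetherianSpace (⋃ c : J → Fin (n + 1), Set.range (kap (n := n) c) : Set (Ord J n)) :=
    NoetherianSpace.iUnion _
  have h3 : (⋃ c : J → Fin (n + 1), Set.range (kap (n := n) c) : Set (Ord J n)) = Set.univ := by
    rw [Set.eq_univ_iff_forall]
    intro y
    obtain ⟨c, u, hu⟩ := exists_kap_eq y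
    exact Set.mem_iUnion.mpr ⟨c, ⟨u, hu⟩⟩
  rw [h3] at h2
  exact noetherian_univ_iff.mp h2

/-- a closed subset of the ordered product has dimension at most `m` if its preimages in all charts
do -/
theorem dim_le_of_charts (E : Set (Ord J n)) (m : WithBot ℕ∞)
    (h : ∀ c : J → Fin (n + 1), topologicalKrullDim (kap c ⁻¹' E) ≤ m) :
    topologicalKrullDim E ≤ m := by
  rw [topologicalKrullDim, Order.krullDim_eq_iSup_coheight]
  refine iSup_le fun Z => ?_
  obtain ⟨z, hz⟩ := Z.isIrreducible'.1
  obtain ⟨c, u, hu⟩ := exists_kap_eq (z : Ord J n)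
  have hemb : IsOpenEmbedding (E.restrictPreimage (kap (n := n) c)) :=
    (isOpenEmbedding_kap c).restrictPreimage E
  have hne : ((E.restrictPreimage (kap (n := n) c)) ⁻¹' (Z : Set E)).Nonempty := by
    have huE : kap c u ∈ E := by rw [hu]; exact z.2
    refine ⟨⟨u, huE⟩, ?_⟩
    have : E.restrictPreimage (kap c) ⟨u, huE⟩ = z := Subtype.ext hu
    show E.restrictPreimage (kap c) ⟨u, huE⟩ ∈ (Z : Set E)
    rw [this]
    exact hz
  let e := IrreducibleCloseds.orderIsoOfIsOpenEmbedding _ hemb
  have h1 : IrreducibleCloseds.map _ hemb.continuous (e.symm ⟨Z, hne⟩) = Z :=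
    congrArg Subtype.val (e.apply_symm_apply ⟨Z, hne⟩)
  have h2 := hemb.coheight_map (e.symm ⟨Z, hne⟩)
  rw [h1] at h2
  rw [h2]
  refine le_trans ?_ (h c)
  rw [topologicalKrullDim, Order.krullDim_eq_iSup_coheight]
  exact le_iSup (fun Z => ((Order.coheight Z : ℕ∞) : WithBot ℕ∞)) _

theorem charts_dim_le (E : Set (Ord J n)) (c : J → Fin (n + 1)) :
    topologicalKrullDim (kap c ⁻¹' E) ≤ topologicalKrullDim E :=
  ((isOpenEmbedding_kap c).restrictPreimage E).isInducing.topologicalKrullDim_le

end MP72974f
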