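import Pool.Agent.H41.EigBasic
import Pool.Agent.H41.EigTopB

/-!
Good configurations of eigenpoints deform with the tensor.
-/

open MvPolynomial Filter
open scoped Topology

namespace MP72974f

open H41.EigAlg

/-- strict derivative of polynomial evaluation -/
theorem hasStrictFDerivAt_eval {σ : Type} [Fintype σ] (p : MvPolynomial σ ℂ) (x : σ → ℂ) :
    HasStrictFDerivAt (fun y : σ → ℂ => eval y p)
      (∑ j, eval x (pderiv j p) • (ContinuousLinearMap.proj j : (σ → ℂ) →L[ℂ] ℂ)) x := by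
  classical
  induction p using MvPolynomial.induction_on with
  | C a =>
    simp only [eval_C]
    refine (hasStrictFDerivAt_const (𝕜 := ℂ) a x).congr_fderiv ?_
    ext v
    simp
  | add p q hp hq =>
    simp only [map_add]
    refine (hp.fun_add hq).congr_fderiv ?_
    ext v
    simp [Finset.sum_add_distrib, add_mul]
  | mul_X p i hp =>
    have hX : HasStrictFDerivAt (fun y : σ → ℂ => y i)
        (ContinuousLinearMap.proj i : (σ → ℂ) →L[ℂ] ℂ) x :=
      (ContinuousLinearMap.proj i : (σ → ℂ) →L[ℂ] ℂ).hasStrictFDerivAt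
    have h := hp.fun_mul hX
    simp only [map_mul, eval_X]
    refine h.congr_fderiv ?_
    ext v
    simp only [Derivation.leibniz, smul_eq_mul, map_add, map_mul, eval_X, pderiv_X]
    simp [Finset.sum_add_distrib, add_mul, Pi.single_apply, Finset.mul_sum, mul_assoc]

/-- implicit function theorem, finite-dimensional form -/
theorem implicit_fin {E₁ : Type} [NormedAddCommGroup E₁] [NormedSpace ℂ E₁] [CompleteSpace E₁]
    {n : ℕ} (F : E₁ × (Fin n → ℂ) → (Fin n → ℂ)) (u : E₁ × (Fin n → ℂ))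
    (F' : E₁ × (Fin n → ℂ) →L[ℂ] (Fin n → ℂ)) (hF : HasStrictFDerivAt F F' u) (h0 : F u = 0)
    (hinj : ∀ η, F' (0, η) = 0 → η = 0) :
    ∃ ψ : E₁ → (Fin n → ℂ), Tendsto ψ (𝓝 u.1) (𝓝 u.2) ∧
      ∀ᶠ p in 𝓝 u, F p = 0 ↔ ψ p.1 = p.2 := by
  have hinv : (F' ∘L .inr ℂ E₁ (Fin n → ℂ)).IsInvertible := by
    have hi : Function.Injective
        ((F' ∘L .inr ℂ E₁ (Fin n → ℂ) : (Fin n → ℂ) →L[ℂ] (Fin n → ℂ)) :
          (Fin n → ℂ) →ₗ[ℂ] (Fin n → ℂ)) := by
      rw [injective_iff_map_eq_zero]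
      intro η hη
      exact hinj η (by simpa using hη)
    refine ⟨(LinearEquiv.ofInjectiveEndo _ hi).toContinuousLinearEquiv, ?_⟩
    ext v
    rfl
  refine ⟨hF.implicitFunctionOfProdDomain hinv, hF.tendsto_implicitFunctionOfProdDomain hinv, ?_⟩
  have := hF.eventually_apply_eq_iff_implicitFunctionOfProdDomain hinv
  rw [h0] at this
  exact this

variable {n d : ℕ}

theorem contDiff_minor (k : Fin d) (a b : Fin (n + 1)) :
    ContDiff ℂ 1 fun p : Tensor n d × (Fin (n + 1) → ℂ) => eval p.2 (eigMinor p.1 k a b) := by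
  have hc : ∀ j, ContDiff ℂ 1 fun p : Tensor n d × (Fin (n + 1) → ℂ) => ctr p.1 k p.2 j := by
    intro j
    simp_rw [ctr_eq]
    refine ContDiff.sum fun i _ => ?_
    split_ifs
    · refine ContDiff.mul (by fun_prop) ?_
      refine contDiff_prod fun m _ => by fun_prop
    · exact contDiff_const
  simp_rw [eval_eigMinor]
  have hv : ∀ a, ContDiff ℂ 1 fun p : Tensor n d × (Fin (n + 1) → ℂ) => p.2 a := fun a => by
    fun_prop
  exact ((hv a).mul (hc b)).sub ((hv b).mul (hc a))

theorem insertNth_add_smul (i : Fin (n + 1)) (y η : Fin n → ℂ) (t : ℂ) :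
    (i.insertNth 1 (y + t • η) : Fin (n + 1) → ℂ) =
      (i.insertNth 1 y : Fin (n + 1) → ℂ) + t • (i.insertNth 0 η : Fin (n + 1) → ℂ) := by
  funext l
  rcases Fin.eq_self_or_eq_succAbove i l with h | ⟨j, h⟩
  · simp [h]
  · simp [h]

theorem contDiff_insertNth (i : Fin (n + 1)) :
    ContDiff ℂ 1 fun p : Tensor n d × (Fin n → ℂ) =>
      ((p.1, (i.insertNth 1 p.2 : Fin (n + 1) → ℂ)) : Tensor n d × (Fin (n + 1) → ℂ)) := by
  refine contDiff_fst.prodMk ?_
  rw [contDiff_pi]
  intro l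
  rcases Fin.eq_self_or_eq_succAbove i l with h | ⟨j, h⟩
  · simp only [h, Fin.insertNth_apply_same]
    exact contDiff_const
  · simp only [h, Fin.insertNth_apply_succAbove]
    fun_prop

/-- the minors in a chart -/
noncomputable def chartMap (k : Fin d) (i : Fin (n + 1)) (p : Tensor n d × (Fin n → ℂ))
    (j : Fin n) : ℂ :=
  eval (i.insertNth 1 p.2 : Fin (n + 1) → ℂ) (eigMinor p.1 k i (i.succAbove j))

theorem chartMap_apply (k : Fin d) (i : Fin (n + 1)) (p : Tensor n d × (Fin n → ℂ)) (j : Fin n) :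
    chartMap k i p j = eval (i.insertNth 1 p.2 : Fin (n + 1) → ℂ)
      (eigMinor p.1 k i (i.succAbove j)) := rfl

theorem contDiff_chartMap (k : Fin d) (i : Fin (n + 1)) :
    ContDiff ℂ 1 (chartMap (n := n) k i) := by
  rw [contDiff_pi]
  intro j
  have h := (contDiff_minor k i (i.succAbove j)).comp (contDiff_insertNth (d := d) i)
  have h2 : (fun p => chartMap (n := n) k i p j) =
      (fun p : Tensor n d × (Fin (n + 1) → ℂ) => eval p.2 (eigMinor p.1 k i (i.succAbove j))) ∘
      fun p : Tensor n d × (Fin n → ℂ) =>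
      ((p.1, (i.insertNth 1 p.2 : Fin (n + 1) → ℂ)) : Tensor n d × (Fin (n + 1) → ℂ)) := by
    funext p
    rfl
  rw [h2]
  exact h

theorem fderiv_chartMap (k : Fin d) (i : Fin (n + 1)) (T₀ : Tensor n d) (y₀ η : Fin n → ℂ) :
    fderiv ℂ (chartMap k i) (T₀, y₀) (0, η) = (jac T₀ k i (i.insertNth 1 y₀)).mulVec η := by
  have hF : HasFDerivAt (chartMap (n := n) k i) (fderiv ℂ (chartMap k i) (T₀, y₀)) (T₀, y₀) :=
    ((contDiff_chartMap k i).differentiable one_ne_zero _).hasFDerivAt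
  have hcurve : HasDerivAt (fun t : ℂ => ((T₀, y₀ + t • η) : Tensor n d × (Fin n → ℂ)))
      (0, η) 0 := by
    refine (hasDerivAt_const (0 : ℂ) T₀).prodMk ?_
    have := ((hasDerivAt_id (0 : ℂ)).smul_const η).const_add y₀
    simpa using this
  have hF' : HasFDerivAt (chartMap (n := n) k i) (fderiv ℂ (chartMap k i) (T₀, y₀))
      (T₀, y₀ + (0 : ℂ) • η) := by
    rw [zero_smul, add_zero]; exact hF
  have h1 := hF'.comp_hasDerivAt (0 : ℂ) hcurve
  funext j
  rw [jac_mulVec]
  have h2 := (hasDerivAt_pi.mp h1) j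
  have hcurve2 : HasDerivAt (fun t : ℂ => (i.insertNth 1 y₀ : Fin (n + 1) → ℂ) +
      t • (i.insertNth 0 η : Fin (n + 1) → ℂ)) (i.insertNth 0 η : Fin (n + 1) → ℂ) 0 := by
    have := ((hasDerivAt_id (0 : ℂ)).smul_const (i.insertNth 0 η : Fin (n + 1) → ℂ)).const_add
      (i.insertNth 1 y₀ : Fin (n + 1) → ℂ)
    simpa using this
  have hev : HasFDerivAt (fun v : Fin (n + 1) → ℂ => eval v (eigMinor T₀ k i (i.succAbove j)))
      (∑ l, eval (i.insertNth 1 y₀ : Fin (n + 1) → ℂ)
        (pderiv l (eigMinor T₀ k i (i.succAbove j))) •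
          (ContinuousLinearMap.proj l : (Fin (n + 1) → ℂ) →L[ℂ] ℂ))
      ((i.insertNth 1 y₀ : Fin (n + 1) → ℂ) + (0 : ℂ) • (i.insertNth 0 η : Fin (n + 1) → ℂ)) := by
    rw [zero_smul, add_zero]
    exact (hasStrictFDerivAt_eval _ _).hasFDerivAt
  have h3 := hev.comp_hasDerivAt (0 : ℂ) hcurve2
  have heq : (fun t : ℂ => (chartMap k i ∘
      fun t : ℂ => ((T₀, y₀ + t • η) : Tensor n d × (Fin n → ℂ))) t j) =
      (fun v : Fin (n + 1) → ℂ => eval v (eigMinor T₀ k i (i.succAbove j))) ∘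
        (fun t : ℂ => (i.insertNth 1 y₀ : Fin (n + 1) → ℂ) +
      t • (i.insertNth 0 η : Fin (n + 1) → ℂ)) := by
    funext t
    rw [Function.comp_apply, Function.comp_apply, chartMap_apply, insertNth_add_smul]
  rw [heq] at h2
  have h4 := h2.unique h3
  rw [h4, dMin]
  simp [smul_eq_mul]

/-- local persistence and uniqueness of a nondegenerate eigenpoint -/
theorem eigenpoint_implicit (k : Fin d) (i : Fin (n + 1)) (T₀ : Tensor n d) (y₀ : Fin n → ℂ)
    (h0 : ∀ j, eval (i.insertNth 1 y₀ : Fin (n + 1) → ℂ) (eigMinor T₀ k i (i.succAbove j)) = 0)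
    (hdet : (jac T₀ k i (i.insertNth 1 y₀)).det ≠ 0) :
    ∃ ψ : Tensor n d → (Fin n → ℂ), Tendsto ψ (𝓝 T₀) (𝓝 y₀) ∧
      ∀ᶠ p in 𝓝 (T₀, y₀), (∀ j, eval (i.insertNth 1 p.2 : Fin (n + 1) → ℂ)
        (eigMinor p.1 k i (i.succAbove j)) = 0) ↔ ψ p.1 = p.2 := by
  have hF : HasStrictFDerivAt (chartMap (n := n) k i) (fderiv ℂ (chartMap k i) (T₀, y₀))
      (T₀, y₀) :=
    (contDiff_chartMap k i).contDiffAt.hasStrictFDerivAt one_ne_zero
  have hinj : ∀ η, fderiv ℂ (chartMap (n := n) k i) (T₀, y₀) (0, η) = 0 → η = 0 := by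
    intro η hη
    rw [fderiv_chartMap] at hη
    exact Matrix.eq_zero_of_mulVec_eq_zero hdet hη
  obtain ⟨ψ, hψ, hev⟩ := implicit_fin (chartMap k i) (T₀, y₀) _ hF (funext h0) hinj
  refine ⟨ψ, hψ, ?_⟩
  filter_upwards [hev] with p hp
  rw [← hp]
  constructor
  · intro h
    exact funext h
  · intro h j
    exact congrFun h j

/-- a good configuration in a chart: the points are exactly the eigenpoints, they are distinct
and reduced -/
structure Good {D : ℕ} (T : Tensor n d) (c : Fin d × Fin D → Fin (n + 1))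
    (u : (Fin d × Fin D) × Fin n → ℂ) : Prop where
  eig : ∀ kq a b, eval (pt c u kq) (eigMinor T kq.1 a b) = 0
  det : ∀ kq, (jac T kq.1 (c kq) (pt c u kq)).det ≠ 0
  dist : ∀ k q q', q ≠ q' → pt c u (k, q) ≠ pt c u (k, q) (c (k, q')) • pt c u (k, q')
  compl : ∀ k (v : Fin (n + 1) → ℂ), v ≠ 0 → (∀ a b, eval v (eigMinor T k a b) = 0) →
    ∃ q, v = v (c (k, q)) • pt c u (k, q)

theorem ctr_smul_vec (T : Tensor n d) (k : Fin d) (c : ℂ) (v : Fin (n + 1) → ℂ)
    (j : Fin (n + 1)) : ctr T k (c • v) j = c ^ (d - 1) * ctr T k v j := by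
  rw [ctr_eq, ctr_eq, Finset.mul_sum]
  refine Finset.sum_congr rfl fun i _ => ?_
  split_ifs
  · simp only [Pi.smul_apply, smul_eq_mul, Finset.prod_mul_distrib, Finset.prod_const]
    rw [Finset.card_erase_of_mem (Finset.mem_univ k), Finset.card_univ, Fintype.card_fin]
    ring
  · rw [mul_zero]

theorem minor_smul_vec (T : Tensor n d) (k : Fin d) (c : ℂ) (v : Fin (n + 1) → ℂ)
    (a b : Fin (n + 1)) :
    eval (c • v) (eigMinor T k a b) = c * c ^ (d - 1) * eval v (eigMinor T k a b) := by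
  rw [eval_eigMinor, eval_eigMinor, ctr_smul_vec, ctr_smul_vec, Pi.smul_apply, Pi.smul_apply,
    smul_eq_mul, smul_eq_mul]
  ring

/-- all minors vanish as soon as those with an index `i`, `v i ≠ 0`, do -/
theorem minors_of_chart (T : Tensor n d) (k : Fin d) (i : Fin (n + 1)) (v : Fin (n + 1) → ℂ)
    (hvi : v i ≠ 0) (h : ∀ j, eval v (eigMinor T k i (i.succAbove j)) = 0) :
    ∀ a b, eval v (eigMinor T k a b) = 0 := by
  have h2 : ∀ b, eval v (eigMinor T k i b) = 0 := by
    intro b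
    rcases Fin.eq_self_or_eq_succAbove i b with hb | ⟨j, hb⟩
    · rw [hb, eval_eigMinor, sub_self]
    · rw [hb]; exact h j
  intro a b
  have h1 := congrArg (eval v) (minor_rel T k i a b)
  rw [map_mul, map_sub, map_mul, map_mul, eval_X, eval_X, eval_X, h2, h2, mul_zero, mul_zero,
    sub_zero] at h1
  exact (mul_eq_zero.mp h1).resolve_left hvi

/-- the eigenpoints of nearby tensors are near the eigenpoints of `T₀` -/
theorem complete_nearby {D : ℕ} (T₀ : Tensor n d) (c : Fin d × Fin D → Fin (n + 1))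
    (u₀ : (Fin d × Fin D) × Fin n → ℂ) (h : Good T₀ c u₀) (k : Fin d)
    (N : Fin D → Set (Tensor n d × (Fin n → ℂ)))
    (hN : ∀ q, N q ∈ 𝓝 (T₀, fun j => u₀ ((k, q), j))) :
    ∀ᶠ T in 𝓝 T₀, ∀ v : Fin (n + 1) → ℂ, v ≠ 0 → (∀ a b, eval v (eigMinor T k a b) = 0) →
      ∃ q, v (c (k, q)) ≠ 0 ∧
        ((T, fun j => v ((c (k, q)).succAbove j) / v (c (k, q))) : Tensor n d × (Fin n → ℂ)) ∈
          N q := by
  have hcomp : IsCompact (Metric.sphere (0 : Fin (n + 1) → ℂ) 1) := isCompact_sphere _ _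
  have hev : ∀ᶠ T in 𝓝 T₀, ∀ v ∈ Metric.sphere (0 : Fin (n + 1) → ℂ) 1,
      (∃ a b, eval v (eigMinor T k a b) ≠ 0) ∨ ∃ q, v (c (k, q)) ≠ 0 ∧
        ((T, fun j => v ((c (k, q)).succAbove j) / v (c (k, q))) : Tensor n d × (Fin n → ℂ)) ∈
          N q := by
    refine hcomp.eventually_forall_of_forall_eventually (P := fun T v =>
      (∃ a b, eval v (eigMinor T k a b) ≠ 0) ∨ ∃ q, v (c (k, q)) ≠ 0 ∧
        ((T, fun j => v ((c (k, q)).succAbove j) / v (c (k, q))) : Tensor n d × (Fin n → ℂ)) ∈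
          N q) ?_
    intro v hv
    by_cases hm : ∀ a b, eval v (eigMinor T₀ k a b) = 0
    · have hv0 : v ≠ 0 := by
        rintro rfl
        rw [mem_sphere_zero_iff_norm, norm_zero] at hv
        exact zero_ne_one hv
      obtain ⟨q, hq⟩ := h.compl k v hv0 hm
      have hvq : v (c (k, q)) ≠ 0 := by
        intro h0
        rw [h0, zero_smul] at hq
        exact hv0 hq
      have e1 : ∀ᶠ p : Tensor n d × (Fin (n + 1) → ℂ) in 𝓝 (T₀, v), p.2 (c (k, q)) ≠ 0 := by
        have : ContinuousAt (fun p : Tensor n d × (Fin (n + 1) → ℂ) => p.2 (c (k, q))) (T₀, v) :=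
          by fun_prop
        exact this.eventually_ne hvq
      have e2 : Tendsto (fun p : Tensor n d × (Fin (n + 1) → ℂ) =>
          ((p.1, fun j => p.2 ((c (k, q)).succAbove j) / p.2 (c (k, q))) :
            Tensor n d × (Fin n → ℂ))) (𝓝 (T₀, v)) (𝓝 (T₀, fun j => u₀ ((k, q), j))) := by
        have h3 : (fun j => u₀ ((k, q), j)) =
            fun j => v ((c (k, q)).succAbove j) / v (c (k, q)) := by
          funext j
          have := congrFun hq ((c (k, q)).succAbove j)
          rw [Pi.smul_apply, smul_eq_mul, pt_succAbove] at this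
          rw [eq_div_iff hvq, this]
          ring
        rw [h3]
        have : ContinuousAt (fun p : Tensor n d × (Fin (n + 1) → ℂ) =>
          ((p.1, fun j => p.2 ((c (k, q)).succAbove j) / p.2 (c (k, q))) :
            Tensor n d × (Fin n → ℂ))) (T₀, v) := by
          refine continuousAt_fst.prodMk ?_
          rw [continuousAt_pi]
          intro j
          refine ContinuousAt.div (by fun_prop) (by fun_prop) hvq
        exact this
      filter_upwards [e1, e2 (hN q)] with p hp1 hp2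
      exact Or.inr ⟨q, hp1, hp2⟩
    · push Not at hm
      obtain ⟨a, b, hab⟩ := hm
      have := (continuous_minor (n := n) k a b).continuousAt (x := (T₀, v))
      filter_upwards [this.eventually_ne hab] with p hp
      exact Or.inl ⟨a, b, hp⟩
  filter_upwards [hev] with T hT v hv0 hm
  have hnorm : (‖v‖ : ℂ) ≠ 0 := by
    rw [Ne, Complex.ofReal_eq_zero, norm_eq_zero]; exact hv0
  set s : ℂ := (‖v‖ : ℂ)⁻¹ with hs
  have hs0 : s ≠ 0 := inv_ne_zero hnorm
  have hmem : s • v ∈ Metric.sphere (0 : Fin (n + 1) → ℂ) 1 := by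
    rw [mem_sphere_zero_iff_norm, norm_smul, hs, norm_inv, Complex.norm_real, norm_norm]
    exact inv_mul_cancel₀ (norm_ne_zero_iff.mpr hv0)
  rcases hT (s • v) hmem with ⟨a, b, hab⟩ | ⟨q, hq1, hq2⟩
  · rw [minor_smul_vec, hm, mul_zero] at hab
    exact absurd rfl hab
  · refine ⟨q, ?_, ?_⟩
    · rw [Pi.smul_apply, smul_eq_mul] at hq1
      exact right_ne_zero_of_mul hq1
    · have : (fun j => (s • v) ((c (k, q)).succAbove j) / (s • v) (c (k, q))) =
          fun j => v ((c (k, q)).succAbove j) / v (c (k, q)) := by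
        funext j
        rw [Pi.smul_apply, Pi.smul_apply, smul_eq_mul, smul_eq_mul, mul_div_mul_left _ _ hs0]
      rw [this] at hq2
      exact hq2

theorem continuous_pt {J : Type} (c : J → Fin (n + 1)) (q : J) :
    Continuous fun u : J × Fin n → ℂ => pt c u q := by
  rw [continuous_pi_iff]
  intro l
  rcases Fin.eq_self_or_eq_succAbove (c q) l with h | ⟨j, h⟩
  · have : (fun u : J × Fin n → ℂ => pt c u q l) = fun _ => 1 := by
      funext u; rw [h, pt_self]
    rw [this]; exact continuous_const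
  · have : (fun u : J × Fin n → ℂ => pt c u q l) = fun u => u (q, j) := by
      funext u; rw [h, pt_succAbove]
    rw [this]; fun_prop

theorem jac_apply (T : Tensor n d) (k : Fin d) (i : Fin (n + 1)) (v : Fin (n + 1) → ℂ)
    (j j' : Fin n) : jac T k i v j j' =
      eval v (pderiv (i.succAbove j') (eigMinor T k i (i.succAbove j))) := rfl

theorem continuous_jac_det (k : Fin d) (i : Fin (n + 1)) :
    Continuous fun p : Tensor n d × (Fin (n + 1) → ℂ) => (jac p.1 k i p.2).det := by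
  refine Continuous.matrix_det ?_
  refine continuous_matrix fun a b => ?_
  simp_rw [jac_apply]
  exact continuous_pderiv_minor k _ _ _

/-- good configurations deform -/
theorem perturb {D : ℕ} (T₀ : Tensor n d) (c : Fin d × Fin D → Fin (n + 1))
    (u₀ : (Fin d × Fin D) × Fin n → ℂ) (h : Good T₀ c u₀)
    (U : Set ((Fin d × Fin D) × Fin n → ℂ)) (hU : U ∈ 𝓝 u₀) :
    ∀ᶠ T in 𝓝 T₀, ∃ u ∈ U, Good T c u := by
  have hins : ∀ kq, ((c kq).insertNth 1 (fun j => u₀ (kq, j)) : Fin (n + 1) → ℂ) =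
    pt c u₀ kq := fun kq => rfl
  choose ψ hψ hev using fun kq : Fin d × Fin D => eigenpoint_implicit kq.1 (c kq) T₀
    (fun j => u₀ (kq, j)) (by
      intro j
      rw [hins]
      exact h.eig kq _ _) (by
      rw [hins]
      exact h.det kq)
  -- the configuration attached to `T`
  let uu : Tensor n d → ((Fin d × Fin D) × Fin n → ℂ) := fun T x => ψ x.1 T x.2
  have huu : Tendsto uu (𝓝 T₀) (𝓝 u₀) := by
    rw [tendsto_pi_nhds]
    intro x
    exact (tendsto_pi_nhds.mp (hψ x.1)) x.2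
  -- eigenpoints
  have e1 : ∀ᶠ T in 𝓝 T₀, ∀ kq a b, eval (pt c (uu T) kq) (eigMinor T kq.1 a b) = 0 := by
    rw [eventually_all]
    intro kq
    have h1 : Tendsto (fun T => ((T, ψ kq T) : Tensor n d × (Fin n → ℂ))) (𝓝 T₀)
        (𝓝 (T₀, fun j => u₀ (kq, j))) := tendsto_id.prodMk_nhds (hψ kq)
    filter_upwards [h1.eventually (hev kq)] with T hT
    have h2 := hT.mpr rfl
    refine minors_of_chart T kq.1 (c kq) (pt c (uu T) kq) ?_ h2
    rw [pt_self]
    exact one_ne_zero
  -- determinants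
  have e2 : ∀ᶠ T in 𝓝 T₀, ∀ kq, (jac T kq.1 (c kq) (pt c (uu T) kq)).det ≠ 0 := by
    rw [eventually_all]
    intro kq
    have h1 : Tendsto (fun T => ((T, pt c (uu T) kq) : Tensor n d × (Fin (n + 1) → ℂ)))
        (𝓝 T₀) (𝓝 (T₀, pt c u₀ kq)) :=
      tendsto_id.prodMk_nhds (((continuous_pt c kq).tendsto u₀).comp huu)
    have h2 := (continuous_jac_det (d := d) kq.1 (c kq)).continuousAt (x := (T₀, pt c u₀ kq))
    exact h1.eventually (h2.eventually_ne (h.det kq))
  -- distinctness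
  have e3 : ∀ᶠ T in 𝓝 T₀, ∀ k q q', q ≠ q' →
      pt c (uu T) (k, q) ≠ pt c (uu T) (k, q) (c (k, q')) • pt c (uu T) (k, q') := by
    rw [eventually_all]; intro k
    rw [eventually_all]; intro q
    rw [eventually_all]; intro q'
    by_cases hqq : q = q'
    · exact Eventually.of_forall fun T h => absurd hqq h
    · have hc1 : Continuous fun u : (Fin d × Fin D) × Fin n → ℂ => pt c u (k, q) :=
        continuous_pt c _
      have hc2 : Continuous fun u : (Fin d × Fin D) × Fin n → ℂ =>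
          pt c u (k, q) (c (k, q')) • pt c u (k, q') :=
        ((continuous_apply _).comp (continuous_pt c _)).smul (continuous_pt c _)
      have h4 : ∀ᶠ u : (Fin d × Fin D) × Fin n → ℂ in 𝓝 u₀, pt c u (k, q) ≠ pt c u (k, q) (c (k, q')) • pt c u (k, q') :=
        (isOpen_ne_fun hc1 hc2).mem_nhds (h.dist k q q' hqq)
      filter_upwards [huu.eventually h4] with T hT _
      exact hT
  -- completeness
  have e4 : ∀ᶠ T in 𝓝 T₀, ∀ k (v : Fin (n + 1) → ℂ), v ≠ 0 →
      (∀ a b, eval v (eigMinor T k a b) = 0) →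
      ∃ q, v = v (c (k, q)) • pt c (uu T) (k, q) := by
    rw [eventually_all]
    intro k
    filter_upwards [complete_nearby T₀ c u₀ h k (fun q => {p | (∀ j, eval
      ((c (k, q)).insertNth 1 p.2 : Fin (n + 1) → ℂ)
        (eigMinor p.1 k (c (k, q)) ((c (k, q)).succAbove j)) = 0) ↔ ψ (k, q) p.1 = p.2})
      (fun q => hev (k, q))] with T hT v hv0 hm
    obtain ⟨q, hq1, hq2⟩ := hT v hv0 hm
    refine ⟨q, ?_⟩
    set y : Fin n → ℂ := fun j => v ((c (k, q)).succAbove j) / v (c (k, q)) with hy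
    have hvy : v = v (c (k, q)) • ((c (k, q)).insertNth 1 y : Fin (n + 1) → ℂ) := by
      funext l
      rw [Pi.smul_apply, smul_eq_mul]
      rcases Fin.eq_self_or_eq_succAbove (c (k, q)) l with h | ⟨j, h⟩
      · rw [h, Fin.insertNth_apply_same, mul_one]
      · rw [h, Fin.insertNth_apply_succAbove, hy]
        field_simp
    have h5 : ∀ j, eval ((c (k, q)).insertNth 1 y : Fin (n + 1) → ℂ)
        (eigMinor T k (c (k, q)) ((c (k, q)).succAbove j)) = 0 := by
      intro j
      have h6 := hm (c (k, q)) ((c (k, q)).succAbove j)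
      rw [hvy, minor_smul_vec] at h6
      rcases mul_eq_zero.mp h6 with h7 | h7
      · rcases mul_eq_zero.mp h7 with h8 | h8
        · exact absurd h8 hq1
        · exact absurd (eq_zero_of_pow_eq_zero h8) hq1
      · exact h7
    have h9 : ψ (k, q) T = y := hq2.mp h5
    have h10 : pt c (uu T) (k, q) = ((c (k, q)).insertNth 1 y : Fin (n + 1) → ℂ) := by
      rw [← h9]; rfl
    rw [h10]
    exact hvy
  filter_upwards [e1, e2, e3, e4, huu hU] with T h1 h2 h3 h4 h5
  exact ⟨uu T, h5, ⟨h1, h2, h3, h4⟩⟩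

end MP72974f
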