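import Pool.Agent.H41.EigRankA
import Pool.Agent.H41.EigPerturb

/-!
The Fermat tensor and its eigenpoints.
-/

open MvPolynomial

namespace MP72974f

variable {n d : ℕ}

/-- weights -/
noncomputable def th (j : Fin (n + 1)) : ℂ := if j = 0 then 2 else 1

theorem th_ne (j : Fin (n + 1)) : th j ≠ 0 := by
  rw [th]; split_ifs
  · exact two_ne_zero
  · exact one_ne_zero

/-- the (weighted) Fermat tensor -/
noncomputable def fermat (n d : ℕ) : Tensor n d := ∑ j, th j • Pi.single (fun _ => j) 1

theorem contraction_fermat (k : Fin d) (j : Fin (n + 1)) :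
    contraction (fermat n d) k j = C (th j) * X j ^ (d - 1) := by
  have h1 : contraction (fermat n d) k j =
      ∑ l, C (th l) * contraction (Pi.single (fun _ => l) 1 : Tensor n d) k j := by
    have : ctrLin k j (fermat n d) = ∑ l, ctrLin k j (th l • Pi.single (fun _ => l) 1) := by
      rw [fermat, map_sum]
    rw [← ctrLin_apply, this]
    refine Finset.sum_congr rfl fun l _ => ?_
    rw [map_smul, smul_eq_C_mul, ctrLin_apply]
  rw [h1, Finset.sum_eq_single j]
  · rw [contraction_single, if_pos rfl, wordProd, Finset.prod_const,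
      Finset.card_erase_of_mem (Finset.mem_univ k), Finset.card_univ, Fintype.card_fin]
  · intro l _ hl
    rw [contraction_single, if_neg hl, mul_zero]
  · intro h; exact absurd (Finset.mem_univ _) h

theorem eval_minor_fermat (k : Fin d) (v : Fin (n + 1) → ℂ) (a b : Fin (n + 1)) :
    eval v (eigMinor (fermat n d) k a b) =
      v a * (th b * v b ^ (d - 1)) - v b * (th a * v a ^ (d - 1)) := by
  rw [eigMinor, contraction_fermat, contraction_fermat]
  simp

/-- the finite set of solutions of `x ^ m = a` -/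
noncomputable def rts (m : ℕ) (a : ℂ) : Finset ℂ := (Polynomial.nthRoots m a).toFinset

theorem mem_rts {m : ℕ} (hm : 0 < m) {a x : ℂ} : x ∈ rts m a ↔ x ^ m = a := by
  rw [rts, Multiset.mem_toFinset, Polynomial.mem_nthRoots hm]

theorem card_rts {m : ℕ} (hm : 0 < m) {a : ℂ} (ha : a ≠ 0) : (rts m a).card = m := by
  have hζ := Complex.isPrimitiveRoot_exp m hm.ne'
  rw [rts, Multiset.toFinset_card_of_nodup (hζ.nthRoots_nodup ha), hζ.card_nthRoots, if_pos]
  exact IsAlgClosed.exists_pow_nat_eq a hm

/-- possible values of the `j`-th coordinate of a normalised eigenvector whose first nonzero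
coordinate has index `i` -/
noncomputable def vals (n d : ℕ) (i j : Fin (n + 1)) : Finset ℂ :=
  if j < i then {0} else if j = i then {1} else insert 0 (rts (d - 2) (th i / th j))

theorem card_vals (hd : 3 ≤ d) (i j : Fin (n + 1)) :
    (vals n d i j).card = if i < j then d - 1 else 1 := by
  rw [vals]
  split_ifs with h1 h2 h3 h4 h5
  · exact absurd (lt_trans h1 h2) (lt_irrefl _)
  · rw [Finset.card_singleton]
  · exact absurd (h3 ▸ h4) (lt_irrefl _)
  · rw [Finset.card_singleton]
  · rw [Finset.card_insert_of_notMem, card_rts (by omega) (div_ne_zero (th_ne _) (th_ne _))]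
    · omega
    · rw [mem_rts (by omega), zero_pow (by omega)]
      exact (div_ne_zero (th_ne _) (th_ne _)).symm
  · exact absurd (lt_of_le_of_ne (not_lt.mp h1) (Ne.symm h3)) h5

/-- normalised eigenvectors -/
noncomputable def nrm (n d : ℕ) (i : Fin (n + 1)) : Finset (Fin (n + 1) → ℂ) :=
  Fintype.piFinset (vals n d i)

theorem card_nrm (hd : 3 ≤ d) (i : Fin (n + 1)) : (nrm n d i).card = (d - 1) ^ (n - i) := by
  rw [nrm, Fintype.card_piFinset]
  simp_rw [card_vals hd]
  rw [Finset.prod_ite, Finset.prod_const_one, mul_one, Finset.prod_const]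
  congr 1
  have : (Finset.univ.filter fun j : Fin (n + 1) => i < j) = Finset.Ioi i := by
    ext j; simp
  rw [this, Fin.card_Ioi]
  omega

theorem mem_nrm {i : Fin (n + 1)} {v : Fin (n + 1) → ℂ} :
    v ∈ nrm n d i ↔ ∀ j, v j ∈ vals n d i j := Fintype.mem_piFinset

theorem nrm_lt {i j : Fin (n + 1)} {v : Fin (n + 1) → ℂ} (hv : v ∈ nrm n d i) (hj : j < i) :
    v j = 0 := by
  have := mem_nrm.mp hv j
  rw [vals, if_pos hj] at this
  exact Finset.mem_singleton.mp this

theorem nrm_self {i : Fin (n + 1)} {v : Fin (n + 1) → ℂ} (hv : v ∈ nrm n d i) : v i = 1 := by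
  have := mem_nrm.mp hv i
  rw [vals, if_neg (lt_irrefl _), if_pos rfl] at this
  exact Finset.mem_singleton.mp this

theorem nrm_pow (hd : 3 ≤ d) {i j : Fin (n + 1)} {v : Fin (n + 1) → ℂ} (hv : v ∈ nrm n d i)
    (hj : v j ≠ 0) : th j * v j ^ (d - 2) = th i := by
  rcases lt_trichotomy j i with h | h | h
  · exact absurd (nrm_lt hv h) hj
  · rw [h, nrm_self hv, one_pow, mul_one]
  · have := mem_nrm.mp hv j
    rw [vals, if_neg (not_lt_of_gt h), if_neg (ne_of_gt h), Finset.mem_insert,
      mem_rts (by omega)] at this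
    rw [this.resolve_left hj]
    have := th_ne j
    field_simp

/-- a normalised vector is an eigenvector -/
theorem nrm_eigen (hd : 3 ≤ d) {i : Fin (n + 1)} {v : Fin (n + 1) → ℂ} (hv : v ∈ nrm n d i)
    (j : Fin (n + 1)) : th j * v j ^ (d - 1) = th i * v j := by
  by_cases hj : v j = 0
  · rw [hj, zero_pow (by omega), mul_zero, mul_zero]
  · rw [← nrm_pow hd hv hj, show d - 1 = (d - 2) + 1 by omega, pow_succ]
    ring

theorem nrm_disjoint {i i' : Fin (n + 1)} (h : i ≠ i') : Disjoint (nrm n d i) (nrm n d i') := by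
  rw [Finset.disjoint_left]
  intro v hv hv'
  rcases lt_or_gt_of_ne h with h | h
  · have := nrm_lt hv' h
    rw [nrm_self hv] at this
    exact one_ne_zero this
  · have := nrm_lt hv h
    rw [nrm_self hv'] at this
    exact one_ne_zero this

/-- all normalised eigenvectors -/
noncomputable def allNrm (n d : ℕ) : Finset (Fin (n + 1) → ℂ) := Finset.univ.biUnion (nrm n d)

theorem numPoints_eq (hd : 3 ≤ d) : numPoints n d = ∑ i ∈ Finset.range (n + 1), (d - 1) ^ i := by
  rw [numPoints, Nat.geomSum_eq (by omega)]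
  congr 1

theorem card_allNrm (hd : 3 ≤ d) : (allNrm n d).card = numPoints n d := by
  rw [allNrm, Finset.card_biUnion (fun i _ i' _ h => nrm_disjoint h), numPoints_eq hd]
  simp_rw [card_nrm hd]
  rw [Fin.sum_univ_eq_sum_range (fun i => (d - 1) ^ (n - i)) (n + 1)]
  have := Finset.sum_range_reflect (fun i => (d - 1) ^ i) (n + 1)
  rw [← this]
  refine Finset.sum_congr rfl fun i _ => ?_
  congr 1

/-- the enumeration of the eigenpoints of the Fermat tensor -/
theorem exists_enum (hd : 3 ≤ d) : ∃ P : Fin (numPoints n d) → (Fin (n + 1) → ℂ),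
    Function.Injective P ∧ ∀ v, v ∈ allNrm n d ↔ ∃ q, P q = v := by
  have e : Fin (numPoints n d) ≃ allNrm n d := by
    refine (Fintype.equivFinOfCardEq ?_).symm
    rw [Fintype.card_coe, card_allNrm hd]
  refine ⟨fun q => (e q).1, Subtype.val_injective.comp e.injective, fun v => ⟨fun hv => ?_, ?_⟩⟩
  · refine ⟨e.symm ⟨v, hv⟩, ?_⟩
    show (e (e.symm ⟨v, hv⟩)).1 = v
    rw [e.apply_symm_apply]
  · rintro ⟨q, rfl⟩
    exact (e q).2

/-- directional derivative -/
noncomputable def dDir (v w : Fin (n + 1) → ℂ) (p : MvPolynomial (Fin (n + 1)) ℂ) : ℂ :=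
  ∑ j, eval v (pderiv j p) * w j

theorem dDir_mul (v w : Fin (n + 1) → ℂ) (p q : MvPolynomial (Fin (n + 1)) ℂ) :
    dDir v w (p * q) = eval v p * dDir v w q + eval v q * dDir v w p := by
  rw [dDir, dDir, dDir, Finset.mul_sum, Finset.mul_sum, ← Finset.sum_add_distrib]
  refine Finset.sum_congr rfl fun j _ => ?_
  rw [Derivation.leibniz, smul_eq_mul, smul_eq_mul, map_add, map_mul, map_mul]
  ring

theorem dDir_sub (v w : Fin (n + 1) → ℂ) (p q : MvPolynomial (Fin (n + 1)) ℂ) :
    dDir v w (p - q) = dDir v w p - dDir v w q := by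
  rw [dDir, dDir, dDir, ← Finset.sum_sub_distrib]
  refine Finset.sum_congr rfl fun j _ => ?_
  rw [map_sub, map_sub, sub_mul]

theorem dDir_C (v w : Fin (n + 1) → ℂ) (c : ℂ) : dDir v w (C c) = 0 := by
  rw [dDir]
  refine Finset.sum_eq_zero fun j _ => ?_
  rw [pderiv_C, map_zero, zero_mul]

theorem dDir_X (v w : Fin (n + 1) → ℂ) (a : Fin (n + 1)) : dDir v w (X a) = w a := by
  rw [dDir, Finset.sum_eq_single a]
  · rw [pderiv_X, Pi.single_eq_same, map_one, one_mul]
  · intro j _ hj
    rw [pderiv_X, Pi.single_eq_of_ne (Ne.symm hj), map_zero, zero_mul]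
  · intro h; exact absurd (Finset.mem_univ _) h

theorem dDir_pow (v w : Fin (n + 1) → ℂ) (a : Fin (n + 1)) (m : ℕ) :
    dDir v w (X a ^ (m + 1)) = (m + 1) * v a ^ m * w a := by
  induction m with
  | zero => rw [pow_one, dDir_X]; simp
  | succ m ih =>
    rw [pow_succ, dDir_mul, ih, dDir_X, map_pow, eval_X]
    push_cast
    ring

theorem dMin_fermat (hd : 3 ≤ d) (k : Fin d) (v w : Fin (n + 1) → ℂ) (a b : Fin (n + 1)) :
    dMin (fermat n d) k v w a b =
      (v a * (th b * ((d - 1 : ℕ) * v b ^ (d - 2) * w b)) + th b * v b ^ (d - 1) * w a) -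
      (v b * (th a * ((d - 1 : ℕ) * v a ^ (d - 2) * w a)) + th a * v a ^ (d - 1) * w b) := by
  have h1 : dMin (fermat n d) k v w a b = dDir v w (eigMinor (fermat n d) k a b) := rfl
  obtain ⟨m, rfl⟩ : ∃ m, d = m + 2 := ⟨d - 2, by omega⟩
  rw [h1, eigMinor, contraction_fermat, contraction_fermat]
  have e1 : m + 2 - 1 = m + 1 := rfl
  have e2 : m + 2 - 2 = m := rfl
  rw [e1, e2, dDir_sub, dDir_mul, dDir_mul, dDir_mul, dDir_mul, dDir_X, dDir_X, dDir_C, dDir_C,
    dDir_pow, dDir_pow]
  simp only [map_mul, map_pow, eval_X, eval_C]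
  push_cast
  ring

/-- the Fermat tensor is reduced at normalised eigenvectors -/
theorem fermat_reduced (hd : 3 ≤ d) (k : Fin d) {i : Fin (n + 1)} {v : Fin (n + 1) → ℂ}
    (hv : v ∈ nrm n d i) (w : Fin (n + 1) → ℂ)
    (hw : ∀ a b, dMin (fermat n d) k v w a b = 0) : w = w i • v := by
  funext b
  rw [Pi.smul_apply, smul_eq_mul]
  have h1 := hw i b
  rw [dMin_fermat hd, nrm_self hv, one_pow, one_pow] at h1
  obtain ⟨m, rfl⟩ : ∃ m, d = m + 3 := ⟨d - 3, by omega⟩
  have e1 : m + 3 - 1 = m + 2 := rfl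
  have e2 : m + 3 - 2 = m + 1 := rfl
  rw [e1, e2] at h1
  by_cases hb : v b = 0
  · rw [hb, zero_pow (by omega), zero_pow (by omega)] at h1
    rw [hb, mul_zero]
    have h2 : th i * w b = 0 := by linear_combination -h1
    exact (mul_eq_zero.mp h2).resolve_left (th_ne i)
  · have h3 := nrm_pow hd hv hb
    rw [e2] at h3
    have h4 : th b * v b ^ (m + 2) = th i * v b := by
      rw [← h3, pow_succ]; ring
    have h5 : ((m + 1 : ℕ) : ℂ) * (th i * (w b - w i * v b)) = 0 := by
      push_cast at h1 ⊢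
      linear_combination h1 - ((m : ℂ) + 2) * w b * h3 - w i * h4
    have h6 : ((m + 1 : ℕ) : ℂ) ≠ 0 := Nat.cast_ne_zero.mpr (Nat.succ_ne_zero _)
    have h7 := (mul_eq_zero.mp ((mul_eq_zero.mp h5).resolve_left h6)).resolve_left (th_ne i)
    linear_combination h7

/-- every eigenvector of the Fermat tensor is proportional to a normalised one -/
theorem fermat_complete (hd : 3 ≤ d) (k : Fin d) (v : Fin (n + 1) → ℂ) (hv0 : v ≠ 0)
    (hv : ∀ a b, eval v (eigMinor (fermat n d) k a b) = 0) :
    ∃ i, ∃ w ∈ nrm n d i, v = v i • w := by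
  classical
  -- the first nonzero coordinate
  have hex : (Finset.univ.filter fun j => v j ≠ 0).Nonempty := by
    by_contra h
    rw [Finset.not_nonempty_iff_eq_empty, Finset.filter_eq_empty_iff] at h
    apply hv0
    funext j
    exact not_not.mp (h (Finset.mem_univ j))
  set i := (Finset.univ.filter fun j => v j ≠ 0).min' hex with hi
  have hvi : v i ≠ 0 := (Finset.mem_filter.mp (Finset.min'_mem _ hex)).2
  have hlt : ∀ j, j < i → v j = 0 := by
    intro j hj
    by_contra h
    have := Finset.min'_le (Finset.univ.filter fun j => v j ≠ 0) j (by simp [h])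
    exact absurd hj (not_lt_of_ge this)
  refine ⟨i, fun j => v j / v i, ?_, ?_⟩
  · rw [mem_nrm]
    intro j
    rw [vals]
    split_ifs with h1 h2
    · rw [hlt j h1, zero_div]; exact Finset.mem_singleton_self _
    · rw [h2, div_self hvi]; exact Finset.mem_singleton_self _
    · rw [Finset.mem_insert, mem_rts (by omega)]
      by_cases hj : v j = 0
      · left; rw [hj, zero_div]
      · right
        have h3 := hv i j
        rw [eval_minor_fermat, show d - 1 = (d - 2) + 1 by omega, pow_succ, pow_succ] at h3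
        have h4 : th j * v j ^ (d - 2) = th i * v i ^ (d - 2) := by
          have h5 : v i * v j * (th j * v j ^ (d - 2) - th i * v i ^ (d - 2)) = 0 := by
            linear_combination h3
          have h6 := (mul_eq_zero.mp h5).resolve_left (mul_ne_zero hvi hj)
          linear_combination h6
        rw [div_pow, div_eq_div_iff (pow_ne_zero _ hvi) (th_ne j)]
        linear_combination h4
  · funext j
    rw [Pi.smul_apply, smul_eq_mul]
    field_simp

/-- the Fermat tensor has a good configuration -/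
theorem exists_good_fermat (hd : 3 ≤ d) : ∃ (c : Fin d × Fin (numPoints n d) → Fin (n + 1))
    (u : (Fin d × Fin (numPoints n d)) × Fin n → ℂ), Good (fermat n d) c u := by
  obtain ⟨P, hPinj, hP⟩ := exists_enum (n := n) hd
  have hc : ∀ q, ∃ i, P q ∈ nrm n d i := by
    intro q
    have := (hP (P q)).mpr ⟨q, rfl⟩
    rw [allNrm, Finset.mem_biUnion] at this
    obtain ⟨i, _, hi⟩ := this
    exact ⟨i, hi⟩
  choose i hi using hc
  let c : Fin d × Fin (numPoints n d) → Fin (n + 1) := fun kq => i kq.2
  let u : (Fin d × Fin (numPoints n d)) × Fin n → ℂ := fun x =>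
    P x.1.2 ((i x.1.2).succAbove x.2)
  have hpt : ∀ kq, pt c u kq = P kq.2 := by
    intro kq
    funext l
    rcases Fin.eq_self_or_eq_succAbove (c kq) l with h | ⟨j, h⟩
    · rw [h, pt_self]
      exact (nrm_self (hi kq.2)).symm
    · rw [h, pt_succAbove]
  have heig : ∀ (k : Fin d) q a b, eval (P q) (eigMinor (fermat n d) k a b) = 0 := by
    intro k q a b
    rw [eval_minor_fermat, nrm_eigen hd (hi q), nrm_eigen hd (hi q)]
    ring
  refine ⟨c, u, ⟨?_, ?_, ?_, ?_⟩⟩
  · intro kq a b
    rw [hpt]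
    exact heig _ _ _ _
  · intro kq
    rw [hpt]
    refine (reduced_iff_det (by omega) (fermat n d) kq.1 (c kq) (P kq.2) (nrm_self (hi kq.2))
      (heig kq.1 kq.2)).mp ?_
    intro w hw
    exact ⟨w (i kq.2), fermat_reduced hd kq.1 (hi kq.2) w hw⟩
  · intro k q q' hqq h
    rw [hpt, hpt] at h
    apply hqq
    apply hPinj
    set t := P q (c (k, q')) with ht
    have ht0 : t ≠ 0 := by
      intro h0
      rw [h0, zero_smul] at h
      have := congrFun h (i q)
      rw [nrm_self (hi q)] at this
      exact one_ne_zero this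
    have h1 : i q ≤ i q' := by
      by_contra hcon
      exact ht0 (nrm_lt (hi q) (not_le.mp hcon))
    have h2 : i q' ≤ i q := by
      by_contra hcon
      have h3 := congrFun h (i q)
      rw [nrm_self (hi q), Pi.smul_apply, nrm_lt (hi q') (not_le.mp hcon), smul_zero] at h3
      exact one_ne_zero h3
    have h4 : i q = i q' := le_antisymm h1 h2
    have h5 : t = 1 := by
      rw [ht]
      show P q (i q') = 1
      rw [← h4]
      exact nrm_self (hi q)
    rw [h5, one_smul] at h
    exact h
  · intro k v hv0 hv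
    obtain ⟨i', w, hw, hvw⟩ := fermat_complete hd k v hv0 hv
    obtain ⟨q, hq⟩ := (hP w).mp (Finset.mem_biUnion.mpr ⟨i', Finset.mem_univ _, hw⟩)
    refine ⟨q, ?_⟩
    rw [hpt]
    show v = v (i q) • P q
    have h1 : v (i q) = v i' := by
      have := congrFun hvw (i q)
      rw [Pi.smul_apply, smul_eq_mul, ← hq, nrm_self (hi q), mul_one] at this
      exact this
    rw [h1, hq]
    exact hvw

end MP72974f
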