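import Pool.Agent.H41.EigTopB

/-!
The quotient map from ordered tuples to the product of symmetric powers, and the dimension of
closed subsets of the latter.
-/

open MvPolynomial TopologicalSpace Topology
open scoped LinearAlgebra.Projectivization

namespace MP72974f

open H41.EigAlg

/-- two functions with the same multiset of values differ by a permutation -/
theorem exists_perm_of_map_eq {D : ℕ} {α : Type} (f g : Fin D → α)
    (h : (Finset.univ : Finset (Fin D)).val.map f = (Finset.univ : Finset (Fin D)).val.map g) :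
    ∃ σ : Equiv.Perm (Fin D), ∀ q, g (σ q) = f q := by
  classical
  have hc : ∀ a, Fintype.card {q // f q = a} = Fintype.card {q // g q = a} := by
    intro a
    have h1 : Multiset.count a ((Finset.univ : Finset (Fin D)).val.map f) =
      Multiset.count a ((Finset.univ : Finset (Fin D)).val.map g) := by rw [h]
    rw [Multiset.count_map, Multiset.count_map] at h1
    rw [Fintype.card_subtype, Fintype.card_subtype]
    have e1 : (Finset.univ.filter fun q => f q = a).card =
        (Multiset.filter (fun b => a = f b) (Finset.univ : Finset (Fin D)).val).card := by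
      rw [Finset.card_def, Finset.filter_val]
      congr 1
      exact Multiset.filter_congr fun _ _ => eq_comm
    have e2 : (Finset.univ.filter fun q => g q = a).card =
        (Multiset.filter (fun b => a = g b) (Finset.univ : Finset (Fin D)).val).card := by
      rw [Finset.card_def, Finset.filter_val]
      congr 1
      exact Multiset.filter_congr fun _ _ => eq_comm
    rw [e1, e2, h1]
  let e : ∀ a, {q // f q = a} ≃ {q // g q = a} := fun a => Fintype.equivOfCardEq (hc a)
  exact ⟨Equiv.ofFiberEquiv e, fun q => Equiv.ofFiberEquiv_map e q⟩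

variable {n d : ℕ}

/-- the quotient map -/
noncomputable def proj (y : Ord (Fin d × Fin (numPoints n d)) n) : SymProd n d :=
  fun k => ⟨(Finset.univ : Finset (Fin (numPoints n d))).val.map (fun q => y (k, q)), by simp⟩

theorem chart_eq (c : Fin d × Fin (numPoints n d) → Fin (n + 1)) :
    (chart c : _ → SymProd n d) = proj ∘ kap c := rfl

theorem isOpen_symProd {U : Set (SymProd n d)} : IsOpen U ↔ IsOpen (proj ⁻¹' U) := by
  have : IsOpen U ↔ ∀ c : Fin d × Fin (numPoints n d) → Fin (n + 1),
      IsOpen[TopologicalSpace.coinduced (chart c) inferInstance] U := isOpen_iSup_iff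
  rw [this, isOpen_ord]
  exact forall_congr' fun c => isOpen_coinduced

theorem continuous_proj : Continuous (proj : Ord (Fin d × Fin (numPoints n d)) n → SymProd n d) :=
  continuous_def.mpr fun _ hU => isOpen_symProd.mp hU

theorem isClosed_symProd {U : Set (SymProd n d)} : IsClosed U ↔ IsClosed (proj ⁻¹' U) := by
  rw [← isOpen_compl_iff, ← isOpen_compl_iff, isOpen_symProd, Set.preimage_compl]

/-- permutation action -/
def act (σ : Fin d → Equiv.Perm (Fin (numPoints n d))) (y : Ord (Fin d × Fin (numPoints n d)) n) :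
    Ord (Fin d × Fin (numPoints n d)) n := fun kq => y (kq.1, σ kq.1 kq.2)

theorem continuous_act (σ : Fin d → Equiv.Perm (Fin (numPoints n d))) :
    Continuous (act σ : Ord (Fin d × Fin (numPoints n d)) n → _) := by
  rw [continuous_def]
  intro U hU
  rw [isOpen_ord]
  intro c
  let τ : (Fin d × Fin (numPoints n d)) × Fin n → (Fin d × Fin (numPoints n d)) × Fin n :=
    fun x => ((x.1.1, σ x.1.1 x.1.2), x.2)
  let A : Affine ((Fin d × Fin (numPoints n d)) × Fin n) →
    Affine ((Fin d × Fin (numPoints n d)) × Fin n) := fun u x => u (τ x)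
  have hA : Continuous A := by
    refine continuous_generateFrom_iff.mpr ?_
    rintro _ ⟨f, rfl⟩
    have : A ⁻¹' {x | eval (x : _ → ℂ) f ≠ 0} = {x | eval (x : _ → ℂ) (rename τ f) ≠ 0} := by
      apply Set.ext
      intro x
      show eval (A x : _ → ℂ) f ≠ 0 ↔ eval (x : _ → ℂ) (rename τ f) ≠ 0
      rw [eval_rename]
      rfl
    rw [this]
    exact isOpen_ne_zero _
  have h1 : act σ ∘ kap c = kap (fun kq => c (kq.1, σ kq.1 kq.2)) ∘ A := rfl
  rw [← Set.preimage_comp, h1, Set.preimage_comp]
  exact ((isOpen_ord.mp hU) _).preimage hA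

theorem proj_act (σ : Fin d → Equiv.Perm (Fin (numPoints n d)))
    (y : Ord (Fin d × Fin (numPoints n d)) n) : proj (act σ y) = proj y := by
  funext k
  apply Subtype.ext
  show (Finset.univ : Finset (Fin (numPoints n d))).val.map (fun q => y (k, σ k q)) =
    (Finset.univ : Finset (Fin (numPoints n d))).val.map (fun q => y (k, q))
  have h := Multiset.map_univ_val_equiv (σ k)
  conv_rhs => rw [← h]
  rw [Multiset.map_map]
  rfl

theorem exists_act_of_proj_eq (y y' : Ord (Fin d × Fin (numPoints n d)) n)
    (h : proj y = proj y') : ∃ σ, act σ y' = y := by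
  have h1 : ∀ k, ∃ σ : Equiv.Perm (Fin (numPoints n d)), ∀ q, y' (k, σ q) = y (k, q) := by
    intro k
    exact exists_perm_of_map_eq _ _ (congrArg Subtype.val (congrFun h k))
  choose σ hσ using h1
  exact ⟨σ, funext fun kq => hσ kq.1 kq.2⟩

theorem preimage_image_proj (U : Set (Ord (Fin d × Fin (numPoints n d)) n)) :
    proj ⁻¹' (proj '' U) = ⋃ σ : Fin d → Equiv.Perm (Fin (numPoints n d)), act σ ⁻¹' U := by
  ext y
  rw [Set.mem_iUnion]
  constructor
  · rintro ⟨y', hy', h⟩
    obtain ⟨σ, hσ⟩ := exists_act_of_proj_eq y' y h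
    exact ⟨σ, by rw [Set.mem_preimage, hσ]; exact hy'⟩
  · rintro ⟨σ, hσ⟩
    exact ⟨act σ y, hσ, proj_act σ y⟩

theorem isOpenMap_proj :
    IsOpenMap (proj : Ord (Fin d × Fin (numPoints n d)) n → SymProd n d) := by
  intro U hU
  rw [isOpen_symProd, preimage_image_proj]
  exact isOpen_iUnion fun σ => hU.preimage (continuous_act σ)

theorem isClosedMap_proj :
    IsClosedMap (proj : Ord (Fin d × Fin (numPoints n d)) n → SymProd n d) := by
  intro U hU
  rw [isClosed_symProd, preimage_image_proj]
  exact isClosed_iUnion_of_finite fun σ => hU.preimage (continuous_act σ)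

theorem exists_fun_of_card {α : Type} (s : Multiset α) (D : ℕ) (h : Multiset.card s = D) :
    ∃ f : Fin D → α, (Finset.univ : Finset (Fin D)).val.map f = s := by
  subst h
  induction s using Quot.inductionOn with
  | _ l =>
    refine ⟨fun q => l.get q, ?_⟩
    rw [Fin.univ_val_map]
    exact congrArg _ (List.ofFn_get l)

theorem proj_surjective :
    Function.Surjective (proj : Ord (Fin d × Fin (numPoints n d)) n → SymProd n d) := by
  intro Z
  have h1 : ∀ k, ∃ f : Fin (numPoints n d) → ℙ ℂ (Fin (n + 1) → ℂ),
      (Finset.univ : Finset (Fin (numPoints n d))).val.map f = (Z k).1 := fun k =>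
    exists_fun_of_card _ _ (Z k).2
  choose f hf using h1
  exact ⟨fun kq => f kq.1 kq.2, funext fun k => Subtype.ext (hf k)⟩

/-- an irreducible closed set is determined by its image under the quotient map among the
irreducible closed sets containing it -/
theorem subset_of_image_subset {Z Z' : Set (Ord (Fin d × Fin (numPoints n d)) n)}
    (hZ : IsClosed Z) (hZ' : IsIrreducible Z') (hsub : Z ⊆ Z') (him : proj '' Z' ⊆ proj '' Z) :
    Z' ⊆ Z := by
  classical
  have h1 : Z' ⊆ ⋃₀ (((Finset.univ : Finset (Fin d → Equiv.Perm (Fin (numPoints n d)))).image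
      (fun σ => act σ ⁻¹' Z) : Finset (Set _)) : Set (Set _)) := by
    intro y hy
    have h2 : y ∈ proj ⁻¹' (proj '' Z) := him ⟨y, hy, rfl⟩
    rw [preimage_image_proj, Set.mem_iUnion] at h2
    obtain ⟨σ, hσ⟩ := h2
    exact Set.mem_sUnion.mpr ⟨act σ ⁻¹' Z, by simp, hσ⟩
  obtain ⟨_, ht, hZt⟩ := (isIrreducible_iff_sUnion_isClosed.mp hZ') _ (by
    intro z hz
    simp only [Finset.mem_image, Finset.mem_univ, true_and] at hz
    obtain ⟨σ, rfl⟩ := hz
    exact hZ.preimage (continuous_act σ)) h1
  simp only [Finset.mem_image, Finset.mem_univ, true_and] at ht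
  obtain ⟨σ, rfl⟩ := ht
  -- `act σ` maps `Z'` into `Z ⊆ Z'`
  have hmap : ∀ y ∈ Z', act σ y ∈ Z := fun y hy => hZt hy
  have hit : ∀ N : ℕ, ∀ y ∈ Z', (act σ)^[N + 1] y ∈ Z := by
    intro N
    induction N with
    | zero => exact fun y hy => hmap y hy
    | succ N ih =>
      intro y hy
      rw [Function.iterate_succ_apply]
      exact ih _ (hsub (hmap y hy))
  have hpow : ∀ N : ℕ, ∀ y : Ord (Fin d × Fin (numPoints n d)) n,
      (act σ)^[N] y = act (fun k => (σ k) ^ N) y := by
    intro N
    induction N with
    | zero => intro y; rfl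
    | succ N ih =>
      intro y
      rw [Function.iterate_succ_apply, ih]
      funext kq
      show y (kq.1, σ kq.1 ((σ kq.1 ^ N) kq.2)) = y (kq.1, (σ kq.1 ^ (N + 1)) kq.2)
      rw [pow_succ']
      rfl
  obtain ⟨N, hN, hone⟩ : ∃ N : ℕ, 0 < N ∧ ∀ k, σ k ^ N = 1 :=
    ⟨Fintype.card (Equiv.Perm (Fin (numPoints n d))), Fintype.card_pos, fun k => pow_card_eq_one⟩
  intro y hy
  have h3 := hit (N - 1) y hy
  rw [Nat.sub_add_cancel hN, hpow] at h3
  have h4 : act (fun k => σ k ^ N) y = y := by
    funext kq
    show y (kq.1, (σ kq.1 ^ N) kq.2) = y kq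
    rw [hone]
    rfl
  rwa [h4] at h3

/-- lifting chains of irreducible closed sets along a closed surjective map -/
theorem krullDim_le_of_closed_surjective {X Y : Type} [TopologicalSpace X] [TopologicalSpace Y]
    [NoetherianSpace Y] (f : Y → X) (hf : Continuous f) (hc : IsClosedMap f)
    (hs : Function.Surjective f) : topologicalKrullDim X ≤ topologicalKrullDim Y := by
  classical
  -- lifting one irreducible closed set inside a given closed set
  have hlift : ∀ (C : Set Y) (W : Set X), IsClosed C → IsIrreducible W → IsClosed W → W ⊆ f '' C →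
      ∃ Z : IrreducibleCloseds Y, (Z : Set Y) ⊆ C ∧ f '' Z = W := by
    intro C W hC hW hWc hWC
    have hE : IsClosed (C ∩ f ⁻¹' W) := hC.inter (hWc.preimage hf)
    obtain ⟨S, hSf, hS1, hS2, hS3⟩ := NoetherianSpace.exists_finite_set_isClosed_irreducible hE
    have h1 : W ⊆ ⋃₀ ((hSf.toFinset.image (fun t => f '' t) : Finset (Set X)) : Set (Set X)) := by
      intro w hw
      obtain ⟨y, hy, rfl⟩ := hWC hw
      have h2 : y ∈ ⋃₀ S := by
        rw [← hS3]
        exact ⟨hy, hw⟩
      obtain ⟨t, ht, hyt⟩ := h2
      refine Set.mem_sUnion.mpr ⟨f '' t, ?_, ⟨y, hyt, rfl⟩⟩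
      simp only [Finset.coe_image, Set.Finite.coe_toFinset, Set.mem_image]
      exact ⟨t, ht, rfl⟩
    obtain ⟨z, hz, hWz⟩ := (isIrreducible_iff_sUnion_isClosed.mp hW) _ (by
      intro z hz
      simp only [Finset.mem_image, Set.Finite.mem_toFinset] at hz
      obtain ⟨t, ht, rfl⟩ := hz
      exact hc _ (hS1 t ht)) h1
    simp only [Finset.mem_image, Set.Finite.mem_toFinset] at hz
    obtain ⟨t, ht, rfl⟩ := hz
    have hsubt : t ⊆ C ∩ f ⁻¹' W := by
      rw [hS3]
      exact Set.subset_sUnion_of_mem ht
    refine ⟨⟨t, hS2 t ht, hS1 t ht⟩, fun y hy => (hsubt hy).1, ?_⟩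
    apply Set.Subset.antisymm _ hWz
    rintro _ ⟨y, hy, rfl⟩
    exact (hsubt hy).2
  -- lifting chains
  have hchain : ∀ l : LTSeries (IrreducibleCloseds X), ∃ L : LTSeries (IrreducibleCloseds Y),
      L.length = l.length ∧ f '' (L.head : Set Y) = l.head := by
    intro l
    induction l using RelSeries.inductionOn with
    | singleton W =>
      obtain ⟨Z, -, hZ⟩ := hlift Set.univ W isClosed_univ W.isIrreducible' W.isClosed' (by
        rw [Set.image_univ, hs.range_eq]; exact Set.subset_univ _)
      exact ⟨RelSeries.singleton _ Z, rfl, hZ⟩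
    | cons l W hlt ih =>
      obtain ⟨L, hL, hhead⟩ := ih
      have hWl : W < l.head := hlt
      have hsub : (W : Set X) ⊆ l.head := hWl.le
      obtain ⟨Z, hZ1, hZ2⟩ := hlift (L.head : Set Y) W L.head.isClosed' W.isIrreducible'
        W.isClosed' (by rw [hhead]; exact hsub)
      have hZlt : Z < L.head := by
        refine lt_of_le_of_ne hZ1 fun heq => ?_
        rw [heq, hhead] at hZ2
        exact hWl.ne (SetLike.coe_injective hZ2.symm)
      refine ⟨L.cons Z hZlt, ?_, ?_⟩
      · simp [hL]
      · rw [RelSeries.head_cons, RelSeries.head_cons]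
        exact hZ2
  rw [topologicalKrullDim, topologicalKrullDim]
  refine iSup_le fun l => ?_
  obtain ⟨L, hL, -⟩ := hchain l
  rw [← hL]
  exact le_iSup (fun p : LTSeries (IrreducibleCloseds Y) => (p.length : WithBot ℕ∞)) L

/-- the dimension of a closed subset of the product of symmetric powers equals the dimension of its
preimage in the ordered product -/
theorem dim_preimage_proj (E : Set (SymProd n d)) (hE : IsClosed E) :
    topologicalKrullDim E = topologicalKrullDim (proj ⁻¹' E) := by
  have hcont : Continuous (E.restrictPreimage (proj (n := n) (d := d))) :=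
    continuous_proj.restrictPreimage
  have hclosed : IsClosedMap (E.restrictPreimage (proj (n := n) (d := d))) :=
    isClosedMap_proj.restrictPreimage E
  have hsurj : Function.Surjective (E.restrictPreimage (proj (n := n) (d := d))) :=
    Set.restrictPreimage_surjective _ proj_surjective
  apply le_antisymm
  · exact krullDim_le_of_closed_surjective _ hcont hclosed hsurj
  · rw [topologicalKrullDim, topologicalKrullDim]
    let F : IrreducibleCloseds (proj ⁻¹' E : Set (Ord (Fin d × Fin (numPoints n d)) n)) →
        IrreducibleCloseds E := fun Z =>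
      { carrier := E.restrictPreimage proj '' Z
        isIrreducible' := Z.isIrreducible'.image _ hcont.continuousOn
        isClosed' := hclosed _ Z.isClosed' }
    refine Order.krullDim_le_of_strictMono F ?_
    intro Z₁ Z₂ hlt
    have hsub : (↑Z₁ : Set (proj ⁻¹' E : Set (Ord (Fin d × Fin (numPoints n d)) n))) ⊆ ↑Z₂ :=
      SetLike.coe_subset_coe.mpr hlt.le
    show (E.restrictPreimage proj '' (Z₁ : Set _)) ⊂ (E.restrictPreimage proj '' (Z₂ : Set _))
    rw [Set.ssubset_def]
    refine ⟨Set.image_mono hsub, fun hle => ?_⟩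
    have hcl : IsClosed (Subtype.val '' (Z₁ : Set _) :
        Set (Ord (Fin d × Fin (numPoints n d)) n)) :=
      (hE.preimage continuous_proj).isClosedEmbedding_subtypeVal.isClosedMap _ Z₁.isClosed'
    have h1 := subset_of_image_subset hcl (isIrreducible_image_val Z₂.isIrreducible')
      (Set.image_mono hsub) (by
        rintro _ ⟨_, ⟨y, hy, rfl⟩, rfl⟩
        obtain ⟨y', hy', hyy'⟩ := hle ⟨y, hy, rfl⟩
        refine ⟨y', ⟨y', hy', rfl⟩, ?_⟩
        exact congrArg Subtype.val hyy')
    rw [Set.image_subset_image_iff Subtype.val_injective] at h1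
    exact absurd hlt (not_lt_of_ge h1)

/-- computing the dimension of a closure in charts -/
theorem dim_closure_eq (S : Set (SymProd n d)) (m : WithBot ℕ∞)
    (hub : ∀ c : Fin d × Fin (numPoints n d) → Fin (n + 1),
      ringKrullDim (CoordRing (chart c ⁻¹' S : Set (_ → ℂ))) ≤ m)
    (hlb : ∃ c : Fin d × Fin (numPoints n d) → Fin (n + 1),
      m ≤ ringKrullDim (CoordRing (chart c ⁻¹' S : Set (_ → ℂ)))) :
    topologicalKrullDim (closure S) = m := by
  have hpre : ∀ c : Fin d × Fin (numPoints n d) → Fin (n + 1),
      kap c ⁻¹' (proj ⁻¹' (closure S)) = closure (chart c ⁻¹' S) := by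
    intro c
    rw [isOpenMap_proj.preimage_closure_eq_closure_preimage continuous_proj,
      (isOpenMap_kap c).preimage_closure_eq_closure_preimage (continuous_kap c)]
    rfl
  rw [dim_preimage_proj _ isClosed_closure]
  apply le_antisymm
  · apply dim_le_of_charts
    intro c
    rw [hpre, topologicalKrullDim_closure]
    exact hub c
  · obtain ⟨c, hc⟩ := hlb
    refine hc.trans ?_
    have h3 := charts_dim_le (proj ⁻¹' closure S) c
    rw [hpre c] at h3
    rw [← topologicalKrullDim_closure]
    exact h3

end MP72974f
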