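import Pool.Agent.H41.EigUnique
import Pool.Agent.H41.EigTopC

/-!
Good configurations and reduced eigenschemes.
-/

open MvPolynomial Filter
open scoped LinearAlgebra.Projectivization Topology

namespace MP72974f

open H41.EigAlg

variable {n d : ℕ}

theorem eval_smul_pderiv (hd : 1 ≤ d) (T : Tensor n d) (k : Fin d) (a b j : Fin (n + 1)) (c : ℂ)
    (v : Fin (n + 1) → ℂ) : eval (c • v) (pderiv j (eigMinor T k a b)) =
      c ^ (d - 1) * eval v (pderiv j (eigMinor T k a b)) :=
  eval_smul_homog _ ((eigMinor_homogeneous hd T k a b).pderiv) c v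

theorem dMin_smul_pt (hd : 1 ≤ d) (T : Tensor n d) (k : Fin d) (a b : Fin (n + 1)) (c : ℂ)
    (v w : Fin (n + 1) → ℂ) : dMin T k (c • v) w a b = c ^ (d - 1) * dMin T k v w a b := by
  rw [dMin, dMin, Finset.mul_sum]
  refine Finset.sum_congr rfl fun j _ => ?_
  rw [eval_smul_pderiv hd]; ring

theorem mem_chart (c : Fin d × Fin (numPoints n d) → Fin (n + 1))
    (u : Affine ((Fin d × Fin (numPoints n d)) × Fin n)) (k : Fin d) (v : Fin (n + 1) → ℂ)
    (hv : v ≠ 0) : Projectivization.mk ℂ v hv ∈ (chart c u k : Sym _ _) ↔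
      ∃ q, ∃ a : ℂ, v = a • pt c u (k, q) := by
  have h1 : Projectivization.mk ℂ v hv ∈ (chart c u k : Sym _ _) ↔
      ∃ q : Fin (numPoints n d), Projectivization.mk ℂ (pt c u (k, q)) (pt_ne_zero c u (k, q)) =
        Projectivization.mk ℂ v hv := by
    show Projectivization.mk ℂ v hv ∈ (Finset.univ : Finset (Fin (numPoints n d))).val.map
      (fun q => affinePoint (c (k, q)) (fun j => u ((k, q), j))) ↔ _
    rw [Multiset.mem_map]
    constructor
    · rintro ⟨q, _, h⟩; exact ⟨q, h⟩
    · rintro ⟨q, h⟩; exact ⟨q, Finset.mem_univ_val _, h⟩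
  rw [h1]
  refine exists_congr fun q => ?_
  rw [eq_comm, Projectivization.mk_eq_mk_iff']
  exact exists_congr fun a => eq_comm

theorem good_iff (hd : 1 ≤ d) (T : Tensor n d) (c : Fin d × Fin (numPoints n d) → Fin (n + 1))
    (u : Affine ((Fin d × Fin (numPoints n d)) × Fin n)) :
    (∀ k, IsReducedEigenscheme T k (chart c u k)) ↔ Good T c u := by
  constructor
  · intro h
    have heig : ∀ kq : Fin d × Fin (numPoints n d), ∀ a b,
        eval (pt c u kq) (eigMinor T kq.1 a b) = 0 := by
      intro kq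
      refine ((h kq.1).mem_iff (pt c u kq) (pt_ne_zero c u kq)).mp ?_
      rw [mem_chart]
      exact ⟨kq.2, 1, by rw [one_smul]⟩
    refine ⟨heig, ?_, ?_, ?_⟩
    · intro kq
      refine (reduced_iff_det hd T kq.1 (c kq) (pt c u kq) (pt_self c u kq) (heig kq)).mp ?_
      refine (h kq.1).reduced (pt c u kq) (pt_ne_zero c u kq) ?_
      rw [mem_chart]
      exact ⟨kq.2, 1, by rw [one_smul]⟩
    · intro k q q' hqq hcon
      apply hqq
      have hnd : ((Finset.univ : Finset (Fin (numPoints n d))).val.map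
        (fun q => affinePoint (c (k, q)) (fun j => u ((k, q), j)))).Nodup := (h k).nodup
      refine Multiset.inj_on_of_nodup_map hnd q (Finset.mem_univ_val _) q'
        (Finset.mem_univ_val _) ?_
      show Projectivization.mk ℂ (pt c u (k, q)) (pt_ne_zero c u (k, q)) =
        Projectivization.mk ℂ (pt c u (k, q')) (pt_ne_zero c u (k, q'))
      rw [Projectivization.mk_eq_mk_iff']
      exact ⟨_, hcon.symm⟩
    · intro k v hv0 hm
      have h1 := ((h k).mem_iff v hv0).mpr hm
      rw [mem_chart] at h1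
      obtain ⟨q, a, ha⟩ := h1
      refine ⟨q, ?_⟩
      have h2 : v (c (k, q)) = a := by
        rw [ha, Pi.smul_apply, pt_self, smul_eq_mul, mul_one]
      rw [h2]; exact ha
  · intro h k
    refine ⟨?_, ?_, ?_⟩
    · show ((Finset.univ : Finset (Fin (numPoints n d))).val.map
        (fun q => affinePoint (c (k, q)) (fun j => u ((k, q), j)))).Nodup
      refine Multiset.Nodup.map ?_ Finset.univ.nodup
      intro q q' hqq
      by_contra hne
      have h1 : Projectivization.mk ℂ (pt c u (k, q)) (pt_ne_zero c u (k, q)) =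
        Projectivization.mk ℂ (pt c u (k, q')) (pt_ne_zero c u (k, q')) := hqq
      rw [Projectivization.mk_eq_mk_iff'] at h1
      obtain ⟨a, ha⟩ := h1
      apply h.dist k q q' hne
      have h2 : pt c u (k, q) (c (k, q')) = a := by
        rw [← ha, Pi.smul_apply, pt_self, smul_eq_mul, mul_one]
      rw [h2]; exact ha.symm
    · intro v hv
      rw [mem_chart]
      constructor
      · rintro ⟨q, a, rfl⟩ i j
        rw [minor_smul_vec, h.eig (k, q), mul_zero]
      · intro hm
        obtain ⟨q, hq⟩ := h.compl k v hv hm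
        exact ⟨q, _, hq⟩
    · intro v hv hmem w hw
      rw [mem_chart] at hmem
      obtain ⟨q, a, rfl⟩ := hmem
      have ha : a ≠ 0 := by
        rintro rfl
        rw [zero_smul] at hv
        exact hv rfl
      have h1 : ∀ i j, dMin T k (pt c u (k, q)) w i j = 0 := by
        intro i j
        have h2 : dMin T k (a • pt c u (k, q)) w i j = 0 := hw i j
        rw [dMin_smul_pt hd] at h2
        exact (mul_eq_zero.mp h2).resolve_left (pow_ne_zero _ ha)
      obtain ⟨t, ht⟩ := (reduced_iff_det hd T k (c (k, q)) (pt c u (k, q)) (pt_self c u (k, q))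
        (h.eig (k, q))).mpr (h.det (k, q)) w h1
      refine ⟨t / a, ?_⟩
      rw [smul_smul, div_mul_cancel₀ _ ha]
      exact ht

/-- goodness only depends on the minors up to a nonzero scalar -/
theorem good_of_minors {D : ℕ} {T T' : Tensor n d} {c : Fin d × Fin D → Fin (n + 1)}
    {u : (Fin d × Fin D) × Fin n → ℂ} (h : Good T c u) (s : ℂ) (hs : s ≠ 0)
    (hm : ∀ k a b, eigMinor T' k a b = C s * eigMinor T k a b) : Good T' c u := by
  refine ⟨?_, ?_, h.dist, ?_⟩
  · intro kq a b
    rw [hm, map_mul, h.eig, mul_zero]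
  · intro kq
    have h1 : jac T' kq.1 (c kq) (pt c u kq) = s • jac T kq.1 (c kq) (pt c u kq) := by
      ext j j'
      rw [Matrix.smul_apply, jac_apply, jac_apply, hm, pderiv_C_mul, map_mul, eval_C, smul_eq_mul]
    rw [h1, Matrix.det_smul]
    exact mul_ne_zero (pow_ne_zero _ hs) (h.det kq)
  · intro k v hv0 hv
    refine h.compl k v hv0 fun a b => ?_
    have h1 := hv a b
    rw [hm, map_mul, eval_C] at h1
    exact (mul_eq_zero.mp h1).resolve_left hs

theorem good_smul {D : ℕ} {T : Tensor n d} {c : Fin d × Fin D → Fin (n + 1)}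
    {u : (Fin d × Fin D) × Fin n → ℂ} (h : Good T c u) (s : ℂ) (hs : s ≠ 0) :
    Good (s • T) c u :=
  good_of_minors h s hs fun k a b => eigMinor_smul s T k a b

theorem good_add_ker {D : ℕ} {T κ : Tensor n d} {c : Fin d × Fin D → Fin (n + 1)}
    {u : (Fin d × Fin D) × Fin n → ℂ} (h : Good T c u) (hκ : κ ∈ minorKer n d) :
    Good (T + κ) c u :=
  good_of_minors h 1 one_ne_zero fun k a b => by
    rw [eigMinor_add, mem_minorKer.mp hκ, add_zero, C_1, one_mul]

end MP72974f
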