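import Pool.Agent.H41.EigFermat

/-!
Homogeneous forms of degree `e + 1` vanishing on the grid of eigenvectors of the Fermat tensor.
-/

open MvPolynomial

namespace MP72974f

variable {n e : ℕ}

/-- exponent `e·l + m` -/
noncomputable def ex (e : ℕ) (l m : Fin (n + 1)) : Fin (n + 1) →₀ ℕ :=
  Finsupp.single l e + Finsupp.single m 1

theorem ex_inj (he : 2 ≤ e) {l m l' m' : Fin (n + 1)} (h : ex e l m = ex e l' m') :
    l = l' ∧ m = m' := by
  have h1 := DFunLike.congr_fun h l
  have hl : l = l' := by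
    by_contra hne
    simp only [ex, Finsupp.add_apply, Finsupp.single_eq_same] at h1
    rw [Finsupp.single_eq_of_ne (Ne.symm (Ne.symm hne))] at h1
    have h2 : (Finsupp.single m' 1 : Fin (n + 1) →₀ ℕ) l ≤ 1 := by
      rw [Finsupp.single_apply]; split_ifs <;> omega
    omega
  refine ⟨hl, ?_⟩
  rw [ex, ex, hl] at h
  have h3 := add_left_cancel h
  exact Finsupp.single_left_injective one_ne_zero h3

theorem exists_ex {μ : Fin (n + 1) →₀ ℕ} (hμ : μ.degree = e + 1) {l : Fin (n + 1)}
    (hl : e ≤ μ l) : ∃ m, μ = ex e l m := by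
  have hle : Finsupp.single l e ≤ μ := by
    rw [Finsupp.single_le_iff]; exact hl
  obtain ⟨ν, rfl⟩ := exists_add_of_le hle
  have h1 : ν.degree = 1 := by
    rw [map_add, Finsupp.degree_single] at hμ
    omega
  have h2 : ν ∈ Set.range (fun a : Fin (n + 1) => Finsupp.single a 1) := by
    rw [Finsupp.range_single_one]; exact h1
  obtain ⟨m, rfl⟩ := h2
  exact ⟨m, rfl⟩

theorem coeff_pow_mul (l m : Fin (n + 1)) (μ : Fin (n + 1) →₀ ℕ) :
    coeff μ (X l ^ e * X m : MvPolynomial (Fin (n + 1)) ℂ) = if ex e l m = μ then 1 else 0 := by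
  have : (X l ^ e * X m : MvPolynomial (Fin (n + 1)) ℂ) = monomial (ex e l m) 1 := by
    rw [X_pow_eq_monomial, X, monomial_mul, mul_one]
    rfl
  rw [this, coeff_monomial]

theorem coeff_X_mul_X (l m : Fin (n + 1)) (μ : Fin (n + 1) →₀ ℕ) :
    coeff μ (X l * X m : MvPolynomial (Fin (n + 1)) ℂ) = if ex 1 l m = μ then 1 else 0 := by
  have := coeff_pow_mul (e := 1) l m μ
  rwa [pow_one] at this

theorem eval_smul_homog {m : ℕ} (p : MvPolynomial (Fin (n + 1)) ℂ) (hp : p.IsHomogeneous m)
    (c : ℂ) (v : Fin (n + 1) → ℂ) : eval (c • v) p = c ^ m * eval v p := by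
  rw [eval_eq', eval_eq', Finset.mul_sum]
  refine Finset.sum_congr rfl fun μ hμ => ?_
  have hdeg : μ.degree = m := by
    have := hp (mem_support_iff.mp hμ)
    rwa [Finsupp.degree_eq_weight_one]
  have h1 : ∏ i, (c • v) i ^ μ i = c ^ m * ∏ i, v i ^ μ i := by
    simp_rw [Pi.smul_apply, smul_eq_mul, mul_pow]
    rw [Finset.prod_mul_distrib, Finset.prod_pow_eq_pow_sum, ← hdeg, Finsupp.degree_eq_sum]
  rw [h1]; ring

/-- the diagonal coefficients -/
theorem coeff_diag_zero (he : 2 ≤ e) (h : MvPolynomial (Fin (n + 1)) ℂ) (hh : h.IsHomogeneous (e + 1))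
    (hv : ∀ v : Fin (n + 1) → ℂ, (∀ l, v l = 0 ∨ th l * v l ^ (e - 1) = 1) → eval v h = 0)
    (l : Fin (n + 1)) : coeff (ex e l l) h = 0 := by
  obtain ⟨x, hx⟩ : ∃ x : ℂ, x ^ (e - 1) = 1 / th l :=
    IsAlgClosed.exists_pow_nat_eq _ (by omega)
  have hx0 : x ≠ 0 := by
    rintro rfl
    rw [zero_pow (by omega)] at hx
    exact (one_div_ne_zero (th_ne l)) hx.symm
  have h1 := hv (Pi.single l x) (by
    intro l'
    by_cases h : l' = l
    · right
      rw [h, Pi.single_eq_same, hx, mul_one_div, div_self (th_ne l)]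
    · left
      rw [Pi.single_eq_of_ne h])
  rw [eval_eq'] at h1
  have h2 : ∀ μ ∈ h.support, μ ≠ ex e l l →
      coeff μ h * ∏ i, (Pi.single l x : Fin (n + 1) → ℂ) i ^ μ i = 0 := by
    intro μ hμ hne
    have hdeg : μ.degree = e + 1 := by
      have := hh (mem_support_iff.mp hμ)
      rwa [Finsupp.degree_eq_weight_one]
    have hex : ∃ i, i ≠ l ∧ μ i ≠ 0 := by
      by_contra hcon
      push Not at hcon
      apply hne
      have h3 : μ = Finsupp.single l (μ l) := by
        ext i
        by_cases hi : i = l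
        · rw [hi, Finsupp.single_eq_same]
        · rw [Finsupp.single_eq_of_ne hi]
          exact hcon i hi
      rw [h3, Finsupp.degree_single] at hdeg
      rw [h3, hdeg, ex, ← Finsupp.single_add]
    obtain ⟨i, hi, hμi⟩ := hex
    rw [Finset.prod_eq_zero (Finset.mem_univ i), mul_zero]
    rw [Pi.single_eq_of_ne hi, zero_pow hμi]
  by_contra hne
  have hmem : ex e l l ∈ h.support := mem_support_iff.mpr hne
  rw [Finset.sum_eq_single_of_mem _ hmem h2] at h1
  have h3 : ∏ i, (Pi.single l x : Fin (n + 1) → ℂ) i ^ (ex e l l) i ≠ 0 := by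
    rw [Finset.prod_ne_zero_iff]
    intro i _
    by_cases hi : i = l
    · rw [hi, Pi.single_eq_same]; exact pow_ne_zero _ hx0
    · have : (ex e l l) i = 0 := by
        rw [ex, Finsupp.add_apply, Finsupp.single_eq_of_ne hi, Finsupp.single_eq_of_ne hi, add_zero]
      rw [this, pow_zero]; exact one_ne_zero
  exact (mul_ne_zero hne h3) h1

/-- reduction modulo the grid -/
theorem grid_form (he : 2 ≤ e) (h : MvPolynomial (Fin (n + 1)) ℂ) (hh : h.IsHomogeneous (e + 1))
    (hv : ∀ v : Fin (n + 1) → ℂ, (∀ l, v l = 0 ∨ th l * v l ^ (e - 1) = 1) → eval v h = 0) :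
    h = ∑ l, ∑ m, C (coeff (ex e l m) h) * ((X l ^ e - C (th l)⁻¹ * X l) * X m) := by
  classical
  have hdiag := coeff_diag_zero he h hh hv
  rw [← sub_eq_zero]
  refine eq_zero_of_eval_zero_at_prod_finset _ (fun l => insert 0 (rts (e - 1) (1 / th l))) ?_ ?_
  · intro l'
    have hcard : (insert 0 (rts (e - 1) (1 / th l'))).card = e := by
      rw [Finset.card_insert_of_notMem, card_rts (by omega) (one_div_ne_zero (th_ne _))]
      · omega
      · rw [mem_rts (by omega), zero_pow (by omega)]
        exact (one_div_ne_zero (th_ne _)).symm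
    rw [hcard, degreeOf_lt_iff (by omega)]
    intro μ hμ
    by_contra hcon
    push Not at hcon
    apply mem_support_iff.mp hμ
    -- the coefficient of `μ` vanishes
    have hc : ∀ l m, coeff μ (C (coeff (ex e l m) h) * ((X l ^ e - C (th l)⁻¹ * X l) * X m)) =
        coeff (ex e l m) h * ((if ex e l m = μ then 1 else 0) -
          (th l)⁻¹ * (if ex 1 l m = μ then 1 else 0)) := by
      intro l m
      rw [coeff_C_mul, sub_mul, coeff_sub, coeff_pow_mul, mul_assoc, coeff_C_mul, coeff_X_mul_X]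
    rw [coeff_sub, coeff_sum]
    simp_rw [coeff_sum, hc]
    -- second part vanishes
    have h2 : ∀ l m, coeff (ex e l m) h * ((th l)⁻¹ * (if ex 1 l m = μ then 1 else 0)) = 0 := by
      intro l m
      by_cases hm : ex 1 l m = μ
      · have h3 : (ex 1 l m) l' = μ l' := by rw [hm]
        rw [ex, Finsupp.add_apply, Finsupp.single_apply, Finsupp.single_apply] at h3
        have hl : l = l' := by
          by_contra hl
          rw [if_neg hl] at h3
          split_ifs at h3 <;> omega
        have hm' : m = l' := by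
          by_contra hm'
          rw [if_neg hm'] at h3
          split_ifs at h3 <;> omega
        rw [hl, hm', hdiag, zero_mul]
      · rw [if_neg hm, mul_zero, mul_zero]
    simp_rw [mul_sub, h2, sub_zero]
    by_cases hdeg : μ.degree = e + 1
    · obtain ⟨m', hm'⟩ := exists_ex hdeg hcon
      rw [Finset.sum_eq_single l', Finset.sum_eq_single m']
      · rw [if_pos hm'.symm, mul_one, ← hm', sub_self]
      · intro m _ hm
        rw [if_neg, mul_zero]
        intro hcon2
        rw [hm'] at hcon2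
        exact hm (ex_inj he hcon2).2
      · intro h; exact absurd (Finset.mem_univ _) h
      · intro l _ hl
        refine Finset.sum_eq_zero fun m _ => ?_
        rw [if_neg, mul_zero]
        intro hcon2
        rw [hm'] at hcon2
        exact hl (ex_inj he hcon2).1
      · intro h; exact absurd (Finset.mem_univ _) h
    · have h3 : coeff μ h = 0 := by
        by_contra hne
        apply hdeg
        have := hh hne
        rwa [Finsupp.degree_eq_weight_one]
      rw [h3, zero_sub, neg_eq_zero]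
      refine Finset.sum_eq_zero fun l _ => Finset.sum_eq_zero fun m _ => ?_
      rw [if_neg, mul_zero]
      rintro rfl
      apply hdeg
      rw [ex, map_add, Finsupp.degree_single, Finsupp.degree_single]
  · intro v hmem
    have hv' : ∀ l, v l = 0 ∨ th l * v l ^ (e - 1) = 1 := by
      intro l
      have := hmem l
      rw [Finset.mem_insert, mem_rts (by omega)] at this
      rcases this with h | h
      · exact Or.inl h
      · right
        rw [h, mul_one_div, div_self (th_ne l)]
    rw [map_sub, hv v hv', zero_sub, neg_eq_zero, map_sum]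
    refine Finset.sum_eq_zero fun l _ => ?_
    rw [map_sum]
    refine Finset.sum_eq_zero fun m _ => ?_
    have h1 : eval v (X l ^ e - C (th l)⁻¹ * X l) = 0 := by
      rw [map_sub, map_pow, map_mul, eval_X, eval_C]
      rcases hv' l with h | h
      · rw [h, zero_pow (by omega), mul_zero, sub_zero]
      · have hθ := th_ne l
        have : v l ^ e = v l ^ (e - 1) * v l := by
          rw [← pow_succ]; congr 1; omega
        rw [this]
        field_simp
        linear_combination (v l) * h
    rw [map_mul, map_mul, h1]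
    ring

/-- the quadratic part of the reduction vanishes -/
theorem grid_anti (he : 2 ≤ e) (h : MvPolynomial (Fin (n + 1)) ℂ) (hh : h.IsHomogeneous (e + 1))
    (hv : ∀ v : Fin (n + 1) → ℂ, (∀ l, v l = 0 ∨ th l * v l ^ (e - 1) = 1) → eval v h = 0) :
    (∀ v, eval v h = ∑ l, ∑ m, coeff (ex e l m) h * (v l ^ e * v m)) ∧
      ∀ l m, coeff (ex e l m) h * th m + coeff (ex e m l) h * th l = 0 := by
  have hform := grid_form he h hh hv
  set κ : Fin (n + 1) → Fin (n + 1) → ℂ := fun l m => coeff (ex e l m) h with hκ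
  have hdiag : ∀ l, κ l l = 0 := coeff_diag_zero he h hh hv
  have h1 : ∀ v, eval v h = ∑ l, ∑ m, κ l m * (v l ^ e * v m) -
      ∑ l, ∑ m, κ l m * ((th l)⁻¹ * v l * v m) := by
    intro v
    have h2 := congrArg (eval v) hform
    rw [map_sum] at h2
    rw [h2, ← Finset.sum_sub_distrib]
    refine Finset.sum_congr rfl fun l _ => ?_
    rw [map_sum, ← Finset.sum_sub_distrib]
    refine Finset.sum_congr rfl fun m _ => ?_
    simp only [map_mul, map_sub, map_pow, eval_X, eval_C, hκ]
    ring
  have hB : ∀ v : Fin (n + 1) → ℂ, ∑ l, ∑ m, κ l m * ((th l)⁻¹ * v l * v m) = 0 := by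
    intro v
    have h2 := h1 ((2 : ℂ) • v)
    rw [eval_smul_homog h hh, h1 v] at h2
    have h3 : ∑ l, ∑ m, κ l m * (((2 : ℂ) • v) l ^ e * ((2 : ℂ) • v) m) =
        2 ^ (e + 1) * ∑ l, ∑ m, κ l m * (v l ^ e * v m) := by
      rw [Finset.mul_sum]
      refine Finset.sum_congr rfl fun l _ => ?_
      rw [Finset.mul_sum]
      refine Finset.sum_congr rfl fun m _ => ?_
      rw [Pi.smul_apply, Pi.smul_apply, smul_eq_mul, smul_eq_mul, mul_pow]
      ring
    have h4 : ∑ l, ∑ m, κ l m * ((th l)⁻¹ * ((2 : ℂ) • v) l * ((2 : ℂ) • v) m) =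
        4 * ∑ l, ∑ m, κ l m * ((th l)⁻¹ * v l * v m) := by
      rw [Finset.mul_sum]
      refine Finset.sum_congr rfl fun l _ => ?_
      rw [Finset.mul_sum]
      refine Finset.sum_congr rfl fun m _ => ?_
      rw [Pi.smul_apply, Pi.smul_apply, smul_eq_mul, smul_eq_mul]
      ring
    rw [h3, h4] at h2
    have h5 : ((2 : ℂ) ^ (e + 1) - 4) * ∑ l, ∑ m, κ l m * ((th l)⁻¹ * v l * v m) = 0 := by
      linear_combination -h2
    refine (mul_eq_zero.mp h5).resolve_left ?_
    show (2 : ℂ) ^ (e + 1) - 4 ≠ 0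
    rw [sub_ne_zero]
    have h6 : (4 : ℂ) = ((2 ^ 2 : ℕ) : ℂ) := by norm_num
    have h7 : (2 : ℂ) ^ (e + 1) = ((2 ^ (e + 1) : ℕ) : ℂ) := by push_cast; rfl
    rw [h6, h7, Ne, Nat.cast_inj]
    have h8 : 2 ^ 2 < 2 ^ (e + 1) := Nat.pow_lt_pow_right (by norm_num) (by omega)
    omega
  refine ⟨fun v => by rw [h1 v, hB, sub_zero], fun l m => ?_⟩
  have h2 := hB (Pi.single l 1 + Pi.single m 1)
  have hs : ∀ f : Fin (n + 1) → ℂ,
      ∑ a, f a * (Pi.single l 1 + Pi.single m 1 : Fin (n + 1) → ℂ) a = f l + f m := by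
    intro f
    simp [mul_add, Finset.sum_add_distrib, Pi.single_apply]
  have h3 : ∑ a, ∑ b, κ a b * ((th a)⁻¹ * (Pi.single l 1 + Pi.single m 1 : Fin (n + 1) → ℂ) a *
      (Pi.single l 1 + Pi.single m 1 : Fin (n + 1) → ℂ) b) =
      ∑ a, ((th a)⁻¹ * (κ a l + κ a m)) * (Pi.single l 1 + Pi.single m 1 : Fin (n + 1) → ℂ) a := by
    refine Finset.sum_congr rfl fun a _ => ?_
    rw [← hs (fun b => κ a b), Finset.mul_sum, Finset.sum_mul]
    refine Finset.sum_congr rfl fun b _ => ?_
    ring
  rw [h3, hs, hdiag, hdiag, zero_add, add_zero] at h2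
  have e1 := th_ne l
  have e2 := th_ne m
  field_simp at h2
  show κ l m * th m + κ m l * th l = 0
  linear_combination h2

end MP72974f
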