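import Pool.Agent.H41.EigBasic

/-!
Homogeneous polynomials: dimension, spanning by words, gradient.
-/

open MvPolynomial

namespace MP72974f

variable {n : ℕ}

/-- homogeneous polynomials of degree `m` in `n + 1` variables -/
noncomputable abbrev Hm (n m : ℕ) : Submodule ℂ (MvPolynomial (Fin (n + 1)) ℂ) :=
  homogeneousSubmodule (Fin (n + 1)) ℂ m

theorem Hm_eq_span (n m : ℕ) : Hm n m = Submodule.span ℂ (Set.range
    (fun u : ((Finset.univ : Finset (Fin (n + 1))).finsuppAntidiag m) =>
      (monomial (u : Fin (n + 1) →₀ ℕ) (1 : ℂ)))) := by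
  apply le_antisymm
  · intro p hp
    rw [mem_homogeneousSubmodule] at hp
    rw [p.as_sum]
    refine Submodule.sum_mem _ fun u hu => ?_
    have hdeg : u.degree = m := by
      have := hp (mem_support_iff.mp hu)
      rwa [Finsupp.degree_eq_weight_one]
    have h1 : monomial u (coeff u p) = coeff u p • monomial u (1 : ℂ) := by
      rw [smul_monomial, smul_eq_mul, mul_one]
    rw [h1]
    refine Submodule.smul_mem _ _ (Submodule.subset_span ⟨⟨u, ?_⟩, rfl⟩)
    rw [Finset.mem_finsuppAntidiag]
    refine ⟨?_, Finset.subset_univ _⟩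
    rw [← hdeg, Finsupp.degree_eq_sum]
  · rw [Submodule.span_le]
    rintro _ ⟨u, rfl⟩
    have hu := u.2
    rw [Finset.mem_finsuppAntidiag] at hu
    show (monomial (u : Fin (n + 1) →₀ ℕ) (1 : ℂ)).IsHomogeneous m
    refine isHomogeneous_monomial _ ?_
    rw [Finsupp.degree_eq_sum]
    exact hu.1

theorem finrank_Hm (n m : ℕ) : Module.finrank ℂ (Hm n m) = (n + m).choose m := by
  have hli : LinearIndependent ℂ
      (fun u : ((Finset.univ : Finset (Fin (n + 1))).finsuppAntidiag m) =>
      (monomial (u : Fin (n + 1) →₀ ℕ) (1 : ℂ))) := by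
    have h := (basisMonomials (Fin (n + 1)) ℂ).linearIndependent
    have h2 := h.comp (fun u : ((Finset.univ : Finset (Fin (n + 1))).finsuppAntidiag m) =>
      (u : Fin (n + 1) →₀ ℕ)) Subtype.val_injective
    rw [coe_basisMonomials] at h2
    exact h2
  rw [Hm_eq_span, finrank_span_eq_card hli, Fintype.card_coe,
    Finset.card_finsuppAntidiag_nat_eq_choose, Finset.card_univ, Fintype.card_fin]
  congr 1
  omega

instance finite_Hm (n m : ℕ) : Module.Finite ℂ (Hm n m) :=
  Module.Finite.iff_fg.mpr (homogeneousSubmodule_fg (Fin (n + 1)) ℂ m)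

/-- word product over a subset of positions -/
noncomputable def wordProd {ι : Type} (s : Finset ι) (w : ι → Fin (n + 1)) :
    MvPolynomial (Fin (n + 1)) ℂ := ∏ m ∈ s, X (w m)

theorem wordProd_congr {ι : Type} (s : Finset ι) (w w' : ι → Fin (n + 1))
    (h : ∀ m ∈ s, w m = w' m) : wordProd s w = wordProd s w' :=
  Finset.prod_congr rfl fun m hm => by rw [h m hm]

/-- homogeneous polynomials are spanned by word products -/
theorem mem_span_words {ι : Type} [DecidableEq ι] (s : Finset ι) :
    ∀ p : MvPolynomial (Fin (n + 1)) ℂ, p.IsHomogeneous s.card →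
      p ∈ Submodule.span ℂ (Set.range (wordProd (n := n) s)) := by
  induction s using Finset.induction_on with
  | empty =>
    intro p hp
    rw [Finset.card_empty] at hp
    have h1 : p = C (coeff 0 p) := by
      have := totalDegree_eq_zero_iff_eq_C.mp (Nat.le_zero.mp hp.totalDegree_le)
      exact this
    rw [h1]
    have h2 : C (coeff 0 p) = coeff 0 p • wordProd (n := n) (∅ : Finset ι) (fun _ => 0) := by
      rw [wordProd, Finset.prod_empty, smul_eq_C_mul, mul_one]
    rw [h2]
    exact Submodule.smul_mem _ _ (Submodule.subset_span ⟨_, rfl⟩)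
  | insert a s ha ih =>
    intro p hp
    rw [Finset.card_insert_of_notMem ha] at hp
    have hE := hp.sum_X_mul_pderiv
    have hne : ((s.card + 1 : ℕ) : ℂ) ≠ 0 := Nat.cast_ne_zero.mpr (Nat.succ_ne_zero _)
    have h1 : p = ((s.card + 1 : ℕ) : ℂ)⁻¹ • ∑ j, X j * pderiv j p := by
      rw [hE, ← Nat.cast_smul_eq_nsmul ℂ, smul_smul, inv_mul_cancel₀ hne, one_smul]
    rw [h1]
    refine Submodule.smul_mem _ _ (Submodule.sum_mem _ fun j _ => ?_)
    have h2 : (pderiv j p).IsHomogeneous s.card := by
      have := hp.pderiv (i := j)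
      simpa using this
    have h3 := ih _ h2
    -- multiply by `X j`
    have h4 : ∀ q ∈ Submodule.span ℂ (Set.range (wordProd (n := n) s)),
        X j * q ∈ Submodule.span ℂ (Set.range (wordProd (n := n) (insert a s))) := by
      intro q hq
      refine Submodule.span_induction ?_ ?_ ?_ ?_ hq
      · rintro _ ⟨w, rfl⟩
        refine Submodule.subset_span ⟨Function.update w a j, ?_⟩
        rw [wordProd, Finset.prod_insert ha, Function.update_self]
        congr 1
        refine Finset.prod_congr rfl fun m hm => ?_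
        rw [Function.update_of_ne (show m ≠ a from fun h => ha (h ▸ hm))]
      · rw [mul_zero]; exact Submodule.zero_mem _
      · intro x y _ _ hx hy
        rw [mul_add]; exact Submodule.add_mem _ hx hy
      · intro c x _ hx
        rw [mul_smul_comm]; exact Submodule.smul_mem _ _ hx
    exact h4 _ h3

end MP72974f
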