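import Pool.Agent.H41.EigAlg

/-!
Solving a linear system with one-dimensional kernel, depending polynomially on parameters.
-/

open MvPolynomial

namespace H41.EigAlg

theorem exists_left_inverse {L : Type} [Fintype L] [DecidableEq L] {r : ℕ}
    (M : Matrix L (Fin r) ℂ) (h : ∀ w, M.mulVec w = 0 → w = 0) :
    ∃ Γ : Matrix (Fin r) L ℂ, Γ * M = 1 := by
  have hker : LinearMap.ker (Matrix.toLin' M) = ⊥ := by
    rw [LinearMap.ker_eq_bot']
    intro w hw
    exact h w (by rwa [Matrix.toLin'_apply] at hw)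
  obtain ⟨G, hG⟩ := LinearMap.exists_leftInverse_of_injective _ hker
  refine ⟨LinearMap.toMatrix' G, ?_⟩
  have h1 := congrArg LinearMap.toMatrix' hG
  rw [LinearMap.toMatrix'_comp, LinearMap.toMatrix'_toLin', LinearMap.toMatrix'_id] at h1
  exact h1

/-- the system with the additional normalising row -/
noncomputable def extM {β L : Type} {m : ℕ} (lamP : L → Fin (m + 1) → MvPolynomial β ℂ)
    (a : Fin (m + 1)) : Matrix (Option L) (Fin (m + 1)) (MvPolynomial β ℂ) :=
  Matrix.of fun o s => o.elim (if s = a then 1 else 0) (fun x => lamP x s)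

theorem extM_none {β L : Type} {m : ℕ} (lamP : L → Fin (m + 1) → MvPolynomial β ℂ)
    (a s : Fin (m + 1)) : extM lamP a none s = if s = a then 1 else 0 := rfl

theorem extM_some {β L : Type} {m : ℕ} (lamP : L → Fin (m + 1) → MvPolynomial β ℂ)
    (a s : Fin (m + 1)) (x : L) : extM lamP a (some x) s = lamP x s := rfl

theorem extM_mulVec_none {β L : Type} {m : ℕ} (lamP : L → Fin (m + 1) → MvPolynomial β ℂ)
    (a : Fin (m + 1)) (u : β → ℂ) (w : Fin (m + 1) → ℂ) :
    ((extM lamP a).map (eval u)).mulVec w none = w a := by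
  show ∑ s, (extM lamP a).map (eval u) none s * w s = w a
  simp_rw [Matrix.map_apply, extM_none]
  rw [Finset.sum_eq_single a]
  · rw [if_pos rfl, map_one, one_mul]
  · intro s _ hs
    rw [if_neg hs, map_zero, zero_mul]
  · intro h; exact absurd (Finset.mem_univ _) h

theorem extM_mulVec_some {β L : Type} {m : ℕ} (lamP : L → Fin (m + 1) → MvPolynomial β ℂ)
    (a : Fin (m + 1)) (u : β → ℂ) (w : Fin (m + 1) → ℂ) (x : L) :
    ((extM lamP a).map (eval u)).mulVec w (some x) = ∑ s, eval u (lamP x s) * w s := rfl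

/-- Cramer's rule for a family of linear systems with one-dimensional kernel -/
theorem exists_solution {β L : Type} [Fintype L] {m : ℕ}
    (lamP : L → Fin (m + 1) → MvPolynomial β ℂ) (a : Fin (m + 1)) (u₀ : β → ℂ)
    (hinj : ∀ w : Fin (m + 1) → ℂ, (∀ x, ∑ s, eval u₀ (lamP x s) * w s = 0) → w a = 0 → w = 0) :
    ∃ (Δ : MvPolynomial β ℂ) (hh : Fin (m + 1) → MvPolynomial β ℂ), eval u₀ Δ ≠ 0 ∧
      ∀ (u : β → ℂ) (w : Fin (m + 1) → ℂ), (∀ x, ∑ s, eval u (lamP x s) * w s = 0) → w a = 1 →
        ∀ r, eval u (hh r) = eval u Δ * w r := by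
  classical
  obtain ⟨Γ, hΓ⟩ := exists_left_inverse ((extM lamP a).map (eval u₀)) (by
    intro w hw
    refine hinj w (fun x => ?_) ?_
    · rw [← extM_mulVec_some lamP a, hw, Pi.zero_apply]
    · rw [← extM_mulVec_none lamP a u₀ w, hw, Pi.zero_apply])
  let B : Matrix (Fin (m + 1)) (Fin (m + 1)) (MvPolynomial β ℂ) :=
    Matrix.of fun i j => ∑ o, C (Γ i o) * extM lamP a o j
  have hB : ∀ u : β → ℂ, B.map (eval u) = Γ * (extM lamP a).map (eval u) := by
    intro u
    ext i j
    rw [Matrix.map_apply, Matrix.mul_apply]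
    show eval u (∑ o, C (Γ i o) * extM lamP a o j) = _
    rw [map_sum]
    refine Finset.sum_congr rfl fun o _ => ?_
    rw [map_mul, Matrix.map_apply, eval_C]
  have hdet : ∀ u : β → ℂ, eval u B.det = (B.map (eval u)).det := fun u =>
    RingHom.map_det (eval u) B
  have hadj : ∀ u : β → ℂ, B.adjugate.map (eval u) = (B.map (eval u)).adjugate := fun u =>
    RingHom.map_adjugate (eval u) B
  refine ⟨B.det, fun r => B.adjugate.mulVec (fun s => C (Γ s none)) r, ?_, ?_⟩
  · rw [hdet, hB, hΓ, Matrix.det_one]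
    exact one_ne_zero
  · intro u w hw hwa r
    have h1 : ((extM lamP a).map (eval u)).mulVec w = Pi.single none 1 := by
      funext o
      cases o with
      | none => rw [extM_mulVec_none, hwa, Pi.single_eq_same]
      | some x =>
        rw [extM_mulVec_some, hw, Pi.single_eq_of_ne (by simp)]
    have h2 : (B.map (eval u)).mulVec w = fun s => Γ s none := by
      rw [hB, ← Matrix.mulVec_mulVec, h1]
      funext s
      rw [Matrix.mulVec_single_one]
      rfl
    have h3 : (B.map (eval u)).adjugate.mulVec ((B.map (eval u)).mulVec w) =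
        (B.map (eval u)).det • w := by
      rw [Matrix.mulVec_mulVec, Matrix.adjugate_mul, Matrix.smul_mulVec, Matrix.one_mulVec]
    have h4 := congrFun h3 r
    rw [h2, Pi.smul_apply, smul_eq_mul, ← hdet, ← hadj] at h4
    rw [← h4]
    show eval u (∑ s, B.adjugate r s * C (Γ s none)) = ∑ s, eval u (B.adjugate r s) * Γ s none
    rw [map_sum]
    refine Finset.sum_congr rfl fun s _ => ?_
    rw [map_mul, eval_C]

end H41.EigAlg
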