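import Pool.Agent.H41.EigDim
import Pool.Agent.H41.EigLin

/-!
Lower bound for the dimension, in a chart containing the Fermat configuration.
-/

open MvPolynomial Filter
open scoped Topology

namespace MP72974f

open H41.EigAlg

variable {n d : ℕ}

/-- the matrix of the linear conditions on the tensor imposed by the points -/
noncomputable def lam {m D : ℕ} (p : Param n d m) (c : Fin d × Fin D → Fin (n + 1))
    (x : (Fin d × Fin D) × Fin (n + 1) × Fin (n + 1)) (s : Fin (m + 1)) :
    MvPolynomial ((Fin d × Fin D) × Fin n) ℂ :=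
  aeval (ptPoly c x.1) (eigMinor (p.toLin (Pi.single s 1)) x.1.1 x.2.1 x.2.2)

theorem eval_lam {m D : ℕ} (p : Param n d m) (c : Fin d × Fin D → Fin (n + 1))
    (x : (Fin d × Fin D) × Fin (n + 1) × Fin (n + 1)) (s : Fin (m + 1))
    (u : (Fin d × Fin D) × Fin n → ℂ) :
    eval u (lam p c x s) =
      eval (pt c u x.1) (eigMinor (p.toLin (Pi.single s 1)) x.1.1 x.2.1 x.2.2) := by
  rw [lam, ← aeval_eq_eval', ← AlgHom.comp_apply, comp_aeval, ← aeval_eq_eval']
  congr 2
  funext l
  rw [aeval_eq_eval']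
  exact eval_ptPoly c x.1 l u

theorem sum_lam {m D : ℕ} (p : Param n d m) (c : Fin d × Fin D → Fin (n + 1))
    (x : (Fin d × Fin D) × Fin (n + 1) × Fin (n + 1)) (u : (Fin d × Fin D) × Fin n → ℂ)
    (w : Fin (m + 1) → ℂ) : ∑ s, eval u (lam p c x s) * w s =
      eval (pt c u x.1) (eigMinor (p.toLin w) x.1.1 x.2.1 x.2.2) := by
  simp_rw [eval_lam]
  have h1 : w = ∑ s, w s • (Pi.single s 1 : Fin (m + 1) → ℂ) := by
    funext s
    simp [Finset.sum_apply, Pi.single_apply]
  have h2 : eigMinor (p.toLin w) x.1.1 x.2.1 x.2.2 =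
      ∑ s, w s • eigMinor (p.toLin (Pi.single s 1)) x.1.1 x.2.1 x.2.2 := by
    have h3 : minorMap n d (p.toLin w) = ∑ s, w s • minorMap n d (p.toLin (Pi.single s 1)) := by
      conv_lhs => rw [h1, map_sum, map_sum]
      refine Finset.sum_congr rfl fun s _ => ?_
      rw [map_smul, map_smul]
    have h4 := congrFun (congrFun (congrFun h3 x.1.1) x.2.1) x.2.2
    rw [Finset.sum_apply, Finset.sum_apply, Finset.sum_apply] at h4
    exact h4
  rw [h2, map_sum]
  refine Finset.sum_congr rfl fun s _ => ?_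
  rw [smul_eq_C_mul, map_mul, eval_C, mul_comm]

/-- lower bound -/
theorem lower_bound {m e : ℕ} (hn : 1 ≤ n) (he : 2 ≤ e) (p : Param n (e + 1) m) {D : ℕ}
    (c : Fin (e + 1) × Fin D → Fin (n + 1)) (u₀ : (Fin (e + 1) × Fin D) × Fin n → ℂ)
    (hgood : Good (fermat n (e + 1)) c u₀) :
    (m : WithBot ℕ∞) ≤ ringKrullDim (CoordRing {u : (Fin (e + 1) × Fin D) × Fin n → ℂ |
      ∃ T : Tensor n (e + 1), Good T c u}) := by
  classical
  obtain ⟨w₀, hw₀⟩ := p.decomp (fermat n (e + 1))
  -- the Fermat tensor is not in the kernel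
  have hfk : fermat n (e + 1) ∉ minorKer n (e + 1) := by
    intro h
    obtain ⟨o, ho⟩ : ∃ o : Fin (n + 1), o ≠ 0 := by
      have : Nontrivial (Fin (n + 1)) := by
        rw [Fin.nontrivial_iff_two_le]; omega
      exact exists_ne 0
    have h1 := congrArg (eval (fun x : Fin (n + 1) => if x = o then (3 : ℂ) else 1))
      (mem_minorKer.mp h 0 0 o)
    rw [eval_minor_fermat, map_zero] at h1
    have e1 : th (0 : Fin (n + 1)) = 2 := by rw [th, if_pos rfl]
    have e2 : th o = 1 := by rw [th, if_neg ho]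
    rw [e1, e2, if_neg (Ne.symm ho), if_pos rfl, show e + 1 - 1 = (e - 1) + 1 by omega,
      pow_succ] at h1
    have h2 : (3 : ℂ) ^ (e - 1) = 2 := by
      simp only [one_pow, mul_one, one_mul] at h1
      linear_combination (1 / 3) * h1
    have h3 : ((3 ^ (e - 1) : ℕ) : ℂ) = ((2 : ℕ) : ℂ) := by push_cast; exact h2
    rw [Nat.cast_inj] at h3
    have h4 : 3 ^ 1 ≤ 3 ^ (e - 1) := Nat.pow_le_pow_right (by norm_num) (by omega)
    omega
  have hw₀ne : w₀ ≠ 0 := by
    rintro rfl
    rw [map_zero, sub_zero] at hw₀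
    exact hfk hw₀
  obtain ⟨a, ha⟩ : ∃ a, w₀ a ≠ 0 := by
    by_contra hcon
    push Not at hcon
    exact hw₀ne (funext hcon)
  set w₁ : Fin (m + 1) → ℂ := (w₀ a)⁻¹ • w₀ with hw₁
  have hw₁a : w₁ a = 1 := by rw [hw₁, Pi.smul_apply, smul_eq_mul, inv_mul_cancel₀ ha]
  have hgood₀ : Good (p.toLin w₀) c u₀ := by
    have h1 : p.toLin w₀ = fermat n (e + 1) + -(fermat n (e + 1) - p.toLin w₀) := by abel
    rw [h1]
    exact good_add_ker hgood (Submodule.neg_mem _ hw₀)
  have hgood₁ : Good (p.toLin w₁) c u₀ := by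
    rw [hw₁, map_smul]
    exact good_smul hgood₀ _ (inv_ne_zero ha)
  -- solve the linear system
  obtain ⟨Δ, hh, hdet0, hhev⟩ := exists_solution (lam p c) a u₀ (by
    intro w hw hwa
    have h1 : ∀ kq i j, eval (pt c u₀ kq) (eigMinor (p.toLin w) kq.1 i j) = 0 := by
      intro kq i j
      rw [← sum_lam p c (kq, i, j) u₀ w]
      exact hw (kq, i, j)
    obtain ⟨t, ht⟩ := fermat_unique hn he c u₀ hgood (p.toLin w) h1
    have h2 : w - t • w₀ = 0 := by
      apply p.inj
      rw [map_sub, map_smul]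
      have h3 : p.toLin w - t • p.toLin w₀ = (p.toLin w - t • fermat n (e + 1)) +
          t • (fermat n (e + 1) - p.toLin w₀) := by
        rw [smul_sub]; abel
      rw [h3]
      exact Submodule.add_mem _ ht (Submodule.smul_mem _ _ hw₀)
    have h3 : w = t • w₀ := sub_eq_zero.mp h2
    rw [h3, Pi.smul_apply, smul_eq_mul] at hwa
    have h5 : t = 0 := (mul_eq_zero.mp hwa).resolve_right ha
    rw [h3, h5, zero_smul])
  -- apply the criterion
  let hf : Fin (m + 1) → MvPolynomial ((Fin (e + 1) × Fin D) × Fin n) ℂ := fun r =>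
    Fin.cases (motive := fun _ => MvPolynomial ((Fin (e + 1) × Fin D) × Fin n) ℂ) (hh a)
      (fun i => hh (a.succAbove i)) r
  refine le_dim_of_image _ hf (fun i => w₁ (a.succAbove i)) ?_
  have hU : {u : (Fin (e + 1) × Fin D) × Fin n → ℂ | eval u Δ ≠ 0} ∈ 𝓝 u₀ :=
    (MvPolynomial.continuous_eval Δ).continuousAt.eventually_ne hdet0
  have h1 := perturb (p.toLin w₁) c u₀ hgood₁ _ hU
  let emb : (Fin m → ℂ) → Tensor n (e + 1) := fun z => p.toLin (a.insertNth 1 z)
  have hemb : Continuous emb := by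
    have hcont : Continuous p.toLin := p.toLin.continuous_of_finiteDimensional
    refine hcont.comp ?_
    rw [continuous_pi_iff]
    intro r
    rcases Fin.eq_self_or_eq_succAbove a r with h | ⟨i, h⟩
    · simp only [h, Fin.insertNth_apply_same]
      exact continuous_const
    · simp only [h, Fin.insertNth_apply_succAbove]
      exact continuous_apply i
  have hemb1 : emb (fun i => w₁ (a.succAbove i)) = p.toLin w₁ := by
    show p.toLin (a.insertNth 1 (fun i => w₁ (a.succAbove i))) = p.toLin w₁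
    congr 1
    funext r
    rcases Fin.eq_self_or_eq_succAbove a r with h | ⟨i, h⟩
    · rw [h, Fin.insertNth_apply_same, hw₁a]
    · rw [h, Fin.insertNth_apply_succAbove]
  have h2 : ∀ᶠ z in 𝓝 (fun i => w₁ (a.succAbove i)),
      ∃ u ∈ {u : (Fin (e + 1) × Fin D) × Fin n → ℂ | eval u Δ ≠ 0}, Good (emb z) c u := by
    rw [← hemb1] at h1
    exact hemb.continuousAt.eventually h1
  filter_upwards [h2] with z ⟨u, hu, hg⟩
  have hwa : (a.insertNth 1 z : Fin (m + 1) → ℂ) a = 1 := Fin.insertNth_apply_same _ _ _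
  have h3 := hhev u (a.insertNth 1 z) (fun x => by
    rw [sum_lam]
    exact hg.eig x.1 _ _) hwa
  refine ⟨u, ⟨_, hg⟩, ?_, ?_⟩
  · show eval u (hh a) ≠ 0
    rw [h3, hwa, mul_one]
    exact hu
  · intro i
    show eval u (hh (a.succAbove i)) = z i * eval u (hh a)
    rw [h3, h3, hwa, Fin.insertNth_apply_succAbove]
    ring

end MP72974f
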