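import Pool.Agent.H41.EigHom

/-!
The image of the map sending a tensor to all its contractions.
-/

open MvPolynomial

namespace MP72974f

variable {n e : ℕ}

/-- derivative of a product -/
theorem derivation_prod {ι A : Type} [CommRing A] [Algebra ℂ A] [DecidableEq ι]
    (D : Derivation ℂ A A) (s : Finset ι) (f : ι → A) :
    D (∏ m ∈ s, f m) = ∑ k ∈ s, (∏ m ∈ s.erase k, f m) * D (f k) := by
  induction s using Finset.induction_on with
  | empty => simp
  | insert a s ha ih =>
    rw [Finset.prod_insert ha, Derivation.leibniz, Finset.sum_insert ha, Finset.erase_insert ha,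
      smul_eq_mul, smul_eq_mul, ih, Finset.mul_sum, add_comm]
    congr 1
    refine Finset.sum_congr rfl fun k hk => ?_
    have hka : a ≠ k := fun h => ha (h ▸ hk)
    rw [Finset.erase_insert_of_ne hka, Finset.prod_insert (by simp [ha])]
    ring

/-- contraction as a linear map -/
noncomputable def ctrLin {d : ℕ} (k : Fin d) (j : Fin (n + 1)) :
    Tensor n d →ₗ[ℂ] MvPolynomial (Fin (n + 1)) ℂ where
  toFun T := contraction T k j
  map_add' T T' := contraction_add T T' k j
  map_smul' c T := by rw [contraction_smul, RingHom.id_apply, smul_eq_C_mul]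

theorem ctrLin_apply {d : ℕ} (k : Fin d) (j : Fin (n + 1)) (T : Tensor n d) :
    ctrLin k j T = contraction T k j := rfl

/-- all contractions of a tensor -/
noncomputable def gMap (n e : ℕ) : Tensor n (e + 1) →ₗ[ℂ] (Fin (e + 1) → Fin (n + 1) → Hm n e) where
  toFun T := fun k j => ⟨contraction T k j, contraction_homogeneous T k j⟩
  map_add' T T' := by
    funext k j
    exact Subtype.ext (contraction_add T T' k j)
  map_smul' c T := by
    funext k j
    refine Subtype.ext ?_
    show contraction (c • T) k j = c • contraction T k j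
    rw [contraction_smul, smul_eq_C_mul]

theorem gMap_coe (T : Tensor n (e + 1)) (k : Fin (e + 1)) (j : Fin (n + 1)) :
    (gMap n e T k j : MvPolynomial (Fin (n + 1)) ℂ) = contraction T k j := rfl

/-- `q ↦ ∑ X_j q_j` -/
noncomputable def sig (n m : ℕ) : (Fin (n + 1) → Hm n m) →ₗ[ℂ] Hm n (m + 1) where
  toFun q := ⟨∑ j, X j * (q j : MvPolynomial (Fin (n + 1)) ℂ), by
    rw [mem_homogeneousSubmodule]
    refine IsHomogeneous.sum _ _ _ fun j _ => ?_
    have := (isHomogeneous_X ℂ j).mul ((mem_homogeneousSubmodule _ _).mp (q j).2)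
    rwa [add_comm 1 m] at this⟩
  map_add' q q' := by
    refine Subtype.ext ?_
    show ∑ j, X j * ((q j : MvPolynomial (Fin (n + 1)) ℂ) + (q' j : MvPolynomial (Fin (n + 1)) ℂ)) =
      ∑ j, X j * (q j : MvPolynomial (Fin (n + 1)) ℂ) +
        ∑ j, X j * (q' j : MvPolynomial (Fin (n + 1)) ℂ)
    rw [← Finset.sum_add_distrib]
    exact Finset.sum_congr rfl fun j _ => mul_add _ _ _
  map_smul' c q := by
    refine Subtype.ext ?_
    show ∑ j, X j * (c • (q j : MvPolynomial (Fin (n + 1)) ℂ)) =
      c • ∑ j, X j * (q j : MvPolynomial (Fin (n + 1)) ℂ)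
    rw [Finset.smul_sum]
    exact Finset.sum_congr rfl fun j _ => mul_smul_comm _ _ _

theorem sig_coe {m : ℕ} (q : Fin (n + 1) → Hm n m) :
    (sig n m q : MvPolynomial (Fin (n + 1)) ℂ) = ∑ j, X j * (q j : MvPolynomial (Fin (n + 1)) ℂ) :=
  rfl

/-- gradient -/
noncomputable def grad (n m : ℕ) : Hm n (m + 1) →ₗ[ℂ] (Fin (n + 1) → Hm n m) where
  toFun f := fun j => ⟨pderiv j (f : MvPolynomial (Fin (n + 1)) ℂ), by
    rw [mem_homogeneousSubmodule]
    have := ((mem_homogeneousSubmodule _ _).mp f.2).pderiv (i := j)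
    simpa using this⟩
  map_add' f f' := by
    funext j
    refine Subtype.ext ?_
    exact map_add (pderiv j) (f : MvPolynomial (Fin (n + 1)) ℂ) (f' : MvPolynomial (Fin (n + 1)) ℂ)
  map_smul' c f := by
    funext j
    refine Subtype.ext ?_
    exact (pderiv j).map_smul c (f : MvPolynomial (Fin (n + 1)) ℂ)

theorem grad_coe {m : ℕ} (f : Hm n (m + 1)) (j : Fin (n + 1)) :
    (grad n m f j : MvPolynomial (Fin (n + 1)) ℂ) = pderiv j (f : MvPolynomial (Fin (n + 1)) ℂ) :=
  rfl

theorem sig_grad {m : ℕ} (f : Hm n (m + 1)) : sig n m (grad n m f) = ((m + 1 : ℕ) : ℂ) • f := by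
  refine Subtype.ext ?_
  rw [sig_coe]
  have h := ((mem_homogeneousSubmodule _ _).mp f.2).sum_X_mul_pderiv
  show ∑ j, X j * pderiv j (f : MvPolynomial (Fin (n + 1)) ℂ) =
    ((m + 1 : ℕ) : ℂ) • (f : MvPolynomial (Fin (n + 1)) ℂ)
  rw [h, Nat.cast_smul_eq_nsmul]

theorem sig_surjective (m : ℕ) : Function.Surjective (sig n m) := by
  intro f
  have hne : ((m + 1 : ℕ) : ℂ) ≠ 0 := Nat.cast_ne_zero.mpr (Nat.succ_ne_zero _)
  refine ⟨((m + 1 : ℕ) : ℂ)⁻¹ • grad n m f, ?_⟩
  rw [map_smul, sig_grad, smul_smul, inv_mul_cancel₀ hne, one_smul]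

/-- the form attached to a tensor -/
noncomputable def formOf {d : ℕ} (T : Tensor n d) : MvPolynomial (Fin (n + 1)) ℂ :=
  ∑ i : Fin d → Fin (n + 1), C (T i) * wordProd Finset.univ i

theorem sum_X_contraction {d : ℕ} (T : Tensor n d) (k : Fin d) :
    ∑ j, X j * contraction T k j = formOf T := by
  have h1 : ∀ j, X j * contraction T k j = ∑ i : Fin d → Fin (n + 1),
      if i k = j then C (T i) * (X (i k) * ∏ m ∈ Finset.univ.erase k, X (i m)) else 0 := by
    intro j
    rw [contraction, Finset.mul_sum]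
    refine Finset.sum_congr rfl fun i _ => ?_
    split_ifs with h
    · rw [← h]; ring
    · rw [mul_zero]
  simp_rw [h1]
  rw [Finset.sum_comm, formOf]
  refine Finset.sum_congr rfl fun i _ => ?_
  rw [Finset.sum_ite_eq, if_pos (Finset.mem_univ _),
    Finset.mul_prod_erase Finset.univ (fun m => X (i m)) (Finset.mem_univ k)]
  rfl

theorem sum_contraction {d : ℕ} (T : Tensor n d) (j : Fin (n + 1)) :
    ∑ k, contraction T k j = pderiv j (formOf T) := by
  rw [formOf, map_sum]
  simp_rw [contraction]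
  rw [Finset.sum_comm]
  refine Finset.sum_congr rfl fun i _ => ?_
  rw [pderiv_C_mul, wordProd, derivation_prod, Finset.mul_sum]
  refine Finset.sum_congr rfl fun k _ => ?_
  rw [pderiv_X]
  by_cases h : i k = j
  · rw [if_pos h, h, Pi.single_eq_same, mul_one]
  · rw [if_neg h, Pi.single_eq_of_ne h, mul_zero, mul_zero]

/-- contraction of a basis tensor -/
theorem contraction_single {d : ℕ} (w : Fin d → Fin (n + 1)) (k : Fin d) (j : Fin (n + 1)) :
    contraction (Pi.single w 1 : Tensor n d) k j =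
      if w k = j then wordProd (Finset.univ.erase k) w else 0 := by
  rw [contraction, Finset.sum_eq_single w]
  · rw [Pi.single_eq_same, C_1, one_mul]
    rfl
  · intro i _ hi
    rw [Pi.single_eq_of_ne hi, C_0, zero_mul, ite_self]
  · intro h
    exact absurd (Finset.mem_univ w) h

end MP72974f
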