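import Pool.Agent.H41.EigRankA

/-!
The image of the map sending a tensor to all its contractions: Koszul relations.
-/

open MvPolynomial

namespace MP72974f

variable {n e : ℕ}

/-- the Koszul element `p (X_a e_b - X_b e_a)` -/
noncomputable def kos (p : MvPolynomial (Fin (n + 1)) ℂ) (a b j : Fin (n + 1)) :
    MvPolynomial (Fin (n + 1)) ℂ :=
  p * ((if b = j then X a else 0) - (if a = j then X b else 0))

theorem kos_add (p q : MvPolynomial (Fin (n + 1)) ℂ) (a b j : Fin (n + 1)) :
    kos (p + q) a b j = kos p a b j + kos q a b j := add_mul _ _ _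

theorem kos_smul (c : ℂ) (p : MvPolynomial (Fin (n + 1)) ℂ) (a b j : Fin (n + 1)) :
    kos (c • p) a b j = c • kos p a b j := smul_mul_assoc _ _ _

/-- the prescribed values of the contractions -/
noncomputable def kosVal (k1 : Fin (e + 1)) (p : MvPolynomial (Fin (n + 1)) ℂ)
    (a b : Fin (n + 1)) (k' : Fin (e + 1)) (j : Fin (n + 1)) : MvPolynomial (Fin (n + 1)) ℂ :=
  if k' = k1 then kos p a b j else if k' = 0 then -kos p a b j else 0

theorem exists_tensor_word (k1 : Fin (e + 1)) (hk1 : k1 ≠ 0) (a b : Fin (n + 1))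
    (w : Fin (e + 1) → Fin (n + 1)) :
    ∃ T : Tensor n (e + 1), ∀ k' j, contraction T k' j =
      kosVal k1 (wordProd ((Finset.univ.erase 0).erase k1) w) a b k' j := by
  classical
  set s : Finset (Fin (e + 1)) := (Finset.univ.erase 0).erase k1 with hs
  set w' : Fin (e + 1) → Fin (n + 1) := Function.update (Function.update w 0 a) k1 b with hw'
  set w'' : Fin (e + 1) → Fin (n + 1) := Function.update (Function.update w 0 b) k1 a with hw''
  have h0s : (0 : Fin (e + 1)) ∉ s := by simp [hs]
  have h1s : k1 ∉ s := by simp [hs]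
  have hw'0 : w' 0 = a := by
    rw [hw', Function.update_of_ne (Ne.symm hk1), Function.update_self]
  have hw'1 : w' k1 = b := by rw [hw', Function.update_self]
  have hw''0 : w'' 0 = b := by
    rw [hw'', Function.update_of_ne (Ne.symm hk1), Function.update_self]
  have hw''1 : w'' k1 = a := by rw [hw'', Function.update_self]
  have hw'k : ∀ m, m ≠ 0 → m ≠ k1 → w' m = w m := fun m h1 h2 => by
    rw [hw', Function.update_of_ne h2, Function.update_of_ne h1]
  have hw''k : ∀ m, m ≠ 0 → m ≠ k1 → w'' m = w m := fun m h1 h2 => by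
    rw [hw'', Function.update_of_ne h2, Function.update_of_ne h1]
  have hws' : wordProd s w' = wordProd s w := wordProd_congr _ _ _ fun m hm => by
    apply hw'k
    · rintro rfl; exact h0s hm
    · rintro rfl; exact h1s hm
  have hws'' : wordProd s w'' = wordProd s w := wordProd_congr _ _ _ fun m hm => by
    apply hw''k
    · rintro rfl; exact h0s hm
    · rintro rfl; exact h1s hm
  -- products over the complement of one position
  have hE1 : (Finset.univ.erase k1 : Finset (Fin (e + 1))) = insert 0 s := by
    ext m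
    simp only [hs, Finset.mem_erase, Finset.mem_univ, and_true, Finset.mem_insert]
    constructor
    · intro h
      by_cases h0 : m = 0
      · exact Or.inl h0
      · exact Or.inr ⟨h, h0⟩
    · rintro (h | h)
      · rw [h]; exact Ne.symm hk1
      · exact h.1
  have hE0 : (Finset.univ.erase 0 : Finset (Fin (e + 1))) = insert k1 s := by
    ext m
    simp only [hs, Finset.mem_erase, Finset.mem_univ, and_true, Finset.mem_insert]
    constructor
    · intro h
      by_cases h0 : m = k1
      · exact Or.inl h0
      · exact Or.inr ⟨h0, h⟩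
    · rintro (h | h)
      · rw [h]; exact hk1
      · exact h.2
  have hP1 : ∀ v : Fin (e + 1) → Fin (n + 1), wordProd (Finset.univ.erase k1) v =
      X (v 0) * wordProd s v := by
    intro v
    rw [hE1, wordProd, Finset.prod_insert h0s]; rfl
  have hP0 : ∀ v : Fin (e + 1) → Fin (n + 1), wordProd (Finset.univ.erase 0) v =
      X (v k1) * wordProd s v := by
    intro v
    rw [hE0, wordProd, Finset.prod_insert h1s]; rfl
  refine ⟨Pi.single w' 1 - Pi.single w'' 1, fun k' j => ?_⟩
  have hsub : contraction (Pi.single w' 1 - Pi.single w'' 1 : Tensor n (e + 1)) k' j =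
      contraction (Pi.single w' 1 : Tensor n (e + 1)) k' j -
        contraction (Pi.single w'' 1 : Tensor n (e + 1)) k' j :=
    map_sub (ctrLin k' j) _ _
  rw [hsub, contraction_single, contraction_single, kosVal]
  by_cases hk' : k' = k1
  · rw [if_pos hk', hk', hw'1, hw''1, hP1, hP1, hw'0, hw''0, hws', hws'', kos]
    split_ifs <;> ring
  · rw [if_neg hk']
    by_cases hk0 : k' = 0
    · rw [if_pos hk0, hk0, hw'0, hw''0, hP0, hP0, hw'1, hw''1, hws', hws'', kos]
      split_ifs <;> ring
    · rw [if_neg hk0, hw'k k' hk0 hk', hw''k k' hk0 hk']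
      have h1 : wordProd (Finset.univ.erase k') w' = wordProd (Finset.univ.erase k') w'' := by
        have hE : (Finset.univ.erase k' : Finset (Fin (e + 1))) =
            insert 0 (insert k1 (s.erase k')) := by
          ext m
          simp only [hs, Finset.mem_erase, Finset.mem_univ, and_true, Finset.mem_insert]
          constructor
          · intro h
            by_cases h0 : m = 0
            · exact Or.inl h0
            · by_cases h1 : m = k1
              · exact Or.inr (Or.inl h1)
              · exact Or.inr (Or.inr ⟨h, h1, h0⟩)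
          · rintro (h | h | h)
            · rw [h]; exact Ne.symm hk0
            · rw [h]; exact Ne.symm hk'
            · exact h.1
        have h2 : ∀ v : Fin (e + 1) → Fin (n + 1), wordProd (Finset.univ.erase k') v =
            X (v 0) * (X (v k1) * wordProd (s.erase k') v) := by
          intro v
          rw [hE, wordProd, Finset.prod_insert, Finset.prod_insert]
          · rfl
          · simp [hs]
          · simp [hs, Ne.symm hk1]
        rw [h2, h2, hw'0, hw'1, hw''0, hw''1, wordProd_congr (s.erase k') w' w'']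
        · ring
        · intro m hm
          have hms : m ∈ s := Finset.mem_of_mem_erase hm
          have hm0 : m ≠ 0 := by rintro rfl; exact h0s hms
          have hm1 : m ≠ k1 := by rintro rfl; exact h1s hms
          rw [hw'k m hm0 hm1, hw''k m hm0 hm1]
      rw [h1, sub_self]

theorem card_erase_erase (k1 : Fin (e + 1)) (hk1 : k1 ≠ 0) :
    ((Finset.univ.erase 0).erase k1 : Finset (Fin (e + 1))).card = e - 1 := by
  rw [Finset.card_erase_of_mem (by simp [hk1]), Finset.card_erase_of_mem (Finset.mem_univ _),
    Finset.card_univ, Fintype.card_fin]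
  rfl

theorem exists_tensor_kos (k1 : Fin (e + 1)) (hk1 : k1 ≠ 0) (a b : Fin (n + 1))
    (p : MvPolynomial (Fin (n + 1)) ℂ) (hp : p.IsHomogeneous (e - 1)) :
    ∃ T : Tensor n (e + 1), ∀ k' j, contraction T k' j = kosVal k1 p a b k' j := by
  have hmem := mem_span_words ((Finset.univ.erase 0).erase k1 : Finset (Fin (e + 1))) p (by
    rw [card_erase_erase k1 hk1]; exact hp)
  refine Submodule.span_induction ?_ ?_ ?_ ?_ hmem
  · rintro _ ⟨w, rfl⟩
    exact exists_tensor_word k1 hk1 a b w
  · refine ⟨0, fun k' j => ?_⟩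
    have : contraction (0 : Tensor n (e + 1)) k' j = 0 := map_zero (ctrLin k' j)
    rw [this, kosVal, kos, zero_mul, neg_zero, ite_self, ite_self]
  · rintro x y _ _ ⟨T, hT⟩ ⟨T', hT'⟩
    refine ⟨T + T', fun k' j => ?_⟩
    rw [contraction_add, hT, hT', kosVal, kosVal, kosVal, kos_add]
    split_ifs
    · rfl
    · ring
    · rw [add_zero]
  · rintro c x _ ⟨T, hT⟩
    refine ⟨c • T, fun k' j => ?_⟩
    have : contraction (c • T) k' j = c • contraction T k' j := (ctrLin k' j).map_smul c T
    rw [this, hT, kosVal, kosVal, kos_smul]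
    split_ifs
    · rfl
    · rw [smul_neg]
    · rw [smul_zero]

/-- syzygies are Koszul: the homotopy formula -/
theorem syzygy_formula (y : Fin (n + 1) → MvPolynomial (Fin (n + 1)) ℂ)
    (hy : ∀ j, (y j).IsHomogeneous e) (hsum : ∑ j, X j * y j = 0) (j : Fin (n + 1)) :
    ∑ a, X a * (pderiv a (y j) - pderiv j (y a)) = ((e + 1 : ℕ) : ℂ) • y j := by
  have h1 : ∑ a, X a * pderiv a (y j) = e • y j := (hy j).sum_X_mul_pderiv
  have h2 : ∑ a, X a * pderiv j (y a) = -y j := by
    have h3 := congrArg (pderiv j) hsum
    rw [map_sum, map_zero] at h3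
    have h4 : ∀ a, pderiv j (X a * y a) = X a * pderiv j (y a) + (if a = j then y a else 0) := by
      intro a
      rw [Derivation.leibniz, pderiv_X, smul_eq_mul, smul_eq_mul]
      by_cases h : a = j
      · rw [if_pos h, h, Pi.single_eq_same, mul_one]
      · rw [if_neg h, Pi.single_eq_of_ne h, mul_zero]
    simp_rw [h4] at h3
    rw [Finset.sum_add_distrib, Finset.sum_ite_eq' Finset.univ j, if_pos (Finset.mem_univ _)] at h3
    linear_combination h3
  simp_rw [mul_sub]
  rw [Finset.sum_sub_distrib, h1, h2, Nat.cast_smul_eq_nsmul, add_smul, one_smul, sub_neg_eq_add]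

/-- a tensor with prescribed contractions `y` at `k1`, `-y` at `0`, and `0` elsewhere -/
theorem exists_tensor_syz (k1 : Fin (e + 1)) (hk1 : k1 ≠ 0)
    (y : Fin (n + 1) → MvPolynomial (Fin (n + 1)) ℂ)
    (hy : ∀ j, (y j).IsHomogeneous e) (hsum : ∑ j, X j * y j = 0) :
    ∃ T : Tensor n (e + 1), ∀ k' j, contraction T k' j =
      if k' = k1 then y j else if k' = 0 then -y j else 0 := by
  have hK : ∀ a b, (pderiv a (y b) - pderiv b (y a)).IsHomogeneous (e - 1) := fun a b =>
    ((hy b).pderiv).sub ((hy a).pderiv)
  choose T hT using fun a b => exists_tensor_kos k1 hk1 a b _ (hK a b)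
  set c : ℂ := (2 * ((e + 1 : ℕ) : ℂ))⁻¹ with hc
  have hne : (2 * ((e + 1 : ℕ) : ℂ)) ≠ 0 :=
    mul_ne_zero two_ne_zero (Nat.cast_ne_zero.mpr (Nat.succ_ne_zero _))
  refine ⟨c • ∑ a, ∑ b, T a b, fun k' j => ?_⟩
  have h1 : contraction (c • ∑ a, ∑ b, T a b) k' j = c • ∑ a, ∑ b, contraction (T a b) k' j := by
    have : ctrLin k' j (c • ∑ a, ∑ b, T a b) = c • ∑ a, ∑ b, ctrLin k' j (T a b) := by
      rw [map_smul, map_sum]
      congr 1
      exact Finset.sum_congr rfl fun a _ => map_sum _ _ _
    exact this
  have h2 : ∑ a, ∑ b, kos (pderiv a (y b) - pderiv b (y a)) a b j =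
      (2 * ((e + 1 : ℕ) : ℂ)) • y j := by
    have h3 : ∀ a, ∑ b, kos (pderiv a (y b) - pderiv b (y a)) a b j =
        X a * (pderiv a (y j) - pderiv j (y a)) +
          (if a = j then ∑ b, X b * (pderiv b (y j) - pderiv j (y b)) else 0) := by
      intro a
      simp_rw [kos, mul_sub]
      rw [Finset.sum_sub_distrib]
      have h4 : ∑ b, (pderiv a (y b) - pderiv b (y a)) * (if b = j then X a else 0) =
          X a * (pderiv a (y j) - pderiv j (y a)) := by
        simp_rw [mul_ite, mul_zero]
        rw [Finset.sum_ite_eq' Finset.univ j, if_pos (Finset.mem_univ _)]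
        ring
      rw [h4]
      by_cases h : a = j
      · rw [if_pos h]
        simp_rw [if_pos h]
        rw [h, sub_eq_add_neg, ← Finset.sum_neg_distrib]
        congr 1
        · ring
        · refine Finset.sum_congr rfl fun b _ => ?_
          ring
      · rw [if_neg h]
        simp_rw [if_neg h]
        rw [Finset.sum_congr rfl (fun b _ => mul_zero _), Finset.sum_const_zero]
        ring
    simp_rw [h3]
    rw [Finset.sum_add_distrib, Finset.sum_ite_eq' Finset.univ j, if_pos (Finset.mem_univ _),
      syzygy_formula y hy hsum j, two_mul, add_smul]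
  rw [h1]
  simp_rw [hT, kosVal]
  by_cases hk' : k' = k1
  · simp_rw [if_pos hk']
    rw [h2, smul_smul, hc, inv_mul_cancel₀ hne, one_smul]
  · simp_rw [if_neg hk']
    by_cases hk0 : k' = 0
    · simp_rw [if_pos hk0, Finset.sum_neg_distrib]
      rw [h2, smul_neg, smul_smul, hc, inv_mul_cancel₀ hne, one_smul]
    · simp_rw [if_neg hk0, Finset.sum_const_zero]
      rw [smul_zero]

end MP72974f
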