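import Pool.Agent.H41.EigRankB

/-!
The dimension of the space of all systems of contractions, and of the space of minors.
-/

open MvPolynomial

namespace MP72974f

variable {n e : ℕ}

/-- syzygies -/
noncomputable abbrev Syz (n e : ℕ) : Submodule ℂ (Fin (n + 1) → Hm n e) := LinearMap.ker (sig n e)

theorem finrank_Syz (n e : ℕ) :
    Module.finrank ℂ (Syz n e) + (n + (e + 1)).choose (e + 1) = (n + 1) * (n + e).choose e := by
  have h := LinearMap.finrank_range_add_finrank_ker (sig n e)
  rw [LinearMap.range_eq_top.mpr (sig_surjective e), finrank_top, finrank_Hm,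
    Module.finrank_pi_fintype] at h
  simp only [finrank_Hm, Finset.sum_const, Finset.card_univ, Fintype.card_fin, smul_eq_mul] at h
  have hS : Module.finrank ℂ (Syz n e) = Module.finrank ℂ (LinearMap.ker (sig n e)) := rfl
  rw [hS]
  omega

theorem finrank_Syz' (n e : ℕ) : Module.finrank ℂ (Syz n e) = e * (n + e).choose (e + 1) := by
  have h := finrank_Syz n e
  have h1 : (n + (e + 1)).choose (e + 1) = (n + e).choose e + (n + e).choose (e + 1) := by
    rw [← add_assoc, Nat.choose_succ_succ]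
  have h2 : (n + e).choose (e + 1) * (e + 1) = (n + e).choose e * n := by
    rw [Nat.choose_succ_right_eq]
    congr 1
    omega
  rw [h1] at h
  nlinarith [h, h2]

/-- parametrisation of the systems of contractions -/
noncomputable def iot (n e : ℕ) :
    (Hm n (e + 1) × (Fin e → Syz n e)) →ₗ[ℂ] (Fin (e + 1) → Fin (n + 1) → Hm n e) where
  toFun p := fun k => ((e + 1 : ℕ) : ℂ)⁻¹ • grad n e p.1 +
    Fin.cases (motive := fun _ => Fin (n + 1) → Hm n e) (-∑ k', (p.2 k' : Fin (n + 1) → Hm n e))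
      (fun k' => (p.2 k' : Fin (n + 1) → Hm n e)) k
  map_add' p q := by
    funext k
    refine Fin.cases ?_ (fun k' => ?_) k
    · simp only [Prod.fst_add, Prod.snd_add, map_add, smul_add, Fin.cases_zero, Pi.add_apply,
        Submodule.coe_add, Finset.sum_add_distrib]
      abel
    · simp only [Prod.fst_add, Prod.snd_add, map_add, smul_add, Fin.cases_succ, Pi.add_apply,
        Submodule.coe_add]
      abel
  map_smul' c p := by
    funext k
    refine Fin.cases ?_ (fun k' => ?_) k
    · simp only [Prod.smul_fst, Prod.smul_snd, map_smul, Fin.cases_zero, Pi.smul_apply,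
        Submodule.coe_smul, RingHom.id_apply, smul_add, smul_neg, Finset.smul_sum, smul_comm c]
    · simp only [Prod.smul_fst, Prod.smul_snd, map_smul, Fin.cases_succ, Pi.smul_apply,
        Submodule.coe_smul, RingHom.id_apply, smul_add, smul_comm c]

theorem iot_zero (p : Hm n (e + 1) × (Fin e → Syz n e)) :
    iot n e p 0 = ((e + 1 : ℕ) : ℂ)⁻¹ • grad n e p.1 - ∑ k', (p.2 k' : Fin (n + 1) → Hm n e) := by
  rw [sub_eq_add_neg]; rfl

theorem iot_succ (p : Hm n (e + 1) × (Fin e → Syz n e)) (k : Fin e) :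
    iot n e p k.succ = ((e + 1 : ℕ) : ℂ)⁻¹ • grad n e p.1 + (p.2 k : Fin (n + 1) → Hm n e) := rfl

theorem ne_e : ((e + 1 : ℕ) : ℂ) ≠ 0 := Nat.cast_ne_zero.mpr (Nat.succ_ne_zero _)

theorem sig_iot (p : Hm n (e + 1) × (Fin e → Syz n e)) (k : Fin (e + 1)) :
    sig n e (iot n e p k) = p.1 := by
  refine Fin.cases ?_ (fun k' => ?_) k
  · rw [iot_zero, map_sub, map_smul, sig_grad, smul_smul, inv_mul_cancel₀ ne_e, one_smul, map_sum]
    rw [Finset.sum_eq_zero fun k' _ => LinearMap.mem_ker.mp (p.2 k').2, sub_zero]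
  · rw [iot_succ, map_add, map_smul, sig_grad, smul_smul, inv_mul_cancel₀ ne_e, one_smul,
      LinearMap.mem_ker.mp (p.2 k').2, add_zero]

theorem iot_injective (n e : ℕ) : Function.Injective (iot n e) := by
  rw [injective_iff_map_eq_zero]
  intro p hp
  have h1 : p.1 = 0 := by
    rw [← sig_iot p 0, hp, Pi.zero_apply, map_zero]
  have h2 : p.2 = 0 := by
    funext k
    have h3 := congrFun hp k.succ
    rw [iot_succ, h1, map_zero, smul_zero, zero_add] at h3
    exact Subtype.ext h3
  exact Prod.ext h1 h2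

theorem sum_iot (p : Hm n (e + 1) × (Fin e → Syz n e)) : ∑ k, iot n e p k = grad n e p.1 := by
  rw [Fin.sum_univ_succ, iot_zero]
  simp_rw [iot_succ]
  rw [Finset.sum_add_distrib, Finset.sum_const, Finset.card_univ, Fintype.card_fin,
    ← Nat.cast_smul_eq_nsmul ℂ]
  have : ((e + 1 : ℕ) : ℂ)⁻¹ • grad n e p.1 + (e : ℂ) • ((e + 1 : ℕ) : ℂ)⁻¹ • grad n e p.1 =
      grad n e p.1 := by
    rw [smul_smul, ← add_smul, show ((e + 1 : ℕ) : ℂ)⁻¹ + (e : ℂ) * ((e + 1 : ℕ) : ℂ)⁻¹ = 1 by
      have := ne_e (e := e)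
      push_cast at this ⊢
      field_simp
      ring, one_smul]
  calc _ = ((e + 1 : ℕ) : ℂ)⁻¹ • grad n e p.1 + (e : ℂ) • ((e + 1 : ℕ) : ℂ)⁻¹ • grad n e p.1 := by
        abel
    _ = _ := this

theorem range_gMap_le : LinearMap.range (gMap n e) ≤ LinearMap.range (iot n e) := by
  rintro _ ⟨T, rfl⟩
  have hform : (formOf T).IsHomogeneous (e + 1) := by
    rw [← sum_X_contraction T 0]
    refine IsHomogeneous.sum _ _ _ fun j _ => ?_
    have := (isHomogeneous_X ℂ j).mul (contraction_homogeneous T 0 j)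
    rwa [show 1 + (e + 1 - 1) = e + 1 by omega] at this
  set f : Hm n (e + 1) := ⟨formOf T, hform⟩ with hf
  have hsig : ∀ k, sig n e (gMap n e T k) = f := by
    intro k
    refine Subtype.ext ?_
    rw [sig_coe]
    exact sum_X_contraction T k
  have hsum : ∑ k, gMap n e T k = grad n e f := by
    funext j
    refine Subtype.ext ?_
    rw [grad_coe, Finset.sum_apply, Submodule.coe_sum]
    exact sum_contraction T j
  have hy : ∀ k, gMap n e T k - ((e + 1 : ℕ) : ℂ)⁻¹ • grad n e f ∈ Syz n e := by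
    intro k
    rw [LinearMap.mem_ker, map_sub, map_smul, sig_grad, smul_smul, inv_mul_cancel₀ ne_e, one_smul,
      hsig, sub_self]
  let y : Fin e → Syz n e := fun k => ⟨gMap n e T k.succ - ((e + 1 : ℕ) : ℂ)⁻¹ • grad n e f, hy _⟩
  refine ⟨(f, y), ?_⟩
  have hsucc : ∀ k : Fin e, iot n e (f, y) k.succ = gMap n e T k.succ := by
    intro k
    rw [iot_succ]
    show ((e + 1 : ℕ) : ℂ)⁻¹ • grad n e f + (gMap n e T k.succ -
      ((e + 1 : ℕ) : ℂ)⁻¹ • grad n e f) = _
    abel
  funext k
  refine Fin.cases ?_ (fun k' => ?_) k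
  · have h1 := sum_iot (f, y)
    rw [Fin.sum_univ_succ] at h1
    simp_rw [hsucc] at h1
    rw [Fin.sum_univ_succ] at hsum
    rw [← hsum] at h1
    exact add_right_cancel h1
  · exact hsucc k'

/-- the syzygy part is realised by tensors -/
theorem iot_syz_mem (k : Fin e) (y : Syz n e) :
    iot n e (0, Pi.single k y) ∈ LinearMap.range (gMap n e) := by
  have hsum : ∑ j, X j * ((y : Fin (n + 1) → Hm n e) j : MvPolynomial (Fin (n + 1)) ℂ) = 0 := by
    have := congrArg Subtype.val (LinearMap.mem_ker.mp y.2)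
    exact this
  obtain ⟨T, hT⟩ := exists_tensor_syz k.succ (Fin.succ_ne_zero k)
    (fun j => ((y : Fin (n + 1) → Hm n e) j : MvPolynomial (Fin (n + 1)) ℂ))
    (fun j => ((y : Fin (n + 1) → Hm n e) j).2) hsum
  refine ⟨T, ?_⟩
  funext k' j
  refine Subtype.ext ?_
  rw [gMap_coe, hT]
  refine Fin.cases ?_ (fun k'' => ?_) k'
  · rw [if_neg (Ne.symm (Fin.succ_ne_zero k)), if_pos rfl, iot_zero]
    have h1 : ∑ k', ((Pi.single k y : Fin e → Syz n e) k' : Fin (n + 1) → Hm n e) =
        (y : Fin (n + 1) → Hm n e) := by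
      rw [Finset.sum_eq_single k]
      · rw [Pi.single_eq_same]
      · intro k' _ hk'
        rw [Pi.single_eq_of_ne hk']
        rfl
      · intro h
        exact absurd (Finset.mem_univ k) h
    rw [h1]
    simp only [map_zero, smul_zero, zero_sub]
    rfl
  · rw [iot_succ]
    simp only [map_zero, smul_zero, zero_add]
    by_cases h : k'' = k
    · rw [h, if_pos rfl, Pi.single_eq_same]
    · rw [if_neg (fun h' => h (Fin.succ_injective _ h')), if_neg (Fin.succ_ne_zero _),
        Pi.single_eq_of_ne h]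
      rfl

end MP72974f
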