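import Pool.Agent.H41.EigAlg

/-!
Upper bound for the dimension of the image of a correspondence which is generically finite
over a space with a scaling action.
-/

open MvPolynomial

namespace H41.EigAlg

/-- dehomogenisation: `w₀ᵉ s(w'/w₀)` is a polynomial -/
theorem exists_homogenize {m : ℕ} (s : MvPolynomial (Fin m) ℂ) :
    ∃ (e : ℕ) (c : MvPolynomial (Fin (m + 1)) ℂ), ∀ w : Fin (m + 1) → ℂ, w 0 ≠ 0 →
      eval w c = w 0 ^ e * eval (fun i => w i.succ / w 0) s := by
  induction s using MvPolynomial.induction_on with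
  | C a => exact ⟨0, C a, fun w _ => by simp⟩
  | add p q hp hq =>
    obtain ⟨e, c, h⟩ := hp
    obtain ⟨e', c', h'⟩ := hq
    refine ⟨e + e', X 0 ^ e' * c + X 0 ^ e * c', fun w hw => ?_⟩
    rw [map_add, map_mul, map_mul, map_pow, map_pow, eval_X, h w hw, h' w hw, map_add]
    ring
  | mul_X p i hp =>
    obtain ⟨e, c, h⟩ := hp
    refine ⟨e + 1, c * X i.succ, fun w hw => ?_⟩
    rw [map_mul, eval_X, h w hw, map_mul, eval_X, pow_succ]
    field_simp

/-- any nonzero polynomial takes a nonzero value -/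
theorem exists_eval_ne_zero {σ : Type} (P : MvPolynomial σ ℂ) (h : P ≠ 0) :
    ∃ x, eval x P ≠ 0 := by
  by_contra hcon
  push Not at hcon
  exact h (MvPolynomial.funext fun x => by simpa using hcon x)

/-- substitution used to restrict to the slice `w₀ = t` -/
noncomputable def slot {m : ℕ} (t : ℂ) : Option (Fin (m + 1)) → MvPolynomial (Option (Fin m)) ℂ
  | none => X none
  | some i => Fin.cases (motive := fun _ => MvPolynomial (Option (Fin m)) ℂ) (C t)
      (fun i => C t * X (some i)) i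

theorem slot_none {m : ℕ} (t : ℂ) : slot (m := m) t none = X none := rfl
theorem slot_zero {m : ℕ} (t : ℂ) : slot (m := m) t (some 0) = C t := rfl
theorem slot_succ {m : ℕ} (t : ℂ) (i : Fin m) : slot (m := m) t (some i.succ) = C t * X (some i) :=
  rfl

/-- evaluation of the substitution -/
theorem eval_slot {m : ℕ} (t : ℂ) (y : ℂ) (w' : Fin m → ℂ)
    (Q : MvPolynomial (Option (Fin (m + 1))) ℂ) :
    eval (fun o : Option (Fin m) => o.elim y w') (aeval (slot t) Q) =
      eval (fun o : Option (Fin (m + 1)) => o.elim y (t • (Fin.cons 1 w' : Fin (m + 1) → ℂ))) Q := by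
  rw [← aeval_eq_eval', ← aeval_eq_eval', ← AlgHom.comp_apply, comp_aeval]
  congr 2
  funext o
  cases o with
  | none => rw [slot_none]; simp
  | some i =>
    refine Fin.cases ?_ (fun i => ?_) i
    · rw [slot_zero]; simp
    · rw [slot_succ]; simp

/-- the renaming used below -/
def ren {m : ℕ} {β : Type} (b : β) : Option (Fin m) → Fin m ⊕ β :=
  fun o => o.elim (Sum.inr b) Sum.inl

theorem upper_dep {m : ℕ} {β : Type} [Finite β] (G : Set ((Fin (m + 1) → ℂ) × (β → ℂ)))
    (Q : β → MvPolynomial (Option (Fin (m + 1))) ℂ) (hQ : ∀ b, Q b ≠ 0)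
    (hQ0 : ∀ b, ∀ p ∈ G, eval (fun o => o.elim (p.2 b) p.1) (Q b) = 0)
    (hscale : ∀ p ∈ G, ∀ t : ℂ, t ≠ 0 → (t • p.1, p.2) ∈ G)
    (hdens : ∀ c : MvPolynomial (Fin (m + 1)) ℂ, c ≠ 0 → ∀ h : MvPolynomial β ℂ,
      (∀ p ∈ G, eval p.1 c ≠ 0 → eval p.2 h = 0) → ∀ p ∈ G, eval p.2 h = 0)
    (g : Fin (m + 1) → MvPolynomial β ℂ) :
    ∃ P : MvPolynomial (Fin (m + 1)) ℂ, P ≠ 0 ∧ ∀ p ∈ G, eval p.2 (aeval g P) = 0 := by
  classical
  -- choose for each `b` a scaling parameter
  have hch : ∀ b, ∃ t : ℂ, t ≠ 0 ∧ aeval (slot t) (Q b) ≠ 0 := by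
    intro b
    obtain ⟨x, hx⟩ := exists_eval_ne_zero (Q b * X (some 0)) (mul_ne_zero (hQ b) (X_ne_zero _))
    rw [map_mul, eval_X] at hx
    have hx0 : x (some 0) ≠ 0 := right_ne_zero_of_mul hx
    refine ⟨x (some 0), hx0, fun hz => ?_⟩
    have h1 := eval_slot (x (some 0)) (x none) (fun i => x (some i.succ) / x (some 0)) (Q b)
    have h2 : (fun o : Option (Fin (m + 1)) => o.elim (x none) (x (some 0) •
        (Fin.cons 1 (fun i : Fin m => x (some i.succ) / x (some 0)) : Fin (m + 1) → ℂ))) = x := by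
      funext o
      cases o with
      | none => rfl
      | some i =>
        refine Fin.cases ?_ (fun i => ?_) i
        · simp
        · simp only [Option.elim_some, Pi.smul_apply, Fin.cons_succ, smul_eq_mul]
          field_simp
    rw [h2, hz, map_zero] at h1
    exact (left_ne_zero_of_mul hx) h1.symm
  choose t ht htne using hch
  obtain ⟨s, hs, P, hP, hmem⟩ := exists_rel (fun b => aeval (slot (t b)) (Q b)) htne g
  refine ⟨P, hP, ?_⟩
  -- the relation on the slice `w₀ = 1`
  have hslice : ∀ w' : Fin m → ℂ, ∀ u : β → ℂ, ((Fin.cons 1 w' : Fin (m + 1) → ℂ), u) ∈ G →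
      eval w' s * eval u (aeval g P) = 0 := by
    intro w' u hG
    have hker : ∀ q ∈ Ideal.span (Set.range fun b : β =>
          (rename (fun o : Option (Fin m) => o.elim (Sum.inr b) Sum.inl)
            (aeval (slot (t b)) (Q b)) :
            MvPolynomial (Fin m ⊕ β) ℂ)), eval (Sum.elim w' u) q = 0 := by
      intro q hq
      refine Submodule.span_induction ?_ ?_ ?_ ?_ hq
      · rintro _ ⟨b, rfl⟩
        have h2 := hQ0 b _ (hscale _ hG (t b) (ht b))
        rw [← h2, eval_rename, ← eval_slot]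
        congr 2
        funext o
        cases o with
        | none => rfl
        | some i => rfl
      · exact map_zero _
      · intro x y _ _ hx hy
        rw [map_add, hx, hy, add_zero]
      · intro a x _ hx
        rw [smul_eq_mul, map_mul, hx, mul_zero]
    have h3 := hker _ hmem
    rw [map_mul, eval_rename, eval_rename, Sum.elim_comp_inl, Sum.elim_comp_inr] at h3
    exact h3
  obtain ⟨e, c, hc⟩ := exists_homogenize s
  have hc0 : X 0 * c ≠ 0 := by
    obtain ⟨w', hw'⟩ := exists_eval_ne_zero s hs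
    intro hz
    have h1 : eval (Fin.cons 1 w' : Fin (m + 1) → ℂ) (X 0 * c) = eval w' s := by
      rw [map_mul, hc _ (by rw [Fin.cons_zero]; exact one_ne_zero), eval_X, Fin.cons_zero,
        one_pow, one_mul, one_mul]
      congr 2
      funext i
      rw [Fin.cons_succ, div_one]
    rw [hz, map_zero] at h1
    exact hw' h1.symm
  refine hdens (X 0 * c) hc0 (aeval g P) ?_
  rintro ⟨w, u⟩ hG hw
  rw [map_mul, eval_X] at hw
  have hw0 : w 0 ≠ 0 := left_ne_zero_of_mul hw
  have hw1 := right_ne_zero_of_mul hw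
  rw [hc w hw0] at hw1
  have hw2 := right_ne_zero_of_mul hw1
  have hG' := hscale _ hG (w 0)⁻¹ (inv_ne_zero hw0)
  have heq : (w 0)⁻¹ • w = Fin.cons 1 (fun i : Fin m => w i.succ / w 0) := by
    funext i
    refine Fin.cases ?_ (fun i => ?_) i
    · simp [hw0]
    · simp [div_eq_inv_mul]
  simp only at hG'
  rw [heq] at hG'
  have h5 := hslice _ _ hG'
  exact (mul_eq_zero.mp h5).resolve_left hw2

/-- dependence of functions on a set gives a bound for the Krull dimension -/
theorem dim_le_of_dep {m : ℕ} {β : Type} [Finite β] (S : Set (β → ℂ))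
    (h : ∀ g : Fin (m + 1) → MvPolynomial β ℂ, ∃ P : MvPolynomial (Fin (m + 1)) ℂ, P ≠ 0 ∧
      ∀ u ∈ S, eval u (aeval g P) = 0) :
    ringKrullDim (CoordRing S) ≤ m := by
  have hft : Algebra.FiniteType ℂ (CoordRing S) := inferInstance
  refine ringKrullDim_le_of_dep fun x => ?_
  choose g hg using fun i => Ideal.Quotient.mk_surjective (x i)
  obtain ⟨P, hP, hP0⟩ := h g
  refine ⟨P, hP, ?_⟩
  have h1 : aeval x P = Ideal.Quotient.mkₐ ℂ (vanishingIdeal ℂ S) (aeval g P) := by
    rw [← AlgHom.comp_apply, comp_aeval]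
    have : x = fun i => (Ideal.Quotient.mkₐ ℂ (vanishingIdeal ℂ S)) (g i) := by
      funext i
      exact (hg i).symm
    rw [← this]
  rw [h1]
  apply Ideal.Quotient.eq_zero_iff_mem.mpr
  rw [mem_vanishingIdeal_iff]
  intro u hu
  rw [aeval_eq_eval']
  exact hP0 u hu

/-- upper bound for the Krull dimension of the coordinate ring of the image -/
theorem dim_le_of_correspondence {m : ℕ} {β : Type} [Finite β]
    (G : Set ((Fin (m + 1) → ℂ) × (β → ℂ)))
    (Q : β → MvPolynomial (Option (Fin (m + 1))) ℂ) (hQ : ∀ b, Q b ≠ 0)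
    (hQ0 : ∀ b, ∀ p ∈ G, eval (fun o => o.elim (p.2 b) p.1) (Q b) = 0)
    (hscale : ∀ p ∈ G, ∀ t : ℂ, t ≠ 0 → (t • p.1, p.2) ∈ G)
    (hdens : ∀ c : MvPolynomial (Fin (m + 1)) ℂ, c ≠ 0 → ∀ h : MvPolynomial β ℂ,
      (∀ p ∈ G, eval p.1 c ≠ 0 → eval p.2 h = 0) → ∀ p ∈ G, eval p.2 h = 0)
    (S : Set (β → ℂ)) (hS : ∀ u ∈ S, ∃ w, (w, u) ∈ G) :
    ringKrullDim (CoordRing S) ≤ m := by
  apply dim_le_of_dep
  intro g
  obtain ⟨P, hP, hP0⟩ := upper_dep G Q hQ hQ0 hscale hdens g
  refine ⟨P, hP, fun u hu => ?_⟩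
  obtain ⟨w, hw⟩ := hS u hu
  exact hP0 (w, u) hw

end H41.EigAlg
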