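import Pool.Agent.H41.EigDefs
import Pool.Agent.H41.EigUB

/-!
Zariski topology of affine space and dimension of closed subsets
-/

open MvPolynomial TopologicalSpace Topology

namespace MP72974f

open H41.EigAlg

variable {β : Type}

theorem isTopologicalBasis_affine : IsTopologicalBasis
    {U : Set (Affine β) | ∃ f : MvPolynomial β ℂ, U = {x : Affine β | eval (x : β → ℂ) f ≠ 0}} where
  exists_subset_inter := by
    rintro _ ⟨f, rfl⟩ _ ⟨g, rfl⟩ x ⟨hx, hx'⟩
    refine ⟨_, ⟨f * g, rfl⟩, ?_, ?_⟩
    · show eval (x : β → ℂ) (f * g) ≠ 0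
      rw [map_mul]
      exact mul_ne_zero hx hx'
    · intro y hy
      change eval (y : β → ℂ) (f * g) ≠ 0 at hy
      rw [map_mul] at hy
      exact ⟨left_ne_zero_of_mul hy, right_ne_zero_of_mul hy⟩
  sUnion_eq := by
    rw [Set.eq_univ_iff_forall]
    intro x
    refine Set.mem_sUnion.mpr ⟨_, ⟨1, rfl⟩, ?_⟩
    show eval (x : β → ℂ) 1 ≠ 0
    rw [map_one]
    exact one_ne_zero
  eq_generateFrom := rfl

theorem isOpen_ne_zero (f : MvPolynomial β ℂ) :
    IsOpen {x : Affine β | eval (x : β → ℂ) f ≠ 0} :=
  isTopologicalBasis_affine.isOpen ⟨f, rfl⟩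

theorem isClosed_eq_zero (f : MvPolynomial β ℂ) :
    IsClosed {x : Affine β | eval (x : β → ℂ) f = 0} := by
  rw [← isOpen_compl_iff]
  exact isOpen_ne_zero f

/-- the closure of `S` is the zero locus of the vanishing ideal -/
theorem mem_closure_iff_vanishing (S : Set (Affine β)) (x : Affine β) :
    x ∈ closure S ↔ ∀ f : MvPolynomial β ℂ, (∀ y ∈ S, eval (y : β → ℂ) f = 0) →
      eval (x : β → ℂ) f = 0 := by
  constructor
  · intro hx f hf
    have : closure S ⊆ {x : Affine β | eval (x : β → ℂ) f = 0} :=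
      closure_minimal (fun y hy => hf y hy) (isClosed_eq_zero f)
    exact this hx
  · intro h
    rw [isTopologicalBasis_affine.mem_closure_iff]
    rintro _ ⟨f, rfl⟩ hx
    by_contra hne
    rw [Set.not_nonempty_iff_eq_empty] at hne
    apply hx
    apply h
    intro y hy
    by_contra hy0
    have : y ∈ {x : Affine β | eval (x : β → ℂ) f ≠ 0} ∩ S := ⟨hy0, hy⟩
    rw [hne] at this
    exact this

theorem isClosed_iff_vanishing (S : Set (Affine β)) :
    IsClosed S ↔ ∀ x : Affine β, (∀ f : MvPolynomial β ℂ,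
      (∀ y ∈ S, eval (y : β → ℂ) f = 0) → eval (x : β → ℂ) f = 0) → x ∈ S := by
  rw [← closure_subset_iff_isClosed]
  constructor
  · intro h x hx
    exact h ((mem_closure_iff_vanishing S x).mpr hx)
  · intro h x hx
    exact h x ((mem_closure_iff_vanishing S x).mp hx)

/-- vanishing ideal of a set of points of affine space -/
noncomputable abbrev vI (S : Set (Affine β)) : Ideal (MvPolynomial β ℂ) := vanishingIdeal ℂ (S : Set (β → ℂ))

theorem mem_vI {S : Set (Affine β)} {f : MvPolynomial β ℂ} :
    f ∈ vI S ↔ ∀ y ∈ S, eval (y : β → ℂ) f = 0 := by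
  constructor
  · intro h y hy
    rw [← aeval_eq_eval']
    exact (mem_vanishingIdeal_iff.mp h) y hy
  · intro h
    refine mem_vanishingIdeal_iff.mpr fun y hy => ?_
    rw [aeval_eq_eval']
    exact h y hy

theorem vI_prime {S : Set (Affine β)} (h : IsIrreducible S) : (vI S).IsPrime := by
  refine ⟨?_, ?_⟩
  · rw [Ne, Ideal.eq_top_iff_one, mem_vI]
    intro h1
    obtain ⟨x, hx⟩ := h.1
    have := h1 x hx
    rw [map_one] at this
    exact one_ne_zero this
  · intro f g hfg
    rw [mem_vI] at hfg
    have := (isPreirreducible_iff_isClosed_union_isClosed.mp h.2) _ _ (isClosed_eq_zero f)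
      (isClosed_eq_zero g) (fun x hx => by
        have := hfg x hx
        rw [map_mul, mul_eq_zero] at this
        exact this)
    rcases this with h' | h'
    · left; rw [mem_vI]; exact fun y hy => h' hy
    · right; rw [mem_vI]; exact fun y hy => h' hy

/-- zero locus of an ideal -/
def zL (I : Ideal (MvPolynomial β ℂ)) : Set (Affine β) := {x | ∀ f ∈ I, eval (x : β → ℂ) f = 0}

theorem isClosed_zL (I : Ideal (MvPolynomial β ℂ)) : IsClosed (zL I) := by
  rw [isClosed_iff_vanishing]
  intro x hx f hf
  exact hx f (fun y hy => hy f hf)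

theorem vI_zL [Finite β] (P : Ideal (MvPolynomial β ℂ)) [hP : P.IsPrime] : vI (zL P) = P := by
  have h := IsPrime.vanishingIdeal_zeroLocus (K := ℂ) P
  have h2 : (zL P : Set (β → ℂ)) = zeroLocus ℂ P := by
    apply Set.ext
    intro x
    constructor
    · intro hx
      refine mem_zeroLocus_iff.mpr fun f hf => ?_
      rw [aeval_eq_eval']
      exact hx f hf
    · intro hx f hf
      have := (mem_zeroLocus_iff.mp hx) f hf
      rwa [aeval_eq_eval'] at this
  rw [vI, h2]
  exact h

theorem zL_irreducible [Finite β] (P : Ideal (MvPolynomial β ℂ)) [hP : P.IsPrime] :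
    IsIrreducible (zL P) := by
  have hv := vI_zL P
  constructor
  · by_contra hne
    rw [Set.not_nonempty_iff_eq_empty] at hne
    have : (1 : MvPolynomial β ℂ) ∈ vI (zL P) := by
      rw [mem_vI, hne]
      intro y hy
      exact absurd hy (Set.notMem_empty y)
    rw [hv] at this
    exact hP.ne_top ((Ideal.eq_top_iff_one _).mpr this)
  · rw [isPreirreducible_iff_isClosed_union_isClosed]
    intro Z₁ Z₂ h1 h2 hsub
    by_contra hcon
    push Not at hcon
    obtain ⟨hn1, hn2⟩ := hcon
    obtain ⟨x, hx, hx1⟩ := Set.not_subset.mp hn1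
    obtain ⟨y, hy, hy2⟩ := Set.not_subset.mp hn2
    rw [isClosed_iff_vanishing] at h1 h2
    have e1 : ∃ f : MvPolynomial β ℂ, (∀ y ∈ Z₁, eval (y : β → ℂ) f = 0) ∧
        eval (x : β → ℂ) f ≠ 0 := by
      by_contra hc
      push Not at hc
      exact hx1 (h1 x hc)
    have e2 : ∃ f : MvPolynomial β ℂ, (∀ y ∈ Z₂, eval (y : β → ℂ) f = 0) ∧
        eval (y : β → ℂ) f ≠ 0 := by
      by_contra hc
      push Not at hc
      exact hy2 (h2 y hc)
    obtain ⟨f, hf, hfx⟩ := e1
    obtain ⟨g, hg, hgy⟩ := e2
    have hfP : f ∉ P := fun h => hfx (hx f h)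
    have hgP : g ∉ P := fun h => hgy (hy g h)
    have : f * g ∈ P := by
      rw [← hv, mem_vI]
      intro z hz
      rw [map_mul, mul_eq_zero]
      rcases hsub hz with h | h
      · left; exact hf z h
      · right; exact hg z h
    rcases hP.mem_or_mem this with h | h
    · exact hfP h
    · exact hgP h

theorem vI_anti {S T : Set (Affine β)} (h : S ⊆ T) : vI T ≤ vI S := by
  intro f hf
  rw [mem_vI] at hf ⊢
  exact fun y hy => hf y (h hy)

theorem subset_of_vI_le {S T : Set (Affine β)} (hT : IsClosed T) (h : vI T ≤ vI S) : S ⊆ T := by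
  intro x hx
  rw [isClosed_iff_vanishing] at hT
  refine hT x fun f hf => ?_
  exact (mem_vI.mp (h (mem_vI.mpr hf))) x hx

theorem vI_closure (S : Set (Affine β)) : vI (closure S) = vI S := by
  apply le_antisymm (vI_anti subset_closure)
  intro f hf
  rw [mem_vI] at hf ⊢
  intro y hy
  exact (mem_closure_iff_vanishing S y).mp hy f hf

theorem isIrreducible_image_val {X : Type} [TopologicalSpace X] {E : Set X} {Z : Set E}
    (hZ : IsIrreducible Z) : IsIrreducible (Subtype.val '' Z : Set X) :=
  hZ.image _ continuous_subtype_val.continuousOn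

theorem isPreirreducible_of_image {X Y : Type} [TopologicalSpace X] [TopologicalSpace Y]
    {f : X → Y} (hf : IsInducing f) {Z : Set X} (h : IsPreirreducible (f '' Z)) :
    IsPreirreducible Z := by
  intro U V hU hV hZU hZV
  obtain ⟨U', hU', rfl⟩ := hf.isOpen_iff.mp hU
  obtain ⟨V', hV', rfl⟩ := hf.isOpen_iff.mp hV
  obtain ⟨x, hx, hxU⟩ := hZU
  obtain ⟨y, hy, hyV⟩ := hZV
  obtain ⟨_, ⟨z, hz, rfl⟩, hzU, hzV⟩ := h U' V' hU' hV' ⟨f x, ⟨x, hx, rfl⟩, hxU⟩
    ⟨f y, ⟨y, hy, rfl⟩, hyV⟩
  exact ⟨z, hz, hzU, hzV⟩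

/-- the dimension of the closure of `S` is the Krull dimension of its coordinate ring -/
theorem topologicalKrullDim_closure [Finite β] (S : Set (Affine β)) :
    topologicalKrullDim (closure S) = ringKrullDim (CoordRing (S : Set (β → ℂ))) := by
  have hq : ringKrullDim (CoordRing (S : Set (β → ℂ))) =
      Order.krullDim (PrimeSpectrum.zeroLocus (R := MvPolynomial β ℂ) (vI S)) :=
    ringKrullDim_quotient (vI S)
  rw [hq, topologicalKrullDim]
  apply le_antisymm
  · rw [← Order.krullDim_orderDual (α := PrimeSpectrum.zeroLocus (R := MvPolynomial β ℂ) (vI S))]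
    let F : IrreducibleCloseds (closure S) →
        (PrimeSpectrum.zeroLocus (R := MvPolynomial β ℂ) (vI S))ᵒᵈ := fun Z =>
      OrderDual.toDual ⟨⟨vI (Subtype.val '' (Z : Set (closure S))),
        vI_prime (isIrreducible_image_val Z.isIrreducible')⟩, by
          show vI S ≤ vI _
          rw [← vI_closure]
          apply vI_anti
          rintro _ ⟨x, _, rfl⟩
          exact x.2⟩
    refine Order.krullDim_le_of_strictMono F ?_
    intro Z₁ Z₂ hlt
    have hsub : (Z₁ : Set (closure S)) ⊆ Z₂ := hlt.le
    have hc : ∀ Z : IrreducibleCloseds (closure S),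
        IsClosed (Subtype.val '' (Z : Set (closure S)) : Set (Affine β)) := fun Z =>
      isClosed_closure.isClosedEmbedding_subtypeVal.isClosedMap _ Z.isClosed'
    show vI (Subtype.val '' (Z₂ : Set (closure S))) < vI (Subtype.val '' (Z₁ : Set (closure S)))
    refine lt_of_le_not_ge (vI_anti (Set.image_mono hsub)) fun hle => ?_
    have h1 := subset_of_vI_le (hc Z₁) hle
    have h2 : (Z₂ : Set (closure S)) ⊆ Z₁ := by
      rwa [Set.image_subset_image_iff Subtype.val_injective] at h1
    exact absurd hlt (not_lt_of_ge h2)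
  · rw [← Order.krullDim_orderDual (α := IrreducibleCloseds (closure S))]
    have hirr : ∀ p : PrimeSpectrum (MvPolynomial β ℂ), vI S ≤ p.asIdeal →
        zL p.asIdeal ⊆ closure S := by
      intro p hp x hx
      rw [mem_closure_iff_vanishing]
      intro f hf
      exact hx f (hp (mem_vI.mpr hf))
    have himg : ∀ p : PrimeSpectrum (MvPolynomial β ℂ), vI S ≤ p.asIdeal →
        (Subtype.val '' (Subtype.val ⁻¹' (zL p.asIdeal) : Set (closure S))) = zL p.asIdeal := by
      intro p hp
      rw [Set.image_preimage_eq_inter_range, Subtype.range_coe]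
      exact Set.inter_eq_left.mpr (hirr p hp)
    let F : (PrimeSpectrum.zeroLocus (R := MvPolynomial β ℂ) (vI S)) →
        (IrreducibleCloseds (closure S))ᵒᵈ := fun p =>
      OrderDual.toDual
        { carrier := Subtype.val ⁻¹' (zL p.1.asIdeal)
          isIrreducible' := by
            have h1 := himg p.1 p.2
            have h2 := zL_irreducible p.1.asIdeal
            rw [← h1] at h2
            constructor
            · exact Set.Nonempty.of_image h2.1
            · exact isPreirreducible_of_image IsInducing.subtypeVal h2.2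
          isClosed' := (isClosed_zL _).preimage continuous_subtype_val }
    refine Order.krullDim_le_of_strictMono F ?_
    intro p q hlt
    have hlt' : p.1.asIdeal < q.1.asIdeal := hlt
    show (Subtype.val ⁻¹' (zL q.1.asIdeal) : Set (closure S)) ⊂ Subtype.val ⁻¹' (zL p.1.asIdeal)
    rw [Set.ssubset_def]
    constructor
    · intro x hx f hf
      exact hx f (hlt'.le hf)
    · intro hsub
      have h3 : zL p.1.asIdeal ⊆ zL q.1.asIdeal := by
        rw [← himg p.1 p.2, ← himg q.1 q.2]
        exact Set.image_mono hsub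
      have h4 := vI_anti h3
      rw [vI_zL, vI_zL] at h4
      exact absurd hlt' (not_lt_of_ge h4)

end MP72974f
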