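import Pool.Agent.H41.EigGrid

/-!
The tensors having the eigenpoints of the Fermat tensor among their eigenpoints.
-/

open MvPolynomial

namespace MP72974f

variable {n e : ℕ}

/-- coefficients of minors at `e·l + m` -/
theorem coeff_minor (he : 2 ≤ e) (p : MvPolynomial (Fin (n + 1)) ℂ) (s l m : Fin (n + 1)) :
    coeff (ex e l m) (X s * p) =
      if s = l ∨ s = m then coeff (ex e l m - Finsupp.single s 1) p else 0 := by
  rw [coeff_X_mul']
  have : s ∈ (ex e l m).support ↔ (s = l ∨ s = m) := by
    rw [Finsupp.mem_support_iff, ex, Finsupp.add_apply, Finsupp.single_apply,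
      Finsupp.single_apply]
    constructor
    · intro h
      by_contra hcon
      push Not at hcon
      rw [if_neg (Ne.symm hcon.1), if_neg (Ne.symm hcon.2)] at h
      exact h rfl
    · rintro (h | h)
      · rw [if_pos h.symm]; omega
      · rw [if_pos h.symm]; omega
  simp only [this]

theorem ex_sub (l m : Fin (n + 1)) : ex e l m - Finsupp.single m 1 = Finsupp.single l e := by
  rw [ex]; exact add_tsub_cancel_right _ _

/-- the minors of a system of forms vanishing at the grid, one index `k` -/
theorem minors_form (he : 2 ≤ e) (g : Fin (n + 1) → MvPolynomial (Fin (n + 1)) ℂ)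
    (hg : ∀ j, (g j).IsHomogeneous e)
    (hv : ∀ v : Fin (n + 1) → ℂ, (∀ l, v l = 0 ∨ th l * v l ^ (e - 1) = 1) →
      ∀ i j, eval v (X i * g j - X j * g i) = 0) (i j : Fin (n + 1)) (hij : i ≠ j) :
    ∀ v, eval v (X i * g j - X j * g i) =
      (coeff (ex e j i) (X i * g j - X j * g i) / th j) *
        (th j * v j ^ e * v i - th i * v i ^ e * v j) := by
  classical
  have hh : ∀ i j, (X i * g j - X j * g i).IsHomogeneous (e + 1) := by
    intro i j
    have h1 := (isHomogeneous_X ℂ i).mul (hg j)
    have h2 := (isHomogeneous_X ℂ j).mul (hg i)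
    rw [add_comm 1 e] at h1 h2
    exact h1.sub h2
  have hform := fun i j => grid_anti he _ (hh i j) (fun v hv' => hv v hv' i j)
  have hdiag := fun i j => coeff_diag_zero he _ (hh i j) (fun v hv' => hv v hv' i j)
  -- the coefficient of `X_l ^ e` in `g j`, `l ≠ j`
  have hg0 : ∀ l j, l ≠ j → coeff (Finsupp.single l e) (g j) = 0 := by
    intro l j hlj
    have h1 := hdiag l j l
    rw [coeff_sub, coeff_minor he, coeff_minor he, if_pos (Or.inl rfl), if_neg, ex_sub,
      sub_zero] at h1
    · exact h1
    · rintro (h | h) <;> exact hlj h.symm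
  set κ : Fin (n + 1) → Fin (n + 1) → ℂ := fun l m => coeff (ex e l m) (X i * g j - X j * g i)
    with hκ
  have hκcoeff : ∀ l m, κ l m = coeff (ex e l m) (X i * g j) - coeff (ex e l m) (X j * g i) :=
    fun l m => by
      show coeff (ex e l m) (X i * g j - X j * g i) = _
      rw [coeff_sub]
  have hrel : ∀ l m, κ l m * th m + κ m l * th l = 0 := (hform i j).2
  have hd : ∀ l, κ l l = 0 := hdiag i j
  -- `l ∉ {i, j}`
  have h1 : ∀ l m, l ≠ i → l ≠ j → κ l m = 0 := by
    intro l m hli hlj
    rw [hκcoeff, coeff_minor he, coeff_minor he]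
    by_cases hmi : m = i
    · rw [hmi, if_pos (Or.inr rfl), if_neg, ex_sub, hg0 l j hlj, sub_zero]
      rintro (h | h)
      · exact hlj h.symm
      · exact hij h.symm
    · by_cases hmj : m = j
      · rw [hmj, if_neg, if_pos (Or.inr rfl), ex_sub, hg0 l i hli, sub_zero]
        rintro (h | h)
        · exact hli h.symm
        · exact hij h
      · rw [if_neg, if_neg, sub_zero]
        · rintro (h | h)
          · exact hlj h.symm
          · exact hmj h.symm
        · rintro (h | h)
          · exact hli h.symm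
          · exact hmi h.symm
  have h2 : ∀ l m, m ≠ i → m ≠ j → κ l m = 0 := by
    intro l m hmi hmj
    have := hrel l m
    rw [h1 m l hmi hmj, zero_mul, add_zero] at this
    exact (mul_eq_zero.mp this).resolve_right (th_ne m)
  intro v
  have h3 := (hform i j).1 v
  have h4 : ∑ l, ∑ m, coeff (ex e l m) (X i * g j - X j * g i) * (v l ^ e * v m) =
      κ i j * (v i ^ e * v j) + κ j i * (v j ^ e * v i) := by
    rw [Finset.sum_eq_add i j hij]
    · congr 1
      · refine Finset.sum_eq_single j ?_ (fun h => absurd (Finset.mem_univ _) h)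
        intro m _ hm
        by_cases hmi : m = i
        · rw [hmi]
          show κ i i * _ = 0
          rw [hd, zero_mul]
        · show κ i m * _ = 0
          rw [h2 i m hmi hm, zero_mul]
      · refine Finset.sum_eq_single i ?_ (fun h => absurd (Finset.mem_univ _) h)
        intro m _ hm
        by_cases hmj : m = j
        · rw [hmj]
          show κ j j * _ = 0
          rw [hd, zero_mul]
        · show κ j m * _ = 0
          rw [h2 j m hm hmj, zero_mul]
    · rintro l _ ⟨hli, hlj⟩
      refine Finset.sum_eq_zero fun m _ => ?_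
      show κ l m * _ = 0
      rw [h1 l m hli hlj, zero_mul]
    · intro h; exact absurd (Finset.mem_univ _) h
    · intro h; exact absurd (Finset.mem_univ _) h
  rw [h3, h4]
  show _ = κ j i / th j * _
  have h5 := hrel i j
  have h6 := th_ne j
  have h7 : κ i j = -(κ j i / th j * th i) := by
    field_simp
    linear_combination h5
  rw [h7]
  field_simp
  ring

/-- the constant is the same for all pairs of indices -/
theorem minors_form_common (hn : 1 ≤ n) (he : 2 ≤ e)
    (g : Fin (n + 1) → MvPolynomial (Fin (n + 1)) ℂ) (hg : ∀ j, (g j).IsHomogeneous e)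
    (hv : ∀ v : Fin (n + 1) → ℂ, (∀ l, v l = 0 ∨ th l * v l ^ (e - 1) = 1) →
      ∀ i j, eval v (X i * g j - X j * g i) = 0) :
    ∃ c : ℂ, ∀ i j, ∀ v, eval v (X i * g j - X j * g i) =
      c * (th j * v j ^ e * v i - th i * v i ^ e * v j) := by
  classical
  have hform := minors_form he g hg hv
  set cc : Fin (n + 1) → Fin (n + 1) → ℂ := fun i j =>
    coeff (ex e j i) (X i * g j - X j * g i) / th j with hcc
  have hcc' : ∀ i j, i ≠ j → ∀ v : Fin (n + 1) → ℂ, v i * eval v (g j) - v j * eval v (g i) =
      cc i j * (th j * v j ^ e * v i - th i * v i ^ e * v j) := by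
    intro i j hij v
    have := hform i j hij v
    rw [map_sub, map_mul, map_mul, eval_X, eval_X] at this
    exact this
  -- symmetry
  have hsym : ∀ i j, i ≠ j → cc i j = cc j i := by
    intro i j hij
    have hh : (X i * g j - X j * g i).IsHomogeneous (e + 1) := by
      have h1 := (isHomogeneous_X ℂ i).mul (hg j)
      have h2 := (isHomogeneous_X ℂ j).mul (hg i)
      rw [add_comm 1 e] at h1 h2
      exact h1.sub h2
    have h1 := (grid_anti he _ hh (fun v hv' => hv v hv' i j)).2 i j
    have h2 : coeff (ex e i j) (X j * g i - X i * g j) =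
        -coeff (ex e i j) (X i * g j - X j * g i) := by
      rw [← coeff_neg, neg_sub]
    show coeff (ex e j i) (X i * g j - X j * g i) / th j =
      coeff (ex e i j) (X j * g i - X i * g j) / th i
    rw [h2]
    have e1 := th_ne i
    have e2 := th_ne j
    field_simp
    linear_combination h1
  -- triples
  have htri : ∀ i j l, i ≠ j → j ≠ l → l ≠ i → cc i j = cc j l := by
    intro i j l hij hjl hli
    have key : ∀ s : ℂ, s * (cc i j * (th j * s ^ (e - 1) - th i) +
        cc j l * (th l - th j * s ^ (e - 1)) + cc l i * (th i - th l)) = 0 := by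
      intro s
      set v : Fin (n + 1) → ℂ := fun x => if x = j then s else 1 with hvdef
      have hvi : v i = 1 := if_neg hij
      have hvj : v j = s := if_pos rfl
      have hvl : v l = 1 := if_neg (Ne.symm hjl)
      have e1 := hcc' i j hij v
      have e2 := hcc' j l hjl v
      have e3 := hcc' l i hli v
      rw [hvi, hvj] at e1
      rw [hvj, hvl] at e2
      rw [hvi, hvl] at e3
      have hs : s ^ e = s ^ (e - 1) * s := by
        rw [← pow_succ]; congr 1; omega
      rw [hs] at e1 e2
      simp only [one_pow, mul_one, one_mul] at e1 e2 e3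
      linear_combination -(e1 + e2 + s * e3)
    have k1 := key 1
    have k2 := key 2
    rw [one_pow] at k1
    have h1 : th j * ((2 : ℂ) ^ (e - 1) - 1) * (cc i j - cc j l) = 0 := by
      linear_combination (1 / 2) * k2 - k1
    have h2 : (2 : ℂ) ^ (e - 1) - 1 ≠ 0 := by
      rw [sub_ne_zero]
      have h7 : (2 : ℂ) ^ (e - 1) = ((2 ^ (e - 1) : ℕ) : ℂ) := by push_cast; rfl
      have h8 : 1 < 2 ^ (e - 1) := Nat.one_lt_two_pow (by omega)
      have h9 : ((2 ^ (e - 1) : ℕ) : ℂ) ≠ ((1 : ℕ) : ℂ) := by
        rw [Ne, Nat.cast_inj]; omega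
      rw [h7]
      rwa [Nat.cast_one] at h9
    have h3 := (mul_eq_zero.mp h1).resolve_left (mul_ne_zero (th_ne j) h2)
    exact sub_eq_zero.mp h3
  -- common constant
  obtain ⟨o, ho⟩ : ∃ o : Fin (n + 1), o ≠ 0 := by
    have : Nontrivial (Fin (n + 1)) := by
      rw [Fin.nontrivial_iff_two_le]; omega
    exact exists_ne 0
  have hcom : ∀ i j, i ≠ j → cc i j = cc 0 o := by
    have hj0 : ∀ i, i ≠ 0 → cc i 0 = cc 0 o := by
      intro i hi
      by_cases hio : i = o
      · rw [hio]; exact hsym o 0 ho
      · exact htri i 0 o hi (Ne.symm ho) (Ne.symm hio)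
    intro i j hij
    by_cases hj : j = 0
    · rw [hj]; exact hj0 i (fun h => hij (h.trans hj.symm))
    · by_cases hi : i = 0
      · rw [hsym i j hij, hi]; exact hj0 j hj
      · rw [htri i j 0 hij hj (Ne.symm hi)]
        exact hj0 j hj
  refine ⟨cc 0 o, fun i j v => ?_⟩
  by_cases hij : i = j
  · rw [hij, map_sub, sub_self]; ring
  · rw [hform i j hij v]
    show cc i j * _ = _
    rw [hcom i j hij]

/-- tensors whose eigenschemes contain those of the Fermat tensor -/
theorem fermat_unique (hn : 1 ≤ n) (he : 2 ≤ e) {D : ℕ} (c : Fin (e + 1) × Fin D → Fin (n + 1))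
    (u : (Fin (e + 1) × Fin D) × Fin n → ℂ) (hgood : Good (fermat n (e + 1)) c u)
    (T : Tensor n (e + 1))
    (hT : ∀ kq a b, eval (pt c u kq) (eigMinor T kq.1 a b) = 0) :
    ∃ t : ℂ, T - t • fermat n (e + 1) ∈ minorKer n (e + 1) := by
  -- vanishing on the grid
  have hgrid : ∀ k : Fin (e + 1), ∀ v : Fin (n + 1) → ℂ,
      (∀ l, v l = 0 ∨ th l * v l ^ (e - 1) = 1) → ∀ i j, eval v (eigMinor T k i j) = 0 := by
    intro k v hv i j
    by_cases hv0 : v = 0
    · have h1 : v = (0 : ℂ) • v := by rw [hv0, smul_zero]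
      rw [h1, minor_smul_vec, zero_mul, zero_mul]
    · have h2 : ∀ l, th l * v l ^ e = v l := by
        intro l
        have hs : v l ^ e = v l ^ (e - 1) * v l := by
          rw [← pow_succ]; congr 1; omega
        rcases hv l with h | h
        · rw [h, zero_pow (by omega), mul_zero]
        · rw [hs, ← mul_assoc, h, one_mul]
      obtain ⟨q, hq⟩ := hgood.compl k v hv0 (by
        intro a b
        rw [eval_minor_fermat]
        show v a * (th b * v b ^ e) - v b * (th a * v a ^ e) = 0
        rw [h2, h2]; ring)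
      rw [hq, minor_smul_vec, hT (k, q), mul_zero]
  have hc : ∀ k : Fin (e + 1), ∃ c : ℂ, ∀ i j, ∀ v, eval v (eigMinor T k i j) =
      c * (th j * v j ^ e * v i - th i * v i ^ e * v j) := by
    intro k
    exact minors_form_common hn he (contraction T k) (fun j => contraction_homogeneous T k j)
      (hgrid k)
  choose cc hcc using hc
  -- the constants agree for all `k`
  obtain ⟨o, ho⟩ : ∃ o : Fin (n + 1), o ≠ 0 := by
    have : Nontrivial (Fin (n + 1)) := by
      rw [Fin.nontrivial_iff_two_le]; omega
    exact exists_ne 0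
  set ε : Fin (n + 1) → ℂ := fun x => if x = 0 then Complex.I else if x = o then 1 else 0 with hε
  have hε0 : ε 0 = Complex.I := if_pos rfl
  have hεo : ε o = 1 := by rw [hε]; simp [ho]
  have hεx : ∀ x, x ≠ 0 → x ≠ o → ε x = 0 := fun x h1 h2 => by rw [hε]; simp [h1, h2]
  have hsum : ∀ f : Fin (n + 1) → ℂ, (∀ x, x ≠ 0 → x ≠ o → f x = 0) → ∑ x, f x = f 0 + f o := by
    intro f hf
    refine Finset.sum_eq_add 0 o (Ne.symm ho) ?_ ?_ ?_
    · rintro x _ ⟨h1, h2⟩; exact hf x h1 h2
    · intro h; exact absurd (Finset.mem_univ _) h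
    · intro h; exact absurd (Finset.mem_univ _) h
  have hform : ∀ k, eval ε (formOf T) = cc k * (2 * Complex.I ^ (e + 1) + 1) := by
    intro k
    have h1 : ∑ j, ε j * eval ε (eigMinor T k o j) = eval ε (formOf T) := by
      rw [← sum_X_contraction T k, map_sum]
      have h2 : ∀ j, ε j * eval ε (eigMinor T k o j) =
          eval ε (X j * contraction T k j) - (ε j * ε j) * eval ε (contraction T k o) := by
        intro j
        rw [eigMinor, map_sub, map_mul, map_mul, map_mul, eval_X, eval_X, hεo]
        ring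
      simp_rw [h2]
      rw [Finset.sum_sub_distrib, ← Finset.sum_mul, hsum (fun j => ε j * ε j), hε0, hεo,
        Complex.I_mul_I]
      · ring
      · intro x h1 h2
        show ε x * ε x = 0
        rw [hεx x h1 h2, mul_zero]
    rw [← h1]
    simp_rw [hcc k]
    rw [hsum (fun j => ε j * (cc k * (th j * ε j ^ e * ε o - th o * ε o ^ e * ε j)))]
    · rw [hε0, hεo]
      have e1 : th (0 : Fin (n + 1)) = 2 := by rw [th, if_pos rfl]
      have e2 : th o = 1 := by rw [th, if_neg ho]
      rw [e1, e2, one_pow, pow_succ]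
      linear_combination -(cc k) * Complex.I_mul_I
    · intro x h1 h2
      show ε x * _ = 0
      rw [hεx x h1 h2, zero_mul]
  have hne : (2 * Complex.I ^ (e + 1) + 1 : ℂ) ≠ 0 := by
    intro h
    have h1 : (2 * Complex.I ^ (e + 1) : ℂ) = -1 := by linear_combination h
    have h2 := congrArg norm h1
    rw [norm_mul, norm_pow, Complex.norm_I, one_pow, norm_neg, norm_one] at h2
    norm_num at h2
  have hcc0 : ∀ k, cc k = cc 0 := fun k =>
    mul_right_cancel₀ hne ((hform k).symm.trans (hform 0))
  refine ⟨cc 0, ?_⟩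
  rw [mem_minorKer]
  intro k a b
  refine MvPolynomial.funext fun v => ?_
  have h1 : T - cc 0 • fermat n (e + 1) = T + (-(cc 0)) • fermat n (e + 1) := by
    rw [neg_smul, sub_eq_add_neg]
  rw [h1, eigMinor_add, eigMinor_smul, map_add, map_mul, eval_C, hcc, hcc0, map_zero,
    eval_minor_fermat]
  show cc 0 * _ + -(cc 0) * (v a * (th b * v b ^ e) - v b * (th a * v a ^ e)) = 0
  ring

end MP72974f
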