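import Mathlib
import Pool.Agent.H45.CH0Quad
import Pool.Agent.H45.CH0Ell
set_option autoImplicit false
namespace H41.Tot
open Polynomial H45.CH0

lemma qConj_apply {F : Type*} [Field F] (s : F) (h : (-(qw s)) ^ 2 = algebraMap F (QuadraticAlgebra F s 0) s)
    (z : QuadraticAlgebra F s 0) : qLift (algebraMap F (QuadraticAlgebra F s 0)) (-(qw s)) h z = ⟨z.re, -z.im⟩ := by
  rw [qLift_apply]
  ext <;> simp [qw]

/-- Odd degree descent for the norm form `x ^ 2 - s y ^ 2`. -/
theorem norm_form_descent {F L : Type*} [Field F] [Field L] [Algebra F L]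
    (hodd : Odd (Module.finrank F L)) (s t : F) (ht : t ≠ 0) (x y : L)
    (h : algebraMap F L t = x ^ 2 - algebraMap F L s * y ^ 2) :
    ∃ X Y : F, t = X ^ 2 - s * Y ^ 2 := by
  classical
  have hpos : 0 < Module.finrank F L := hodd.pos
  have hfd : FiniteDimensional F L := Module.finite_of_finrank_pos hpos
  set n := Module.finrank F L with hn
  let bs := Module.finBasis F L
  let K := QuadraticAlgebra F s 0
  let ι : F →+* K := algebraMap F K
  let M : L →+* Matrix (Fin n) (Fin n) F := (Algebra.leftMulMatrix bs).toRingHom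
  let Φ : L →+* Matrix (Fin n) (Fin n) K := ι.mapMatrix.comp M
  let ω : K := qw s
  let cj : K →+* K := qLift ι (-ω) (by rw [neg_sq]; exact qw_sq)
  have hcjι : ∀ z, cj (ι z) = ι z := fun z => qLift_C _ _ _ _
  have hcjω : cj ω = -ω := qLift_qw _ _ _
  let D : K := (Φ x + ω • Φ y).det
  have hcD : cj D = (Φ x - ω • Φ y).det := by
    change cj (Matrix.det _) = _
    rw [RingHom.map_det]
    congr 1
    ext1 i j
    simp only [RingHom.mapMatrix_apply, Matrix.map_apply, Matrix.add_apply, Matrix.smul_apply,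
      Matrix.sub_apply, smul_eq_mul, map_add, map_mul, hcjω]
    have hx : ∀ z : L, cj (Φ z i j) = Φ z i j := fun z => hcjι _
    rw [hx, hx]
    ring
  have hΦs : ∀ z : F, Φ (algebraMap F L z) = (ι z) • (1 : Matrix (Fin n) (Fin n) K) := by
    intro z
    change ι.mapMatrix (Algebra.leftMulMatrix bs (algebraMap F L z)) = _
    rw [AlgHom.commutes]
    ext1 i j
    simp only [RingHom.mapMatrix_apply, Matrix.map_apply, Matrix.smul_apply, smul_eq_mul,
      Matrix.algebraMap_matrix_apply, Matrix.one_apply]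
    split_ifs
    · simp
    · simp
  have hprod : (Φ x + ω • Φ y) * (Φ x - ω • Φ y) = (ι t) • (1 : Matrix (Fin n) (Fin n) K) := by
    have hcomm : Φ x * Φ y = Φ y * Φ x := by rw [← map_mul, ← map_mul, mul_comm]
    have h1 : (Φ x + ω • Φ y) * (Φ x - ω • Φ y) = Φ x * Φ x - (ω ^ 2) • (Φ y * Φ y) := by
      rw [add_mul, mul_sub, mul_sub, Matrix.mul_smul, Matrix.smul_mul, Matrix.smul_mul,
        Matrix.mul_smul, smul_smul, hcomm, pow_two]
      abel
    rw [h1, ← hΦs, h, map_sub, map_mul, hΦs, Matrix.smul_mul, one_mul, map_pow, map_pow, pow_two,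
      pow_two, pow_two (Φ y)]
    congr 2
    have : ω ^ 2 = ι s := qw_sq
    rw [← this, pow_two]
  have hdet : D * cj D = (ι t) ^ n := by
    rw [hcD]
    change Matrix.det _ * Matrix.det _ = _
    rw [← Matrix.det_mul, hprod, Matrix.det_smul, Matrix.det_one, mul_one, Fintype.card_fin]
  have hre : t ^ n = D.re ^ 2 - s * D.im ^ 2 := by
    have h2 := congrArg QuadraticAlgebra.re hdet
    have h3 : cj D = ⟨D.re, -D.im⟩ := qConj_apply s _ D
    have h4 : (ι (t ^ n)).re = t ^ n := rfl
    have h5 : (D * (⟨D.re, -D.im⟩ : QuadraticAlgebra F s 0)).re = D.re * D.re + s * D.im * (-D.im) :=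
      QuadraticAlgebra.re_mul _ _
    rw [h3, ← map_pow, h4] at h2
    rw [← h2]
    refine h5.trans ?_
    ring
  obtain ⟨m, hm⟩ := hodd
  refine ⟨D.re / t ^ m, D.im / t ^ m, ?_⟩
  have htm : t ^ m ≠ 0 := pow_ne_zero _ ht
  have h5 : t * (t ^ m) ^ 2 = D.re ^ 2 - s * D.im ^ 2 := by
    rw [← hre, hm]; ring
  field_simp
  linear_combination h5

/-- A non-square stays a non-square in an extension of odd degree. -/
theorem not_isSquare_of_odd {F L : Type*} [Field F] [Field L] [Algebra F L]
    (hodd : Odd (Module.finrank F L)) (s : F) (hs : ¬ IsSquare s) : ¬ IsSquare (algebraMap F L s) := by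
  rintro ⟨x, hx⟩
  have hs0 : s ≠ 0 := by rintro rfl; exact hs ⟨0, by simp⟩
  have h1 : (Algebra.norm F x) ^ 2 = s ^ (Module.finrank F L) := by
    rw [← map_pow, pow_two, ← hx, Algebra.norm_algebraMap]
  obtain ⟨m, hm⟩ := hodd
  apply hs
  refine ⟨Algebra.norm F x / s ^ m, ?_⟩
  have : s ^ m ≠ 0 := pow_ne_zero _ hs0
  rw [hm] at h1
  field_simp
  linear_combination -h1

/-- The leading coefficients of a solution of the conic equation in power series. -/
theorem exists_conic_const {K : Type*} [Field K] (s t : PowerSeries K) (n : ℕ) :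
    ∀ a b c : PowerSeries K, a ^ 2 - s * b ^ 2 = t * c ^ 2 → PowerSeries.coeff n c ≠ 0 →
    ∃ a₀ b₀ c₀ : K, (a₀ ≠ 0 ∨ b₀ ≠ 0 ∨ c₀ ≠ 0) ∧
      a₀ ^ 2 - PowerSeries.constantCoeff s * b₀ ^ 2 = PowerSeries.constantCoeff t * c₀ ^ 2 := by
  induction n using Nat.strong_induction_on with
  | _ n ih =>
    intro a b c h hc
    by_cases h0 : PowerSeries.constantCoeff a = 0 ∧ PowerSeries.constantCoeff b = 0 ∧
        PowerSeries.constantCoeff c = 0
    · obtain ⟨ha, hb, hc0⟩ := h0
      obtain ⟨a', rfl⟩ := PowerSeries.X_dvd_iff.2 ha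
      obtain ⟨b', rfl⟩ := PowerSeries.X_dvd_iff.2 hb
      obtain ⟨c', rfl⟩ := PowerSeries.X_dvd_iff.2 hc0
      cases n with
      | zero => simp at hc
      | succ n =>
        rw [mul_comm, PowerSeries.coeff_succ_mul_X] at hc
        refine ih n (Nat.lt_succ_self n) a' b' c' ?_ hc
        have hX : (PowerSeries.X : PowerSeries K) ^ 2 ≠ 0 := pow_ne_zero _ PowerSeries.X_ne_zero
        apply mul_left_cancel₀ hX
        linear_combination h
    · refine ⟨PowerSeries.constantCoeff a, PowerSeries.constantCoeff b,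
        PowerSeries.constantCoeff c, ?_, ?_⟩
      · by_contra hcon
        push Not at hcon
        exact h0 hcon
      · have := congrArg PowerSeries.constantCoeff h
        simpa using this

/-- The variable is not a value of the norm form of a constant which is not a square. -/
theorem poly_norm_form {D : Type*} [CommRing D] [IsDomain D] (s : D) (hs : NS s) (n : ℕ) :
    ∀ x y z : D[X], z.natDegree ≤ n → X * z ^ 2 = x ^ 2 - C s * y ^ 2 → z = 0 := by
  have key : ∀ x y z : D[X], X * z ^ 2 = x ^ 2 - C s * y ^ 2 →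
      ∃ x' y' z' : D[X], z = X * z' ∧ X * z' ^ 2 = x' ^ 2 - C s * y' ^ 2 := by
    intro x y z h
    have h0 := congrArg (eval 0) h
    simp only [eval_mul, eval_X, zero_mul, eval_sub, eval_pow, eval_C] at h0
    have hy : eval 0 y = 0 := hs (eval 0 x) _ (by linear_combination -h0)
    have hx : eval 0 x = 0 := by
      rw [hy] at h0
      exact pow_eq_zero_iff (two_ne_zero) |>.mp (by linear_combination -h0)
    have hx' : X ∣ x := by rw [X_dvd_iff, coeff_zero_eq_eval_zero]; exact hx
    have hy' : X ∣ y := by rw [X_dvd_iff, coeff_zero_eq_eval_zero]; exact hy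
    obtain ⟨x', rfl⟩ := hx'
    obtain ⟨y', rfl⟩ := hy'
    have h1 : z ^ 2 = X * (x' ^ 2 - C s * y' ^ 2) := by
      apply mul_left_cancel₀ (X_ne_zero (R := D))
      linear_combination h
    have hz : eval 0 z = 0 := by
      have := congrArg (eval 0) h1
      simp only [eval_pow, eval_mul, eval_X, zero_mul] at this
      exact pow_eq_zero_iff (two_ne_zero) |>.mp this
    have hz' : X ∣ z := by rw [X_dvd_iff, coeff_zero_eq_eval_zero]; exact hz
    obtain ⟨z', rfl⟩ := hz'
    refine ⟨x', y', z', rfl, ?_⟩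
    apply mul_left_cancel₀ (X_ne_zero (R := D))
    linear_combination h1
  induction n with
  | zero =>
    intro x y z hz h
    obtain ⟨x', y', z', rfl, h'⟩ := key x y z h
    by_contra hne
    have hz' : z' ≠ 0 := right_ne_zero_of_mul hne
    rw [natDegree_mul X_ne_zero hz', natDegree_X] at hz
    omega
  | succ n ih =>
    intro x y z hz h
    obtain ⟨x', y', z', rfl, h'⟩ := key x y z h
    by_contra hne
    have hz' : z' ≠ 0 := right_ne_zero_of_mul hne
    rw [natDegree_mul X_ne_zero hz', natDegree_X] at hz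
    exact hz' (ih x' y' z' (by omega) h')

theorem frac_norm_form {D : Type*} [CommRing D] [IsDomain D] (s : D) (hs : NS s)
    (x y : FractionRing D[X]) :
    algebraMap D[X] (FractionRing D[X]) X ≠ x ^ 2 - algebraMap D[X] (FractionRing D[X]) (C s) * y ^ 2 := by
  intro h
  obtain ⟨u, v, hv, rfl⟩ := IsFractionRing.div_surjective (A := D[X]) x
  obtain ⟨u', v', hv', rfl⟩ := IsFractionRing.div_surjective (A := D[X]) y
  have hv0 : v ≠ 0 := nonZeroDivisors.ne_zero hv
  have hv0' : v' ≠ 0 := nonZeroDivisors.ne_zero hv'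
  have hinj := IsFractionRing.injective D[X] (FractionRing D[X])
  have hw : algebraMap D[X] (FractionRing D[X]) v ≠ 0 := (map_ne_zero_iff _ hinj).2 hv0
  have hw' : algebraMap D[X] (FractionRing D[X]) v' ≠ 0 := (map_ne_zero_iff _ hinj).2 hv0'
  have h1 : X * (v * v') ^ 2 = (u * v') ^ 2 - C s * (u' * v) ^ 2 := by
    apply hinj
    simp only [map_mul, map_pow, map_sub]
    rw [h]
    field_simp
  exact mul_ne_zero hv0 hv0' (poly_norm_form s hs _ _ _ _ le_rfl h1)

theorem frac_not_isSquare {R : Type*} [CommRing R] [IsDomain R] (a : R) (ha : NS a) :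
    ¬ IsSquare (algebraMap R (FractionRing R) a) := by
  rintro ⟨z, hz⟩
  have hinj := IsFractionRing.injective R (FractionRing R)
  obtain ⟨u, v, hv, rfl⟩ := IsFractionRing.div_surjective (A := R) z
  have hv0 : v ≠ 0 := nonZeroDivisors.ne_zero hv
  have hw : algebraMap R (FractionRing R) v ≠ 0 := (map_ne_zero_iff _ hinj).2 hv0
  apply hv0
  apply ha u v
  apply hinj
  simp only [map_mul, map_pow]
  rw [hz]
  field_simp

lemma NS_var {D : Type*} [CommRing D] [IsDomain D] : NS (X : D[X]) := by
  intro u v h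
  by_contra hv
  have hu : u ≠ 0 := by
    rintro rfl
    rw [zero_pow two_ne_zero] at h
    exact (mul_ne_zero X_ne_zero (pow_ne_zero 2 hv)) h.symm
  have h1 := congrArg natDegree h
  rw [natDegree_pow, natDegree_mul X_ne_zero (pow_ne_zero 2 hv), natDegree_X, natDegree_pow] at h1
  omega

end H41.Tot
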