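import Mathlib
import Pool.Agent.H45.CH0Defs
set_option autoImplicit false

namespace H41.Tot
open AlgebraicGeometry CategoryTheory CategoryTheory.Limits H45.CH0

/-- The fibres of `f : V' → V` are universally `CH_0`-trivial: for every field `F` containing the complex
numbers and every `F`-point `x` of the complex variety `V` the push-forward from the fibre `V'_x` to
`Spec F` is an isomorphism on Chow groups of zero-cycles. -/
def FibTriv {V' V : Scheme.{0}} (s : V ⟶ Spec (.of ℂ)) (f : V' ⟶ V) : Prop :=
  ∀ (F : Type) (_ : Field F) (i : ℂ →+* F) (x : Spec (.of F) ⟶ V),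
    x ≫ s = Spec.map (CommRingCat.ofHom i) → CH0Iso (pullback.snd f x)

/-- The fibrewise property: some Zariski open neighbourhood of `x` admits a resolution all of whose fibres
are universally `CH_0`-trivial. -/
def HasFib {X : Scheme.{0}} (s : X ⟶ Spec (.of ℂ)) (x : X) : Prop :=
  ∃ V : X.Opens, x ∈ V ∧ ∃ (V' : Scheme.{0}) (f : V' ⟶ V.toScheme),
    IsResolution (V.ι ≫ s) f ∧ FibTriv (V.ι ≫ s) f

end H41.Tot
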