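import Mathlib
import Pool.Agent.H41.TotAlg
set_option autoImplicit false
namespace H41.Tot
open Polynomial H45.CH0

/-- the ring of functions on the product of two punctured lines, with coordinates `s` and `t` -/
def P2 : Type := Localization.Away (C X * X : ℂ[X][X])

noncomputable instance : CommRing P2 := inferInstanceAs (CommRing (Localization.Away (C X * X : ℂ[X][X])))
noncomputable instance : Algebra ℂ[X][X] P2 :=
  inferInstanceAs (Algebra ℂ[X][X] (Localization.Away (C X * X : ℂ[X][X])))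
noncomputable instance : Algebra ℂ P2 := ((algebraMap ℂ[X][X] P2).comp (C.comp C)).toAlgebra
instance : IsScalarTower ℂ ℂ[X][X] P2 := IsScalarTower.of_algebraMap_eq (fun _ => rfl)
instance : IsLocalization.Away (C X * X : ℂ[X][X]) P2 :=
  inferInstanceAs (IsLocalization.Away (C X * X : ℂ[X][X]) (Localization.Away (C X * X : ℂ[X][X])))

lemma CXX_ne : (C X * X : ℂ[X][X]) ≠ 0 := mul_ne_zero (C_ne_zero.2 X_ne_zero) X_ne_zero

instance : IsDomain P2 := IsLocalization.isDomain_localization (R := ℂ[X][X])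
  (powers_le_nonZeroDivisors_of_noZeroDivisors CXX_ne)

/-- the coordinate `s` -/
noncomputable def s2 : P2 := algebraMap ℂ[X][X] P2 (C X)
/-- the coordinate `t` -/
noncomputable def t2 : P2 := algebraMap ℂ[X][X] P2 X

lemma isUnit_st : IsUnit (s2 * t2) := by
  unfold s2 t2
  rw [← map_mul]
  exact IsLocalization.Away.algebraMap_isUnit (S := P2) (C X * X : ℂ[X][X])

lemma isUnit_s2 : IsUnit s2 := isUnit_of_mul_isUnit_left isUnit_st

lemma isUnit_t2 : IsUnit t2 := isUnit_of_mul_isUnit_right isUnit_st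

lemma P2_C (z : ℂ) : algebraMap ℂ P2 z = algebraMap ℂ[X][X] P2 (C (C z)) := rfl

lemma NS_t2 : NS t2 := NS_away _ CXX_ne _ NS_var

/-- the function `s b ^ 2 + t c ^ 2` on the product of the surface with the plane -/
noncomputable def fR : P2[X][X] := C (C s2) * (C X) ^ 2 + C (C t2) * X ^ 2

lemma NS_fR : NS fR := by
  have hf : fR = C (C t2) * X ^ 2 + C 0 * X + C (C s2 * X ^ 2) := by
    unfold fR
    rw [C_0, C_mul, C_pow]; ring
  have ht : (C t2 : P2[X]) ≠ 0 := by
    rw [Ne, C_eq_zero]; exact isUnit_t2.ne_zero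
  have hl : fR.leadingCoeff = C t2 := by
    rw [hf]
    exact leadingCoeff_quadratic ht
  intro u v h
  have h1 := congrArg leadingCoeff h
  rw [leadingCoeff_pow, leadingCoeff_mul, leadingCoeff_pow, hl] at h1
  exact leadingCoeff_eq_zero.mp (NS_poly _ NS_t2 _ _ h1)

/-- coordinate ring of `X : a ^ 2 = s b ^ 2 + t c ^ 2` over the product of two punctured lines -/
abbrev RX : Type := QuadraticAlgebra P2[X][X] fR 0

instance : IsDomain RX := isDomain_of_NS _ NS_fR

/-- the functions on `X` -/
noncomputable def sR : RX := algebraMap P2[X][X] RX (C (C s2))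
/-- the functions on `X` -/
noncomputable def tR : RX := algebraMap P2[X][X] RX (C (C t2))
/-- the functions on `X` -/
noncomputable def bR : RX := algebraMap P2[X][X] RX (C X)
/-- the functions on `X` -/
noncomputable def cR : RX := algebraMap P2[X][X] RX X
/-- the functions on `X` -/
noncomputable def aR : RX := qw fR

lemma isUnit_sA : IsUnit sR := ((isUnit_s2.map C).map C).map _

lemma isUnit_tA : IsUnit tR := ((isUnit_t2.map C).map C).map _

lemma aA_sq : aR ^ 2 = sR * bR ^ 2 + tR * cR ^ 2 := by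
  unfold aR sR tR bR cR
  rw [qw_sq]
  change algebraMap P2[X][X] RX (C (C s2) * (C X) ^ 2 + C (C t2) * X ^ 2) = _
  rw [map_add, map_mul, map_mul, map_pow, map_pow]

lemma cA_ne_zero : cR ≠ 0 := by
  intro h
  have := congrArg QuadraticAlgebra.re h
  exact X_ne_zero this

section
variable {T : Type*} [CommRing T] (i : ℂ →+* T) (s t b c a : T) (hs : IsUnit s) (ht : IsUnit t)
  (ha : a ^ 2 = s * b ^ 2 + t * c ^ 2)

/-- construction of homomorphisms from `P2` -/
noncomputable def p2Lift : P2 →+* T :=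
  IsLocalization.Away.lift (S := P2) (C X * X : ℂ[X][X]) (g := eval₂RingHom (eval₂RingHom i s) t)
    (by simpa using hs.mul ht)

@[simp] lemma p2Lift_s : p2Lift i s t hs ht s2 = s := by
  unfold p2Lift s2
  rw [IsLocalization.Away.lift_eq]; simp

@[simp] lemma p2Lift_t : p2Lift i s t hs ht t2 = t := by
  unfold p2Lift t2
  rw [IsLocalization.Away.lift_eq]; simp

@[simp] lemma p2Lift_C (z : ℂ) : p2Lift i s t hs ht (algebraMap ℂ P2 z) = i z := by
  unfold p2Lift
  rw [P2_C, IsLocalization.Away.lift_eq]; simp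

/-- construction of homomorphisms from the polynomial ring in two variables over `P2` -/
noncomputable def p4Lift : P2[X][X] →+* T := eval₂RingHom (eval₂RingHom (p2Lift i s t hs ht) b) c

@[simp] lemma p4Lift_P2 (z : P2) : p4Lift i s t b c hs ht (C (C z)) = p2Lift i s t hs ht z := by
  simp [p4Lift]

@[simp] lemma p4Lift_b : p4Lift i s t b c hs ht (C X) = b := by simp [p4Lift]

@[simp] lemma p4Lift_c : p4Lift i s t b c hs ht X = c := by simp [p4Lift]

/-- construction of homomorphisms from the coordinate ring of `X` -/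
noncomputable def rxLift : RX →+* T :=
  qLift (p4Lift i s t b c hs ht) a (by
    unfold fR
    rw [map_add, map_mul, map_mul, map_pow, map_pow, p4Lift_P2, p4Lift_P2, p4Lift_b, p4Lift_c,
      p2Lift_s, p2Lift_t, ha])

@[simp] lemma rxLift_P2 (z : P2) :
    rxLift i s t b c a hs ht ha (algebraMap P2[X][X] RX (C (C z))) = p2Lift i s t hs ht z := by
  unfold rxLift
  rw [qLift_C, p4Lift_P2]

@[simp] lemma rxLift_s : rxLift i s t b c a hs ht ha sR = s := by
  unfold sR
  rw [rxLift_P2, p2Lift_s]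

@[simp] lemma rxLift_t : rxLift i s t b c a hs ht ha tR = t := by
  unfold tR
  rw [rxLift_P2, p2Lift_t]

@[simp] lemma rxLift_b : rxLift i s t b c a hs ht ha bR = b := by
  unfold bR rxLift
  rw [qLift_C, p4Lift_b]

@[simp] lemma rxLift_c : rxLift i s t b c a hs ht ha cR = c := by
  unfold cR rxLift
  rw [qLift_C, p4Lift_c]

@[simp] lemma rxLift_a : rxLift i s t b c a hs ht ha aR = a := by
  unfold aR rxLift
  rw [qLift_qw]

@[simp] lemma rxLift_C (z : ℂ) : rxLift i s t b c a hs ht ha (algebraMap ℂ RX z) = i z := by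
  have h : algebraMap ℂ RX z = algebraMap P2[X][X] RX (C (C (algebraMap ℂ P2 z))) := by
    rw [IsScalarTower.algebraMap_apply ℂ P2[X][X] RX]
    rfl
  rw [h, rxLift_P2, p2Lift_C]
end

lemma p2_hom_ext {T : Type*} [CommRing T] (u v : P2 →+* T)
    (h1 : ∀ c : ℂ, u (algebraMap ℂ P2 c) = v (algebraMap ℂ P2 c)) (h2 : u s2 = v s2)
    (h3 : u t2 = v t2) : u = v := by
  apply IsLocalization.ringHom_ext (Submonoid.powers (C X * X : ℂ[X][X]))
  apply Polynomial.ringHom_ext
  · have : (u.comp (algebraMap ℂ[X][X] P2)).comp C = (v.comp (algebraMap ℂ[X][X] P2)).comp C := by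
      apply Polynomial.ringHom_ext
      · intro c
        exact h1 c
      · exact h2
    intro a
    exact congrArg (fun f => f a) this
  · exact h3

lemma p4_hom_ext {T : Type*} [CommRing T] (u v : P2[X][X] →+* T)
    (h1 : ∀ c : ℂ, u (algebraMap ℂ P2[X][X] c) = v (algebraMap ℂ P2[X][X] c))
    (h2 : u (C (C s2)) = v (C (C s2))) (h3 : u (C (C t2)) = v (C (C t2)))
    (h4 : u (C X) = v (C X)) (h5 : u X = v X) : u = v := by
  apply Polynomial.ringHom_ext
  · have : u.comp C = v.comp C := by
      apply Polynomial.ringHom_ext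
      · have h6 : (u.comp C).comp C = (v.comp C).comp C := by
          apply p2_hom_ext
          · intro c
            exact h1 c
          · exact h2
          · exact h3
        intro a
        exact congrArg (fun f => f a) h6
      · exact h4
    intro a
    exact congrArg (fun f => f a) this
  · exact h5

lemma rx_hom_ext {T : Type*} [CommRing T] (u v : RX →+* T)
    (h1 : ∀ c : ℂ, u (algebraMap ℂ RX c) = v (algebraMap ℂ RX c))
    (h2 : u sR = v sR) (h3 : u tR = v tR) (h4 : u bR = v bR) (h5 : u cR = v cR)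
    (h6 : u aR = v aR) : u = v := by
  apply q_hom_ext
  · have : u.comp (algebraMap P2[X][X] RX) = v.comp (algebraMap P2[X][X] RX) := by
      apply p4_hom_ext
      · intro c
        exact h1 c
      · exact h2
      · exact h3
      · exact h4
      · exact h5
    intro a
    exact congrArg (fun f => f a) this
  · exact h6

/-- restriction to the vertex locus `a = b = c = 0` -/
noncomputable def πR : RX →+* P2 :=
  qLift ((evalRingHom (0 : P2)).comp (evalRingHom (0 : P2[X]))) 0 (by unfold fR; simp)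

lemma πR_P4 (z : P2[X][X]) : πR (algebraMap _ RX z) = eval 0 (eval 0 z) := by
  unfold πR; rw [qLift_C]; rfl

lemma πR_s : πR sR = s2 := by unfold sR; rw [πR_P4]; simp
lemma πR_t : πR tR = t2 := by unfold tR; rw [πR_P4]; simp
lemma πR_b : πR bR = 0 := by unfold bR; rw [πR_P4]; simp
lemma πR_c : πR cR = 0 := by unfold cR; rw [πR_P4]; simp
lemma πR_a : πR aR = 0 := by unfold aR πR; rw [qLift_qw]
lemma πR_C (z : ℂ) : πR (algebraMap ℂ RX z) = algebraMap ℂ P2 z := by
  have h : algebraMap ℂ RX z = algebraMap P2[X][X] RX (C (C (algebraMap ℂ P2 z))) := by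
    rw [IsScalarTower.algebraMap_apply ℂ P2[X][X] RX]
    rfl
  rw [h, πR_P4]; simp

/-- the kernel of the restriction to the vertex locus -/
lemma ker_πR (z : RX) (hz : πR z = 0) : ∃ u v w : RX, z = u * aR + v * bR + w * cR := by
  have h1 : πR z = eval 0 (eval 0 z.re) := by
    conv_lhs => rw [q_eta z]
    rw [map_add, map_mul, πR_P4]
    have : πR (qw fR) = 0 := πR_a
    rw [this, mul_zero, add_zero]
  rw [h1] at hz
  obtain ⟨r1, hr1⟩ := X_dvd_sub_C (p := z.re)
  have h2 : eval 0 (z.re.coeff 0) = 0 := by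
    rw [coeff_zero_eq_eval_zero]; exact hz
  have h3 : X ∣ z.re.coeff 0 := by rw [X_dvd_iff, coeff_zero_eq_eval_zero]; exact h2
  obtain ⟨r2, hr2⟩ := h3
  refine ⟨algebraMap _ RX z.im, algebraMap _ RX (C r2), algebraMap _ RX r1, ?_⟩
  have h4 : z.re = C X * C r2 + X * r1 := by
    rw [← C_mul, ← hr2, ← hr1]; ring
  conv_lhs => rw [q_eta z, h4]
  rw [map_add, map_mul, map_mul]
  unfold aR bR cR
  ring

lemma πR_ne_zero (x0 : Ideal RX) (ha : aR ∈ x0) (hb : bR ∈ x0) (hc : cR ∈ x0) (f0 : RX)
    (hf : f0 ∉ x0) : πR f0 ≠ 0 := by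
  intro h
  obtain ⟨u, v, w, huvw⟩ := ker_πR f0 h
  apply hf
  rw [huvw]
  exact x0.add_mem (x0.add_mem (x0.mul_mem_left _ ha) (x0.mul_mem_left _ hb)) (x0.mul_mem_left _ hc)

/-- the generic point of the vertex locus -/
theorem exists_field : ∃ (F : Type) (_ : Field F) (j : P2 →+* F), Function.Injective j ∧
    ¬ IsSquare (j s2) ∧ j t2 ≠ 0 ∧ ∀ x y : F, j t2 ≠ x ^ 2 - j s2 * y ^ 2 := by
  have hinj : Function.Injective (algebraMap ℂ[X][X] (FractionRing ℂ[X][X])) := IsFractionRing.injective _ _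
  have hX : IsUnit (algebraMap ℂ[X][X] (FractionRing ℂ[X][X]) (C X * X)) :=
    IsUnit.mk0 _ ((map_ne_zero_iff _ hinj).2 CXX_ne)
  let j : P2 →+* FractionRing ℂ[X][X] := IsLocalization.Away.lift (S := P2) (C X * X : ℂ[X][X]) hX
  have hj : ∀ z, j (algebraMap ℂ[X][X] P2 z) = algebraMap ℂ[X][X] (FractionRing ℂ[X][X]) z := by
    intro z
    exact IsLocalization.Away.lift_eq (S := P2) (C X * X : ℂ[X][X]) hX z
  refine ⟨FractionRing ℂ[X][X], inferInstance, j, ?_, ?_, ?_, ?_⟩
  · rw [injective_iff_map_eq_zero]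
    intro z hz
    obtain ⟨⟨p, m⟩, hpm⟩ := IsLocalization.surj (Submonoid.powers (C X * X : ℂ[X][X])) z
    have h1 : j (algebraMap ℂ[X][X] P2 p) = 0 := by rw [← hpm, map_mul, hz, zero_mul]
    rw [hj, map_eq_zero_iff _ hinj] at h1
    rw [h1, map_zero] at hpm
    exact ((IsLocalization.map_units P2 m).mul_left_eq_zero).1 hpm
  · unfold s2
    rw [hj]
    exact frac_not_isSquare _ (NS_poly _ NS_X)
  · unfold t2
    rw [hj]
    exact (map_ne_zero_iff _ hinj).2 X_ne_zero
  · unfold s2 t2
    rw [hj, hj]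
    exact frac_norm_form _ NS_X

end H41.Tot
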