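import Mathlib
import Pool.Agent.H41.TotRing
import Pool.Agent.H41.TotDefs
import Pool.Agent.H45.CH0Smooth
import Pool.Agent.H45.CH0Dense
import Pool.Agent.H45.CH0Sect
set_option autoImplicit false

namespace H41.Tot
open AlgebraicGeometry CategoryTheory CategoryTheory.Limits H45.CH0

section
variable {F : Type} [Field F]

/-- there are no curves over a point -/
lemma false_of_finite (C : Scheme.{0}) [IsIntegral C] (p : C ⟶ Spec (.of F)) [IsFinite p]
    (h : ∀ c : C, IsClosed ({c} : Set C) → IsDiscreteValuationRing (C.presheaf.stalk c)) : False := by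
  have haff : IsAffine C := isAffine_of_isAffineHom p
  have hfin : (gam p).hom.Finite := by
    have h1 : p = C.isoSpec.hom ≫ Spec.map (gam p) := eq_toSpecΓ p
    have h2 : IsFinite (Spec.map (gam p)) := by
      have h3 : Spec.map (gam p) = C.isoSpec.inv ≫ p := by
        rw [h1, Iso.inv_hom_id_assoc]
        rw [← h1]
      rw [h3]
      infer_instance
    rwa [IsFinite.SpecMap_iff] at h2
  have hdom : IsDomain Γ(C, ⊤) := inferInstance
  have hfield : IsField Γ(C, ⊤) := by
    let _ : Algebra F Γ(C, ⊤) := (gam p).hom.toAlgebra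
    have : Module.Finite F Γ(C, ⊤) := hfin
    have hint : Algebra.IsIntegral F Γ(C, ⊤) := inferInstance
    exact isField_of_isIntegral_of_isField' (R := F) (S := Γ(C, ⊤)) (Field.toIsField F)
  have hsub : Subsingleton C := by
    have h1 : Subsingleton (PrimeSpectrum Γ(C, ⊤)) := by
      let _ := hfield.toField
      infer_instance
    have h2 : Subsingleton (Spec Γ(C, ⊤)) := h1
    exact C.isoSpec.hom.homeomorph.injective.subsingleton
  let c : C := genericPoint C
  have hc : IsClosed ({c} : Set C) := by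
    have : ({c} : Set C) = Set.univ := by
      ext z
      simp only [Set.mem_singleton_iff, Set.mem_univ, iff_true]
      exact Subsingleton.elim _ _
    rw [this]
    exact isClosed_univ
  have hd := h c hc
  have hf : IsField (C.presheaf.stalk c) := Field.toIsField C.functionField
  exact IsDiscreteValuationRing.not_isField _ hf

lemma rat_eq_zero (z : Spec (.of F) →₀ ℤ) (hz : z ∈ H45.CH0.Rat (Spec (.of F))) : z = 0 := by
  unfold H45.CH0.Rat at hz
  induction hz using AddSubgroup.closure_induction with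
  | mem x hx =>
    obtain ⟨C, h1, p, h2, h3, g, d, h4, h5, rfl⟩ := hx
    exact (false_of_finite C p h3).elim
  | zero => rfl
  | add x y _ _ hx hy => rw [hx, hy, add_zero]
  | neg x _ hx => rw [hx, neg_zero]

/-- a scheme over a field whose push-forward on `CH_0` is onto has a point of odd degree -/
lemma exists_odd {W : Scheme.{0}} (q : W ⟶ Spec (.of F)) (hq : CH0Iso q) :
    ∃ w : W, Odd (q.residueDegree w) := by
  classical
  let pt : Spec (.of F) := ⟨⊥, Ideal.isPrime_bot⟩
  obtain ⟨z', -, hz'⟩ := hq.1 (Finsupp.single pt 1) (by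
    intro x _
    have : ({x} : Set (Spec (.of F))) = Set.univ := by
      ext z
      simp only [Set.mem_singleton_iff, Set.mem_univ, iff_true]
      exact Subsingleton.elim _ _
    rw [this]
    exact isClosed_univ)
  have h1 := rat_eq_zero _ hz'
  rw [sub_eq_zero] at h1
  have h2 := congrArg (fun z => z pt) h1
  simp only [Finsupp.single_eq_same] at h2
  by_contra hcon
  push Not at hcon
  have h3 : (2 : ℤ) ∣ (push q z') pt := by
    unfold push
    rw [Finsupp.sum_apply]
    unfold Finsupp.sum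
    refine Finset.dvd_sum fun w _ => ?_
    have h4 : Even (q.residueDegree w) := Nat.not_odd_iff_even.1 (hcon w)
    have h5 : (2 : ℤ) ∣ (q.residueDegree w : ℤ) := by exact_mod_cast h4.two_dvd
    change (2 : ℤ) ∣ (Finsupp.single (q w) (z' w * (q.residueDegree w : ℤ))) pt
    rw [Finsupp.single_apply]
    split_ifs
    · exact h5.mul_left _
    · exact dvd_zero _
  rw [← h2] at h3
  norm_num at h3

end

section
variable {A : CommRingCat.{0}} (s t a b c : A) (habc : a ^ 2 = s * b ^ 2 + t * c ^ 2) {V' : Scheme.{0}}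

include habc in
/-- the conic `a ^ 2 = s b ^ 2 + t c ^ 2` has a point over the residue fields of a smooth scheme -/
lemma exists_conic_of_smooth (σ : V' ⟶ Spec (.of ℂ)) [Smooth σ] (β : V' ⟶ Spec A)
    (hdense : ∀ U : V'.Opens, (U : Set V').Nonempty → ∃ v ∈ U, ev β v c ≠ 0) (w : V') :
    ∃ a₀ b₀ c₀ : V'.residueField w, (a₀ ≠ 0 ∨ b₀ ≠ 0 ∨ c₀ ≠ 0) ∧
      a₀ ^ 2 - ev β w s * b₀ ^ 2 = ev β w t * c₀ ^ 2 := by
  obtain ⟨V, hV, hwV, n, g, hg⟩ := exists_etale_chart σ w
  let ρ : A →+* Γ(V', V) := (V'.presheaf.map (homOfLE le_top : V ⟶ ⊤).op).hom.comp (gam β).hom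
  have hev : ∀ (v : V') (hv : v ∈ V) (a : A), ev β v a = V'.evaluation V v hv (ρ a) := by
    intro v hv a
    rw [ev_eq_evaluation]
    change V'.residue v (V'.presheaf.germ ⊤ v trivial (gam β a)) =
      V'.residue v (V'.presheaf.germ V v hv (V'.presheaf.map (homOfLE le_top : V ⟶ ⊤).op (gam β a)))
    rw [TopCat.Presheaf.germ_res_apply]
  have hnil : ∀ z : Γ(V', V), IsNilpotent (z * ρ c) → IsNilpotent z := by
    intro z hz
    by_contra hcon
    rw [Scheme.isNilpotent_iff_basicOpen_eq_bot_of_isCompact hV.isCompact] at hcon hz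
    obtain ⟨v, hv⟩ : (V'.basicOpen z : Set V').Nonempty := by
      rwa [Set.nonempty_iff_ne_empty, Ne, TopologicalSpace.Opens.coe_eq_empty]
    obtain ⟨v, hv, hvt⟩ := hdense _ ⟨v, hv⟩
    have hvV : v ∈ V := V'.basicOpen_le z hv
    have : v ∈ V'.basicOpen (z * ρ c) := by
      rw [← Scheme.evaluation_ne_zero_iff_mem_basicOpen V' v hvV, map_mul]
      apply mul_ne_zero
      · rwa [Scheme.evaluation_ne_zero_iff_mem_basicOpen V' v hvV]
      · rwa [← hev v hvV]
    rw [hz] at this
    exact this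
  obtain ⟨h, h0, hdvd⟩ := exists_dvd g hg (ρ c) hnil
  obtain ⟨Φ, hΦ, hΦh⟩ := exists_arc g hg (V'.evaluation V w hwV).hom h h0
  have hΦc : Φ (ρ c) ≠ 0 := by
    intro h1
    apply hΦh
    obtain ⟨y, hy⟩ := hdvd
    rw [hy, map_mul, h1, zero_mul]
  have h1 : (Φ (ρ a)) ^ 2 - Φ (ρ s) * (Φ (ρ b)) ^ 2 = Φ (ρ t) * (Φ (ρ c)) ^ 2 := by
    rw [← map_pow, ← map_pow, habc]
    simp
  obtain ⟨n, hn⟩ : ∃ n, PowerSeries.coeff n (Φ (ρ c)) ≠ 0 := by
    by_contra hcon
    push Not at hcon
    exact hΦc (PowerSeries.ext fun n => by rw [hcon n, map_zero])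
  obtain ⟨a₀, b₀, c₀, h2, h3⟩ := exists_conic_const _ _ n _ _ _ h1 hn
  refine ⟨a₀, b₀, c₀, h2, ?_⟩
  rw [hΦ, hΦ] at h3
  rw [hev w hwV, hev w hwV]
  exact h3
end

section
variable {F : Type} [Field F] {W : Scheme.{0}}

/-- a conic without a rational point has no point of odd degree -/
lemma no_conic (q : W ⟶ Spec (.of F)) (w : W) (hw : Odd (q.residueDegree w)) (s t : F)
    (hs : ¬ IsSquare s) (ht : t ≠ 0) (hst : ∀ x y : F, t ≠ x ^ 2 - s * y ^ 2)
    (a₀ b₀ c₀ : W.residueField w) (h0 : a₀ ≠ 0 ∨ b₀ ≠ 0 ∨ c₀ ≠ 0)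
    (h : a₀ ^ 2 - ev q w s * b₀ ^ 2 = ev q w t * c₀ ^ 2) : False := by
  let F' := (Spec (.of F)).residueField (q w)
  let e : F →+* F' := ev (𝟙 (Spec (.of F))) (q w)
  have he : Function.Surjective e := ev_id_surjective (q w)
  let alg : Algebra F' (W.residueField w) := (q.residueFieldMap w).hom.toAlgebra
  have hodd : Odd (Module.finrank F' (W.residueField w)) := hw
  have hev : ∀ z, ev q w z = algebraMap F' (W.residueField w) (e z) := by
    intro z
    have := ev_comp (𝟙 (Spec (.of F))) q w z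
    rw [Category.comp_id] at this
    exact this
  rw [hev, hev] at h
  have hs' : ¬ IsSquare (e s) := by
    rintro ⟨z, hz⟩
    obtain ⟨y, rfl⟩ := he z
    rw [← map_mul] at hz
    exact hs ⟨y, e.injective hz⟩
  have hs'' := not_isSquare_of_odd hodd (e s) hs'
  have hc : c₀ ≠ 0 := by
    rintro rfl
    have hb : b₀ ≠ 0 := by
      rintro rfl
      have ha : a₀ = 0 := by
        apply pow_eq_zero_iff (two_ne_zero) |>.mp
        linear_combination h
      rw [ha] at h0
      simp at h0
    apply hs''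
    refine ⟨a₀ / b₀, ?_⟩
    field_simp
    linear_combination -h
  obtain ⟨x, y, hxy⟩ := norm_form_descent hodd (e s) (e t) (by
    rw [Ne, map_eq_zero]; exact ht) (a₀ / c₀) (b₀ / c₀) (by
    field_simp
    linear_combination -h)
  obtain ⟨x, rfl⟩ := he x
  obtain ⟨y, rfl⟩ := he y
  apply hst x y
  apply e.injective
  rw [hxy]
  simp
end

section
/-- the variety `X` -/
noncomputable abbrev SX : Scheme.{0} := Spec (.of RX)
/-- its structure morphism -/
noncomputable abbrev sX : SX ⟶ Spec (.of ℂ) := Spec.map (CommRingCat.ofHom (algebraMap ℂ RX))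

/-- `X` does not have the fibrewise property at the points of the vertex locus -/
theorem not_HasFib (x0 : SX) (ha : aR ∈ x0.asIdeal) (hb : bR ∈ x0.asIdeal) (hc : cR ∈ x0.asIdeal) :
    ¬ HasFib sX x0 := by
  rintro ⟨V, hxV, V', f, res, triv⟩
  obtain ⟨_, ⟨f0, rfl⟩, hx0, hle⟩ :=
    PrimeSpectrum.isTopologicalBasis_basic_opens.exists_subset_of_mem_open (a := x0) (u := (V : Set SX))
      hxV V.isOpen
  have hf0 : πR f0 ≠ 0 := πR_ne_zero x0.asIdeal ha hb hc f0 hx0
  obtain ⟨F, hF, j, hj, hs, ht, hst⟩ := exists_field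
  let θ : RX →+* F := j.comp πR
  have hu : IsUnit (θ f0) := IsUnit.mk0 _ (by
    change j (πR f0) ≠ 0
    rw [Ne, map_eq_zero_iff j hj]
    exact hf0)
  have hrange : Set.range (Spec.map (CommRingCat.ofHom θ)) ⊆ Set.range V.ι := by
    rintro _ ⟨z, rfl⟩
    rw [Scheme.Opens.range_ι]
    apply hle
    intro h
    have h1 : θ f0 ∈ z.asIdeal := h
    exact z.isPrime.ne_top (Ideal.eq_top_of_isUnit_mem _ h1 hu)
  have hfac := IsOpenImmersion.lift_fac V.ι (Spec.map (CommRingCat.ofHom θ)) hrange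
  set x : Spec (.of F) ⟶ V.toScheme := IsOpenImmersion.lift V.ι (Spec.map (CommRingCat.ofHom θ)) hrange
    with hx
  let i : ℂ →+* F := j.comp (algebraMap ℂ P2)
  have hxi : x ≫ (V.ι ≫ sX) = Spec.map (CommRingCat.ofHom i) := by
    rw [← Category.assoc, hfac, ← Spec.map_comp, ← CommRingCat.ofHom_comp]
    congr 2
    ext z
    change j (πR (algebraMap ℂ RX z)) = j (algebraMap ℂ P2 z)
    rw [πR_C]
  obtain ⟨w, hw⟩ := exists_odd _ (triv F hF i x hxi)
  have hsm := res.smooth
  obtain ⟨U, hU, hU', hiso⟩ := res.birational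
  obtain ⟨a₀, b₀, c₀, h0, h1⟩ := exists_conic_of_smooth (A := .of RX) sR tR aR bR cR aA_sq
    (f ≫ V.ι ≫ sX) (f ≫ V.ι) (by
      intro O hO
      exact dense_of_resolution (A := .of RX) V V' f U hU' hiso cR cA_ne_zero O hO)
    ((pullback.fst f x) w)
  have hq : pullback.fst f x ≫ (f ≫ V.ι) = pullback.snd f x ≫ Spec.map (CommRingCat.ofHom θ) := by
    rw [← Category.assoc, pullback.condition, Category.assoc, hfac]
  have key : ∀ z : RX, ((pullback.fst f x).residueFieldMap w).hom (ev (f ≫ V.ι) ((pullback.fst f x) w) z) =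
      ev (pullback.snd f x) w (θ z) := by
    intro z
    rw [← ev_comp (A := .of RX), hq]
    exact ev_spec (pullback.snd f x) (CommRingCat.ofHom θ) w z
  have h2 := congrArg ((pullback.fst f x).residueFieldMap w).hom h1
  simp only [map_sub, map_mul, map_pow] at h2
  rw [key, key] at h2
  have hθs : θ sR = j s2 := congrArg j πR_s
  have hθt : θ tR = j t2 := congrArg j πR_t
  rw [hθs, hθt] at h2
  refine no_conic _ w hw (j s2) (j t2) hs ht hst _ _ _ ?_ h2
  rcases h0 with h | h | h
  · exact Or.inl ((map_ne_zero _).2 h)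
  · exact Or.inr (Or.inl ((map_ne_zero _).2 h))
  · exact Or.inr (Or.inr ((map_ne_zero _).2 h))

end
end H41.Tot
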