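import Mathlib
import Pool.Agent.H45.CH0Div
set_option autoImplicit false

namespace H41.Tot
open AlgebraicGeometry CategoryTheory CategoryTheory.Limits H45.CH0

section
variable {W : Scheme.{0}} {R : CommRingCat.{0}} (ι : Spec R ⟶ W) [IsOpenImmersion ι]

/-- the section over the chart `ι` given by a ring element -/
noncomputable def sec : R →+* Γ(W, ι.opensRange) :=
  ((Scheme.ΓSpecIso R).inv ≫ (IsOpenImmersion.ΓIsoTop ι).hom).hom

/-- the germ at `c` of a function on the chart -/
noncomputable def gm (c : W) (hc : c ∈ ι.opensRange) : R →+* W.presheaf.stalk c :=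
  (W.presheaf.germ ι.opensRange c hc).hom.comp (sec ι)

lemma stalkMap_gm (m : Spec R) (a : R) :
    (ι.stalkMap m).hom (gm ι (ι m) ⟨m, rfl⟩ a) = (stAlg R m).algebraMap a := by
  rw [stAlg_apply]
  unfold gm sec
  simp only [RingHom.comp_apply]
  rw [Scheme.Hom.germ_stalkMap_apply]
  have h1 : (IsOpenImmersion.ΓIsoTop ι).hom ≫ ι.app ι.opensRange =
      (Spec R).presheaf.map (homOfLE le_top : ι ⁻¹ᵁ ι.opensRange ⟶ ⊤).op := by
    simp only [IsOpenImmersion.ΓIsoTop, Iso.trans_hom, Iso.symm_hom, Functor.mapIso_hom,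
      Category.assoc, Scheme.Hom.naturality]
    rw [Scheme.Hom.appIso_inv_app_assoc]
    rw [← Functor.map_comp]
    congr 1
  have h2 := congrArg (fun f => f.hom ((Scheme.ΓSpecIso R).inv.hom a)) h1
  simp only [CommRingCat.hom_comp, RingHom.comp_apply] at h2 ⊢
  rw [h2]
  exact (Spec R).presheaf.germ_res_apply (homOfLE le_top : ι ⁻¹ᵁ ι.opensRange ⟶ ⊤) m _ _

lemma gm_comp {R' : CommRingCat.{0}} (φ : R ⟶ R') [IsOpenImmersion (Spec.map φ ≫ ι)]
    (c : W) (hc : c ∈ (Spec.map φ ≫ ι).opensRange) (hc' : c ∈ ι.opensRange) (a : R) :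
    gm (Spec.map φ ≫ ι) c hc (φ.hom a) = gm ι c hc' a := by
  obtain ⟨m, rfl⟩ := hc
  apply (asIso ((Spec.map φ ≫ ι).stalkMap m)).commRingCatIsoToRingEquiv.injective
  change ((Spec.map φ ≫ ι).stalkMap m).hom _ = ((Spec.map φ ≫ ι).stalkMap m).hom _
  have h1 := stalkMap_gm (Spec.map φ ≫ ι) m (φ.hom a)
  rw [h1]
  have h2 : ((Spec.map φ ≫ ι).stalkMap m).hom (gm ι ((Spec.map φ ≫ ι) m) hc' a) =
      ((Spec.map φ).stalkMap m).hom ((ι.stalkMap ((Spec.map φ) m)).hom (gm ι (ι ((Spec.map φ) m)) ⟨_, rfl⟩ a)) := by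
    have := Scheme.Hom.stalkMap_comp (Spec.map φ) ι m
    exact congrArg (fun f => f.hom (gm ι ((Spec.map φ ≫ ι) m) hc' a)) this
  rw [h2, stalkMap_gm, stAlg_apply, stAlg_apply, Scheme.Hom.germ_stalkMap_apply]
  congr 1
  exact congrArg (fun f => f.hom a) (Scheme.ΓSpecIso_inv_naturality φ)

/-- the rational function given by a function on the chart -/
noncomputable def rf [IsIntegral W] (hη : genericPoint W ∈ ι.opensRange) : R →+* W.functionField :=
  gm ι (genericPoint W) hη

lemma algebraMap_gm [IsIntegral W] (hη : genericPoint W ∈ ι.opensRange) (c : W) (hc : c ∈ ι.opensRange) (a : R) :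
    algebraMap (W.presheaf.stalk c) W.functionField (gm ι c hc a) = rf ι hη a := by
  have : Nonempty ι.opensRange := ⟨⟨c, hc⟩⟩
  exact Scheme.algebraMap_germ_eq_germToFunctionField (X := W) (U := ι.opensRange) hc _

lemma gm_injective [IsIntegral W] [IsDomain R] (m : Spec R) : Function.Injective (gm ι (ι m) ⟨m, rfl⟩) := by
  have h1 : Function.Injective (stAlg R m).algebraMap := by
    have hp : m.asIdeal.IsPrime := m.isPrime
    let h0 := stAlg R m
    have h3 : IsLocalization.AtPrime ((Spec R).presheaf.stalk m) m.asIdeal := stAlg_loc R m hp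
    exact IsLocalization.injective _ m.asIdeal.primeCompl_le_nonZeroDivisors
  intro a b hab
  apply h1
  rw [← stalkMap_gm ι m a, ← stalkMap_gm ι m b, hab]

lemma rf_ne_zero [IsIntegral W] [IsDomain R] (hη : genericPoint W ∈ ι.opensRange) (a : R) (ha : a ≠ 0) :
    rf ι hη a ≠ 0 := by
  intro h
  apply ha
  obtain ⟨m, hm⟩ := id hη
  have h1 : ∀ (c : W) (hc : c ∈ ι.opensRange) (m : Spec R), ι m = c → gm ι c hc a = 0 → a = 0 := by
    rintro c hc m rfl h
    exact (map_eq_zero_iff _ (gm_injective ι m)).1 h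
  exact h1 _ hη m hm h

lemma dvr_of_chart [IsIntegral W] [IsDomain R] (m : Spec R)
    (h : IsDiscreteValuationRing ((Spec R).presheaf.stalk m)) :
    IsDiscreteValuationRing (W.presheaf.stalk (ι m)) := by
  have e := (asIso (ι.stalkMap m)).commRingCatIsoToRingEquiv.symm
  exact IsDiscreteValuationRing.RingEquivClass.isDiscreteValuationRing e

/-- the order of a function on the chart at a point where it generates the maximal ideal -/
lemma isOrd_one [IsDomain R] [IsDedekindRing R] (hR : ¬ IsField R) (m : Spec R) (hm : IsClosed ({m} : Set (Spec R))) (a : R)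
    (ha : m.asIdeal = Ideal.span {a}) :
    Irreducible (gm ι (ι m) ⟨m, rfl⟩ a) := by
  have hdvr := spec_dvr R hR m hm
  have hp : m.asIdeal.IsPrime := m.isPrime
  let h0 := stAlg R m
  have h3 : IsLocalization.AtPrime ((Spec R).presheaf.stalk m) m.asIdeal := stAlg_loc R m hp
  have h1 : Irreducible ((stAlg R m).algebraMap a) := by
    rw [IsDiscreteValuationRing.irreducible_iff_uniformizer]
    have h4 := IsLocalization.AtPrime.map_eq_maximalIdeal m.asIdeal ((Spec R).presheaf.stalk m)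
    rw [← h4, ha, Ideal.map_span, Set.image_singleton]
  rw [← stalkMap_gm ι m a] at h1
  exact (MulEquiv.irreducible_iff (asIso (ι.stalkMap m)).commRingCatIsoToRingEquiv).1 h1

lemma isUnit_gm (m : Spec R) (a : R) (ha : a ∉ m.asIdeal) : IsUnit (gm ι (ι m) ⟨m, rfl⟩ a) := by
  have hp : m.asIdeal.IsPrime := m.isPrime
  let h0 := stAlg R m
  have h3 : IsLocalization.AtPrime ((Spec R).presheaf.stalk m) m.asIdeal := stAlg_loc R m hp
  have h5 : IsUnit ((stAlg R m).algebraMap a) :=
    (IsLocalization.AtPrime.isUnit_to_map_iff ((Spec R).presheaf.stalk m) m.asIdeal a).mpr ha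
  rw [← stalkMap_gm ι m a] at h5
  exact (MulEquiv.isUnit_map (asIso (ι.stalkMap m)).commRingCatIsoToRingEquiv).1 h5

end
end H41.Tot
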