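import Mathlib
import Pool.Agent.H41.TotSec
import Pool.Agent.H41.TotNeg
import Pool.Agent.H45.CH0Line
set_option autoImplicit false

namespace H41.Tot
open AlgebraicGeometry CategoryTheory CategoryTheory.Limits H45.CH0 Polynomial
open scoped LaurentPolynomial

lemma gm_congr {W : Scheme.{0}} {R : CommRingCat.{0}} (j j' : Spec R ⟶ W) [IsOpenImmersion j]
    [IsOpenImmersion j'] (h : j = j') (c : W) (hc : c ∈ j.opensRange) (hc' : c ∈ j'.opensRange) (a : R) :
    gm j c hc a = gm j' c hc' a := by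
  subst h; rfl

section
variable (F : Type) [Field F]

/-- the first inclusion of the punctured line in the line -/
noncomputable def lau1 : F[X] →+* F[T;T⁻¹] := toLaurent
/-- the second inclusion of the punctured line in the line -/
noncomputable def lau2 : F[X] →+* F[T;T⁻¹] :=
  ((LaurentPolynomial.invert (R := F)).toRingEquiv : F[T;T⁻¹] →+* F[T;T⁻¹]).comp toLaurent

lemma lau_rel (P : F[X]) : lau1 F P * (lau2 F X) ^ P.natDegree = lau2 F P.reverse := by
  unfold lau1 lau2
  simp only [RingHom.comp_apply]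
  rw [LaurentPolynomial.toLaurent_reverse]
  change toLaurent P * (LaurentPolynomial.invert (toLaurent X)) ^ P.natDegree =
    LaurentPolynomial.invert (LaurentPolynomial.invert (toLaurent P) * LaurentPolynomial.T P.natDegree)
  rw [map_mul, LaurentPolynomial.involutive_invert, LaurentPolynomial.invert_T, toLaurent_X,
    LaurentPolynomial.invert_T, LaurentPolynomial.T_pow]
  congr 2
  ring

instance imm1 : IsOpenImmersion (Spec.map (CommRingCat.ofHom (lau1 F))) :=
  IsOpenImmersion.of_isLocalization (R := F[X]) (S := F[T;T⁻¹]) (X : F[X])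

instance imm2 : IsOpenImmersion (Spec.map (CommRingCat.ofHom (lau2 F))) := by
  have h : CommRingCat.ofHom (lau2 F) = CommRingCat.ofHom (lau1 F) ≫
    ((LaurentPolynomial.invert (R := F)).toRingEquiv.toCommRingCatIso).hom := by
    ext1; rfl
  rw [h, Spec.map_comp]
  infer_instance

lemma range_lau1 (m : Spec (.of F[X])) (h : (X : F[X]) ∉ m.asIdeal) :
    ∃ m', (Spec.map (CommRingCat.ofHom (lau1 F))) m' = m := by
  have h1 := PrimeSpectrum.localization_away_comap_range (R := F[X]) F[T;T⁻¹] (X : F[X])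
  have h2 : m ∈ ((PrimeSpectrum.basicOpen (X : F[X]) : TopologicalSpace.Opens (PrimeSpectrum F[X])) :
      Set (PrimeSpectrum F[X])) := h
  rw [← h1] at h2
  exact h2

lemma range_lau2 (m : Spec (.of F[X])) (h : (X : F[X]) ∉ m.asIdeal) :
    ∃ m', (Spec.map (CommRingCat.ofHom (lau2 F))) m' = m := by
  obtain ⟨m', hm'⟩ := range_lau1 F m h
  have h : CommRingCat.ofHom (lau2 F) = CommRingCat.ofHom (lau1 F) ≫
    ((LaurentPolynomial.invert (R := F)).toRingEquiv.toCommRingCatIso).hom := by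
    ext1; rfl
  obtain ⟨m'', hm''⟩ := (Spec.map ((LaurentPolynomial.invert (R := F)).toRingEquiv.toCommRingCatIso).hom).homeomorph.surjective m'
  refine ⟨m'', ?_⟩
  rw [h, Spec.map_comp, Scheme.Hom.comp_apply, ← hm', ← hm'']
  rfl

end

section
variable {F : Type} [Field F] {W : Scheme.{0}}
  (ι₁ ι₂ : Spec (.of F[X]) ⟶ W) [IsOpenImmersion ι₁] [IsOpenImmersion ι₂]
  (hcov : ∀ w : W, w ∈ ι₁.opensRange ∨ w ∈ ι₂.opensRange)
  (hglue : Spec.map (CommRingCat.ofHom (lau1 F)) ≫ ι₁ = Spec.map (CommRingCat.ofHom (lau2 F)) ≫ ι₂)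

/-- the origin of the line -/
noncomputable def org (F : Type) [Field F] : Spec (.of F[X]) :=
  (⟨Ideal.span {X}, by
    rw [Ideal.span_singleton_prime X_ne_zero]; exact prime_X⟩ : PrimeSpectrum F[X])

lemma org_isMaximal : (org F).asIdeal.IsMaximal := by
  have : (org F).asIdeal = RingHom.ker (evalRingHom (0 : F)) := by
    rw [ker_evalRingHom, C_0, sub_zero]; rfl
  rw [this]
  exact RingHom.ker_isMaximal_of_surjective _ (fun z => ⟨C z, by simp⟩)

lemma eq_org (m : Spec (.of F[X])) (h : (X : F[X]) ∈ m.asIdeal) : m = org F := by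
  have h1 : (org F).asIdeal ≤ m.asIdeal := (Ideal.span_singleton_le_iff_mem _).2 h
  have h2 := org_isMaximal.eq_of_le m.isPrime.ne_top h1
  exact PrimeSpectrum.ext h2.symm

include hcov hglue in
lemma range_or (w : W) : w ∈ ι₁.opensRange ∨ w = ι₂ (org F) := by
  rcases hcov w with h | h
  · exact Or.inl h
  · obtain ⟨m, rfl⟩ := h
    by_cases hm : (X : F[X]) ∈ m.asIdeal
    · rw [eq_org m hm]; exact Or.inr rfl
    · left
      obtain ⟨m', hm'⟩ := range_lau2 F m hm
      refine ⟨(Spec.map (CommRingCat.ofHom (lau1 F))) m', ?_⟩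
      have h1 := congrArg (fun f => f m') hglue
      simp only [Scheme.Hom.comp_apply] at h1
      exact h1.trans (congrArg ι₂ hm')

variable (hinf : ι₂ (org F) ∉ ι₁.opensRange)

include hcov hglue hinf in
lemma isClosed_inf : IsClosed ({ι₂ (org F)} : Set W) := by
  have h1 : ({ι₂ (org F)} : Set W) = (ι₁.opensRange : Set W)ᶜ := by
    ext w
    simp only [Set.mem_singleton_iff, Set.mem_compl_iff, SetLike.mem_coe]
    constructor
    · rintro rfl
      exact hinf
    · intro h
      exact (range_or ι₁ ι₂ hcov hglue w).resolve_left h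
  rw [h1]
  exact ι₁.opensRange.isOpen.isClosed_compl

variable [IsIntegral W]

lemma eta_mem (ι : Spec (.of F[X]) ⟶ W) [IsOpenImmersion ι] : genericPoint W ∈ ι.opensRange :=
  ⟨genericPoint _, genericPoint_eq_of_isOpenImmersion ι⟩

lemma eta_mem' (ι : Spec (.of F[T;T⁻¹]) ⟶ W) [IsOpenImmersion ι] : genericPoint W ∈ ι.opensRange := by
  have : IsDomain (CommRingCat.of F[T;T⁻¹]) := inferInstanceAs (IsDomain F[T;T⁻¹])
  exact ⟨genericPoint _, genericPoint_eq_of_isOpenImmersion ι⟩

include hglue in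
lemma rf_rel (P : F[X]) :
    rf ι₁ (eta_mem ι₁) P * (rf ι₂ (eta_mem ι₂) X) ^ P.natDegree = rf ι₂ (eta_mem ι₂) P.reverse := by
  have h1 : ∀ a : F[X], rf ι₁ (eta_mem ι₁) a =
      gm (Spec.map (CommRingCat.ofHom (lau1 F)) ≫ ι₁) (genericPoint W) (eta_mem' _) (lau1 F a) := by
    intro a
    exact (gm_comp ι₁ (CommRingCat.ofHom (lau1 F)) (genericPoint W) (eta_mem' _) (eta_mem ι₁) a).symm
  have h2 : ∀ a : F[X], rf ι₂ (eta_mem ι₂) a =
      gm (Spec.map (CommRingCat.ofHom (lau1 F)) ≫ ι₁) (genericPoint W) (eta_mem' _) (lau2 F a) := by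
    intro a
    have h3 := (gm_comp ι₂ (CommRingCat.ofHom (lau2 F)) (genericPoint W) (eta_mem' _) (eta_mem ι₂) a).symm
    exact h3.trans (gm_congr _ _ hglue.symm _ _ _ _)
  rw [h1, h2, h2, ← map_pow, ← map_mul, lau_rel]

lemma isDomain_poly : IsDomain (CommRingCat.of F[X]) := inferInstanceAs (IsDomain F[X])
lemma isDedekind_poly : IsDedekindRing (CommRingCat.of F[X]) := inferInstanceAs (IsDedekindRing F[X])
lemma not_isField_poly : ¬ IsField (CommRingCat.of F[X]) := Polynomial.not_isField _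

lemma isClosed_chart (ι : Spec (.of F[X]) ⟶ W) [IsOpenImmersion ι] (m : Spec (.of F[X]))
    (h : IsClosed ({ι m} : Set W)) : IsClosed ({m} : Set (Spec (.of F[X]))) := by
  have h1 : ({m} : Set (Spec (.of F[X]))) = ι ⁻¹' {ι m} := by
    ext z
    simp only [Set.mem_singleton_iff, Set.mem_preimage]
    exact ⟨fun h => by rw [h], fun h => ι.isOpenEmbedding.injective h⟩
  rw [h1]
  exact h.preimage ι.continuous

include hcov in
lemma dvr_P1 (c : W) (hc : IsClosed ({c} : Set W)) : IsDiscreteValuationRing (W.presheaf.stalk c) := by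
  have i1 := isDomain_poly (F := F)
  have i2 := isDedekind_poly (F := F)
  rcases hcov c with ⟨m, rfl⟩ | ⟨m, rfl⟩
  · exact dvr_of_chart ι₁ m (spec_dvr _ not_isField_poly m (isClosed_chart ι₁ m hc))
  · exact dvr_of_chart ι₂ m (spec_dvr _ not_isField_poly m (isClosed_chart ι₂ m hc))

include hcov hglue hinf in
/-- the divisor of an irreducible polynomial on the projective line -/
lemma isDiv_P1 (m : Spec (.of F[X])) (hm : IsClosed ({ι₁ m} : Set W)) (P : F[X])
    (hP : m.asIdeal = Ideal.span {P}) (hP0 : P ≠ 0) :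
    IsDiv W (rf ι₁ (eta_mem ι₁) P)
      (Finsupp.single (ι₁ m) 1 - Finsupp.single (ι₂ (org F)) (P.natDegree : ℤ)) := by
  classical
  have i1 := isDomain_poly (F := F)
  have i2 := isDedekind_poly (F := F)
  have hne : ι₁ m ≠ ι₂ (org F) := fun h => hinf (h ▸ ⟨m, rfl⟩)
  have hmc := isClosed_chart ι₁ m hm
  have hmax : m.asIdeal.IsMaximal := (PrimeSpectrum.isClosed_singleton_iff_isMaximal m).mp hmc
  refine ⟨?_, ?_⟩
  · intro x hx
    rw [Finsupp.mem_support_iff, Finsupp.sub_apply] at hx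
    by_cases h1 : x = ι₁ m
    · rw [h1]; exact hm
    by_cases h2 : x = ι₂ (org F)
    · rw [h2]; exact isClosed_inf ι₁ ι₂ hcov hglue hinf
    rw [Finsupp.single_eq_of_ne h1, Finsupp.single_eq_of_ne h2] at hx
    exact absurd (sub_zero _) hx
  · intro c hc
    have hdvr := dvr_P1 ι₁ ι₂ hcov c hc
    rcases range_or ι₁ ι₂ hcov hglue c with ⟨m', rfl⟩ | rfl
    · have h2 : ι₁ m' ≠ ι₂ (org F) := fun h => hinf (h ▸ ⟨m', rfl⟩)
      rw [Finsupp.sub_apply, Finsupp.single_eq_of_ne h2, sub_zero]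
      by_cases hmm : m' = m
      · subst hmm
        rw [Finsupp.single_eq_same]
        refine ⟨gm ι₁ (ι₁ m') ⟨m', rfl⟩ P, 1, isOrd_one ι₁ not_isField_poly m' hmc P hP, ?_⟩
        rw [zpow_one, Units.val_one, map_one, mul_one, algebraMap_gm ι₁ (eta_mem ι₁)]
      · rw [Finsupp.single_eq_of_ne (fun h => hmm (ι₁.isOpenEmbedding.injective h))]
        have hmc' := isClosed_chart ι₁ m' hc
        have h3 : P ∉ m'.asIdeal := by
          intro h4
          apply hmm
          have h5 : m.asIdeal ≤ m'.asIdeal := by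
            rw [hP, Ideal.span_singleton_le_iff_mem]; exact h4
          exact PrimeSpectrum.ext (hmax.eq_of_le m'.isPrime.ne_top h5).symm
        obtain ⟨ϖ, hϖ⟩ := IsDiscreteValuationRing.exists_irreducible (W.presheaf.stalk (ι₁ m'))
        obtain ⟨u, hu⟩ := isUnit_gm ι₁ m' P h3
        refine ⟨ϖ, u, hϖ, ?_⟩
        rw [zpow_zero, one_mul, hu, algebraMap_gm ι₁ (eta_mem ι₁)]
    · rw [Finsupp.sub_apply, Finsupp.single_eq_same, Finsupp.single_eq_of_ne hne.symm, zero_sub]
      have hoc : IsClosed ({org F} : Set (Spec (.of F[X]))) :=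
        (PrimeSpectrum.isClosed_singleton_iff_isMaximal (org F)).mpr org_isMaximal
      have hirr := isOrd_one ι₂ not_isField_poly (org F) hoc X rfl
      have hrev : P.reverse ∉ (org F).asIdeal := by
        intro h
        have h1 : X ∣ P.reverse := Ideal.mem_span_singleton.1 h
        rw [X_dvd_iff, coeff_zero_reverse, leadingCoeff_eq_zero] at h1
        exact hP0 h1
      obtain ⟨u, hu⟩ := isUnit_gm ι₂ (org F) P.reverse hrev
      refine ⟨gm ι₂ (ι₂ (org F)) ⟨org F, rfl⟩ X, u, hirr, ?_⟩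
      rw [hu, algebraMap_gm ι₂ (eta_mem ι₂), algebraMap_gm ι₂ (eta_mem ι₂), ← rf_rel ι₁ ι₂ hglue P]
      have hX : rf ι₂ (eta_mem ι₂) (X : F[X]) ≠ 0 := rf_ne_zero ι₂ _ _ (X_ne_zero (R := F))
      rw [zpow_neg, zpow_natCast]
      field_simp

lemma push_id (z : W →₀ ℤ) : push (𝟙 W) z = z := by
  unfold push
  have h1 : ∀ w : W, (𝟙 W : W ⟶ W).residueDegree w = 1 := by
    intro w
    have h2 : Function.Surjective ((𝟙 W : W ⟶ W).residueFieldMap w).hom := by
      have h3 : (𝟙 W : W ⟶ W).residueFieldMap w = 𝟙 _ := Scheme.residueFieldMap_id w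
      rw [h3]
      exact fun z => ⟨z, rfl⟩
    let alg : Algebra (W.residueField ((𝟙 W : W ⟶ W) w)) (W.residueField w) :=
      ((𝟙 W : W ⟶ W).residueFieldMap w).hom.toAlgebra
    change Module.finrank (W.residueField ((𝟙 W : W ⟶ W) w)) (W.residueField w) = 1
    rw [finrank_eq_one_iff_of_nonzero' (1 : W.residueField w) one_ne_zero]
    intro z
    obtain ⟨c, hc⟩ := h2 z
    refine ⟨c, ?_⟩
    rw [Algebra.smul_def, mul_one]
    exact hc
  conv_rhs => rw [← Finsupp.sum_single z]
  apply Finsupp.sum_congr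
  intro w _
  rw [h1, Nat.cast_one, mul_one]
  rfl

include hcov hglue hinf in
/-- every closed point of the projective line is a multiple of the point at infinity -/
lemma point_sub_mem_Rat (w : W) (hw : IsClosed ({w} : Set W)) :
    ∃ d : ℤ, Finsupp.single w 1 - Finsupp.single (ι₂ (org F)) d ∈ H45.CH0.Rat W := by
  have i1 := isDomain_poly (F := F)
  rcases range_or ι₁ ι₂ hcov hglue w with ⟨m, rfl⟩ | rfl
  · have hmc := isClosed_chart ι₁ m hw
    have hmax : m.asIdeal.IsMaximal := (PrimeSpectrum.isClosed_singleton_iff_isMaximal m).mp hmc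
    obtain ⟨P, hP⟩ : ∃ P : F[X], m.asIdeal = Ideal.span {P} := by
      have : m.asIdeal.IsPrincipal := IsPrincipalIdealRing.principal (R := F[X]) m.asIdeal
      exact ⟨_, (Ideal.span_singleton_generator m.asIdeal).symm⟩
    have hP0 : P ≠ 0 := by
      rintro rfl
      have h1 : m.asIdeal = ⊥ := by rw [hP]; simp
      have h2 := Ring.ne_bot_of_isMaximal_of_not_isField hmax (not_isField_poly (F := F))
      exact h2 h1
    refine ⟨P.natDegree, ?_⟩
    apply AddSubgroup.subset_closure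
    refine ⟨W, inferInstance, 𝟙 W, inferInstance, fun c hc => dvr_P1 ι₁ ι₂ hcov c hc,
      rf ι₁ (eta_mem ι₁) P, _, rf_ne_zero ι₁ _ _ hP0, isDiv_P1 ι₁ ι₂ hcov hglue hinf m hw P hP hP0, ?_⟩
    rw [push_id]
  · refine ⟨1, ?_⟩
    rw [sub_self]
    exact AddSubgroup.zero_mem _

end
end H41.Tot
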